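import Pool.Agent.P.MP_419fe0_an.Field

/-!
The deformed operators have an asymptotically bounded calculus.
-/

set_option linter.unusedSectionVars false

namespace Pool.Agent.P.MP_419fe0_an

open Filter Topology Finset
open scoped ENNReal

section alg

variable {A B : Type*} [Ring A] [Algebra ℂ A] [Ring B] [Algebra ℂ B]

lemma far_id1 (φ : A →ₐ[ℂ] B) {e : B} (he : ∀ a, e * φ a = φ a * e) (s : B) (b T : A) (z : ℂ) :
    φ b * ((1 + e * φ (T - 1)) * s) - (1 + (z - 1) • e) * s * φ b =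
      -(e * φ (z • b - b * T) * s) + (1 + (z - 1) • e) * (φ b * s - s * φ b) := by
  have h : ∀ x, φ b * (e * x) = e * (φ b * x) := fun x => by rw [← mul_assoc, ← he, mul_assoc]
  simp only [map_sub, map_mul, map_smul, map_one, mul_add, add_mul, mul_sub, sub_mul, one_mul,
    mul_one, mul_assoc, h, smul_mul_assoc, mul_smul_comm, sub_smul, one_smul]
  abel

lemma far_id2 (φ : A →ₐ[ℂ] B) {e : B} (he : ∀ a, e * φ a = φ a * e) (s : B) (b S : A) (w : ℂ) :
    φ b * (s * (1 + e * φ (S - 1))) - s * (1 + (w - 1) • e) * φ b =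
      -(s * (e * φ (w • b - b * S))) + (φ b * s - s * φ b) * (1 + e * φ (S - 1)) := by
  have h : ∀ x, φ b * (e * x) = e * (φ b * x) := fun x => by rw [← mul_assoc, ← he, mul_assoc]
  simp only [map_sub, map_mul, map_smul, map_one, mul_add, add_mul, mul_sub, sub_mul,
    mul_one, mul_assoc, h, ← he, smul_mul_assoc, mul_smul_comm, sub_smul, one_smul]
  abel

end alg

variable {p : ℝ≥0∞} [Fact (1 ≤ p)] [Good p]

/-- `T` on the first component, the identity on the others -/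
noncomputable def Xn (T : X0 p →L[ℂ] X0 p) (n : ℕ) : Yn p n →L[ℂ] Yn p n :=
  extend (inc p ℂ (0 : Fin (n + 1))) (cmp p ℂ 0) T

lemma cf_e0 (n : ℕ) (y : Yn p n) : cf p (e0 n) y = inc p ℂ 0 (cmp p ℂ 0 y) := (cf_cf _ _ y).symm

lemma Xn_eq (T : X0 p →L[ℂ] X0 p) (n : ℕ) : Xn T n = 1 + cf p (e0 n) * am p n (T - 1) := by
  ext1 y
  simp [Xn, extend, cf_e0]
  abel

lemma norm_e0 (n : ℕ) : ‖cf p (e0 n)‖ ≤ 1 := (norm_cf_le _).trans (e0_proj n).norm_le

lemma norm_Xn (T : X0 p →L[ℂ] X0 p) (n : ℕ) : ‖Xn T n‖ ≤ ‖T‖ + 2 := by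
  have h := norm_ev_extend_aux (inc p ℂ (0 : Fin (n + 1))) (cmp p ℂ 0) T (c := 1) (M := 1) le_rfl
    (by simp)
  rw [one_smul] at h
  have h1 : ‖inc p ℂ (0 : Fin (n + 1))‖ * ‖cmp p ℂ (0 : Fin (n + 1))‖ ≤ 1 :=
    mul_le_one₀ (norm_inc_le _) (norm_nonneg _) (norm_cmp_le _)
  refine h.trans ?_
  nlinarith [norm_nonneg T]

lemma Xn_mul (T S : X0 p →L[ℂ] X0 p) (n : ℕ) : Xn T n * Xn S n = Xn (T * S) n :=
  extend_mul (cmp_inc_self _) T S

lemma Xn_one (n : ℕ) : Xn (1 : X0 p →L[ℂ] X0 p) n = 1 := extend_one _ _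

lemma bdd_Xn (T : X0 p →L[ℂ] X0 p) : Bdd (Xn T) := ⟨_, norm_Xn T⟩

variable {pos : ℕ → ℕ} {τ : ℕ → ℕ → ℝ} {ρ l : ℕ → ℝ} {T S : X0 p →L[ℂ] X0 p} {D : ℝ}

lemma near_const (hD : KS p.toReal D) (hρ : Tendsto ρ atTop atTop) (T S : X0 p →L[ℂ] X0 p)
    {f : ℤ →₀ ℂ} {M : ℝ} (hf : Bd f M) : ∀ᶠ n in atTop,
    ‖ev f (Xn T n * cf p (Gam n (ρ n))) (cf p (star (Gam n (ρ n))) * Xn S n)‖ ≤
      (1 + 2 * D ^ 2 * (‖T - 1‖ + ‖S - 1‖)) * M := by
  set N := f.support.sup Int.natAbs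
  have hN : ∀ k ∈ f.support, k.natAbs ≤ N := fun k hk => le_sup (f := Int.natAbs) hk
  filter_upwards [eventually_ge_atTop N, hρ.eventually_ge_atTop N] with n h1 h2
  set L := Gam n (ρ n)
  have hL : L ∈ unitary (Hn n →L[ℂ] Hn n) := Gam_unitary _ _
  have a1 : ∀ j < N, e0 n * L * L ^ j * (e0 n * L) = 0 := fun j hj => by
    rw [mul_assoc (e0 n), ← pow_succ', ← mul_assoc, (Gam_long h1 h2 hj).2, zero_mul]
  have a2 : ∀ j < N, star L * e0 n * star L ^ j * (star L * e0 n) = 0 := fun j hj => by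
    rw [← mul_assoc, mul_assoc _ _ (star L), ← pow_succ, mul_assoc (star L), mul_assoc (star L),
      (Gam_long h1 h2 hj).1, mul_zero]
  obtain ⟨b1, b2⟩ := norm_bp_bm (e0_proj n) hL a1 a2 hN hf
  have e := ev_expand a1 a2 (cfa p (Hn n)) (u := am p n (T - 1)) (u' := am p n (S - 1))
    (fun a => cf_mul_amp a _) (fun a => cf_mul_amp a _) hN
  have e1 : Xn T n * cf p L = cfa p (Hn n) L + am p n (T - 1) * cfa p (Hn n) (e0 n * L) := by
    rw [Xn_eq, map_mul, cf_mul_amp, add_mul, one_mul, mul_assoc]; rfl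
  have e2 : cf p (star L) * Xn S n =
      cfa p (Hn n) (star L) + am p n (S - 1) * cfa p (Hn n) (star L * e0 n) := by
    rw [Xn_eq, map_mul, mul_add, mul_one, ← mul_assoc]
    congr 1
    exact (congrArg (· * am p n (S - 1)) (map_mul (cfa p (Hn n)) (star L) (e0 n)).symm).trans
      ((cf_mul_amp _ _).trans (congrArg (am p n (S - 1) * ·) (map_mul (cfa p (Hn n)) _ _)))
  rw [e1, e2, e]
  have hM := hf.nonneg
  have c0 : ‖cfa p (Hn n) (ev f L (star L))‖ ≤ M := (norm_cf_le _).trans (vN hL hf)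
  have c1 : ‖am p n (T - 1) * cfa p (Hn n) (bp f L (e0 n * L))‖ ≤ D ^ 2 * ‖T - 1‖ * (2 * M) :=
    (norm_mul_le _ _).trans (mul_le_mul (hD.norm_amp _) ((norm_cf_le _).trans b1) (norm_nonneg _)
      (by positivity))
  have c2 : ‖am p n (S - 1) * cfa p (Hn n) (bm f (star L) (star L * e0 n))‖ ≤
      D ^ 2 * ‖S - 1‖ * (2 * M) :=
    (norm_mul_le _ _).trans (mul_le_mul (hD.norm_amp _) ((norm_cf_le _).trans b2) (norm_nonneg _)
      (by positivity))
  refine norm_add₃_le.trans ?_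
  linarith

/-- sequences that vanish near the origin -/
def NI (a : ∀ n, Yn p n →L[ℂ] Yn p n) : Prop := ∀ K, Cpt K → Nul fun n => am p n K * a n

/-- left multipliers -/
def LM (c : ∀ n, Yn p n →L[ℂ] Yn p n) : Prop := ∀ a, NI a → NI fun n => c n * a n

lemma LM.mul {c d : ∀ n, Yn p n →L[ℂ] Yn p n} (hc : LM c) (hd : LM d) : LM fun n => c n * d n :=
  fun a ha K hK => (hc _ (hd a ha) K hK).of_eq fun n => by beta_reduce; rw [mul_assoc (c n)]

lemma LM.cf {u : ∀ n, Hn n →L[ℂ] Hn n} (hu : ∀ n, ‖u n‖ ≤ 1) : LM (p := p) fun n => cf p (u n) :=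
  fun a ha K hK => ((ha K hK).mul_left ⟨1, fun n => (norm_cf_le (u n)).trans (hu n)⟩).of_eq
    fun n => by rw [← mul_assoc, ← cf_mul_amp, mul_assoc]

lemma LM.am (B : X0 p →L[ℂ] X0 p) : LM fun n => am p n B :=
  fun a ha K hK => (ha _ (hK.mul_right B)).of_eq fun n => by rw [map_mul, mul_assoc]

lemma LM.xn (T : X0 p →L[ℂ] X0 p) : LM (Xn T) :=
  fun a ha K hK => ((ha K hK).add
    (((LM.cf fun n => (e0_proj n).norm_le).mul (LM.am (T - 1))) a ha K hK)).of_eq fun n => by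
      beta_reduce; rw [Xn_eq, add_mul, one_mul, mul_add]

lemma NI.mul_right {a b : ∀ n, Yn p n →L[ℂ] Yn p n} (ha : NI a) (hb : Bdd b) :
    NI fun n => a n * b n :=
  fun K hK => ((ha K hK).mul_right hb).of_eq fun n => by rw [mul_assoc]

lemma NI.tail {a : ∀ n, Yn p n →L[ℂ] Yn p n} (ha : Bdd a)
    (h : ∀ n, a n = am p n (Qn p n) * a n) : NI a :=
  fun K hK => ((nul_am (tendsto_tail hK).2).mul_right ha).of_eq fun n => by
    rw [map_mul, mul_assoc, ← h]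

lemma NI.pow {a b : ∀ n, Yn p n →L[ℂ] Yn p n} (ha : Bdd a) (hb : LM b)
    (h : NI fun n => a n - b n) (k : ℕ) : NI fun n => a n ^ k - b n ^ k := by
  induction k with
  | zero => exact fun K _ => Nul.zero.of_eq fun n => by simp
  | succ k ih =>
    exact fun K hK => ((h.mul_right (ha.pow k) K hK).add (hb _ ih K hK)).of_eq fun n => by
      beta_reduce; rw [pow_succ', pow_succ']; noncomm_ring

lemma NI.ev {a b a' b' : ∀ n, Yn p n →L[ℂ] Yn p n} (ha : Bdd a) (hb : LM b)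
    (h : NI fun n => a n - b n) (ha' : Bdd a') (hb' : LM b') (h' : NI fun n => a' n - b' n)
    (f : ℤ →₀ ℂ) : NI fun n => ev f (a n) (a' n) - ev f (b n) (b' n) := by
  induction f using Finsupp.induction_linear with
  | zero => exact fun K _ => Nul.zero.of_eq fun n => by simp
  | add f g hf hg =>
    exact fun K hK => ((hf K hK).add (hg K hK)).of_eq fun n => by
      beta_reduce; rw [ev_add, ev_add]; noncomm_ring
  | single k c =>
    have : NI fun n => pw (a n) (a' n) k - pw (b n) (b' n) k := by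
      unfold pw
      split_ifs
      · exact NI.pow ha hb h _
      · exact NI.pow ha' hb' h' _
    exact fun K hK => ((this K hK).smul c).of_eq fun n => by
      beta_reduce; rw [ev_single, ev_single, ← smul_sub, mul_smul_comm]

lemma Prof.near (h : Prof pos τ ρ l) (T S : X0 p →L[ℂ] X0 p) (f : ℤ →₀ ℂ) :
    NI fun n => ev f (Xn T n * Sg p pos τ n) (Sg' p pos τ n * Xn S n) -
      ev f (Xn T n * cf p (Gam n (ρ n))) (cf p (star (Gam n (ρ n))) * Xn S n) := by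
  refine NI.ev ((bdd_Xn T).mul bdd_Sg) ((LM.xn T).mul (LM.cf fun n => norm_Gam _ _)) ?_
    (bdd_Sg'.mul (bdd_Xn S)) ((LM.cf fun n => norm_Gam' _ _).mul (LM.xn S)) ?_ f
  · exact fun K hK => (LM.xn T _ (NI.tail bdd_delta fun n => (h.delta n).1) K hK).of_eq
      fun n => by beta_reduce; rw [mul_sub (Xn T n)]
  · exact fun K hK => ((NI.tail bdd_delta' fun n => (h.delta n).2.2).mul_right (bdd_Xn S)
      K hK).of_eq fun n => by beta_reduce; rw [sub_mul]

lemma norm_col_le_sum {A : Type} [Fintype A] [DecidableEq A] {G : Type} [NormedAddCommGroup G]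
    [InnerProductSpace ℂ G] {X : Type*} [NormedAddCommGroup X] [NormedSpace ℂ X]
    (B : A → X →L[ℂ] Lc p G) : ‖col B‖ ≤ ∑ a, ‖B a‖ :=
  (norm_sum_le univ fun a => (inc p G a).comp (B a)).trans (sum_le_sum fun a _ =>
    (ContinuousLinearMap.opNorm_comp_le _ _).trans
      (mul_le_of_le_one_left (norm_nonneg _) (norm_inc_le a)))

/-- the local unitaries -/
noncomputable def uu (pos : ℕ → ℕ) (τ : ℕ → ℕ → ℝ) (n : ℕ) (z : ℂ) (k : ℕ) : Hn n →L[ℂ] Hn n :=
  (1 + (z - 1) • e0 n) * Gam n (τ n (pos k))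

lemma uu_unitary (n : ℕ) {z : ℂ} (hz : ‖z‖ = 1) (k : ℕ) :
    uu pos τ n z k ∈ unitary (Hn n →L[ℂ] Hn n) :=
  mul_mem (phase_unitary (e0_proj n) hz) (Gam_unitary n _)

lemma bdd_uu (n : ℕ) {z : ℂ} (hz : ‖z‖ = 1) :
    Bdd (E := fun _ => Hn n) (F := fun _ => Hn n) (uu pos τ n z) :=
  ⟨1, fun k => norm_unitary_le (uu_unitary n hz k)⟩

lemma bdd_uu' (n : ℕ) {z : ℂ} (hz : ‖z‖ = 1) :
    Bdd (E := fun _ => Hn n) (F := fun _ => Hn n) fun k => star (uu pos τ n z k) :=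
  ⟨1, fun k => norm_unitary_le (Unitary.star_mem (uu_unitary n hz k))⟩

lemma diag_uu (n : ℕ) {z : ℂ} (hz : ‖z‖ = 1) :
    diag p (uu pos τ n z) = (1 + (z - 1) • cf p (e0 n)) * Sg p pos τ n := by
  ext1 y
  ext1
  ext1 k
  rw [diag_apply (bdd_uu n hz)]
  simp [uu, Sg_apply]

lemma diag_uu' (n : ℕ) {z : ℂ} (hz : ‖z‖ = 1) :
    (diag p fun k => star (uu pos τ n z k)) = Sg' p pos τ n * (1 + (z⁻¹ - 1) • cf p (e0 n)) := by
  ext1 y
  ext1
  ext1 k
  have : star (uu pos τ n z k) = star (Gam n (τ n (pos k))) * (1 + (z⁻¹ - 1) • e0 n) :=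
    (star_mul _ _).trans (congrArg _ (star_phase (e0_proj n) hz))
  rw [diag_apply (bdd_uu' n hz), this]
  simp [Sg'_apply]

lemma col_sub_blk {m n : ℕ} (w b c d : Fin m → Yn p n →L[ℂ] Yn p n) (R : Yn p n →L[ℂ] Yn p n)
    (h : ∀ j, w j * R - b j * w j = c j + d j) :
    (col w).comp R - (blk b).comp (col w) = col c + col d := by
  refine ContinuousLinearMap.ext fun y => ext_cmp fun j => ?_
  have := congrArg (fun B : Yn p n →L[ℂ] Yn p n => B y) (h j)
  simpa only [sub_apply, add_apply, map_sub, map_add, ContinuousLinearMap.comp_apply,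
    cmp_col, cmp_blk, mul_apply_eq_comp] using this

section far

variable {m n : ℕ} {z : Fin m → ℂ} {a : Fin m → X0 p →L[ℂ] X0 p} {Q : X0 p →L[ℂ] X0 p} {c η : ℝ}

lemma far_nW (hD : KS p.toReal D) (n : ℕ)
    (h : ∀ ω : Fin m → Bool, ‖Q * ∑ j, (sg (ω j) : ℂ) • a j‖ ≤ c) :
    ‖col fun j => am p n (Q * a j)‖ ≤ D * (D ^ 2 * c) := hD.norm_col _ fun ω => by
  have : ∑ j, (sg (ω j) : ℂ) • am p n (Q * a j) = am p n (Q * ∑ j, (sg (ω j) : ℂ) • a j) := by
    simp only [mul_sum, mul_smul_comm, map_sum, map_smul]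
  rw [this]
  exact (hD.norm_amp _).trans (mul_le_mul_of_nonneg_left (h ω) (sq_nonneg _))

lemma far_nW' (hD : KS p.toReal D) (n : ℕ)
    (h : ∀ ω : Fin m → Bool, ‖(∑ j, (sg (ω j) : ℂ) • a j) * Q‖ ≤ c) :
    ‖row fun j => am p n (a j * Q)‖ ≤ D * (D ^ 2 * c) := hD.norm_row _ fun ω => by
  have : ∑ j, (sg (ω j) : ℂ) • am p n (a j * Q) = am p n ((∑ j, (sg (ω j) : ℂ) • a j) * Q) := by
    simp only [sum_mul, smul_mul_assoc, map_sum, map_smul]
  rw [this]
  exact (hD.norm_amp _).trans (mul_le_mul_of_nonneg_left (h ω) (sq_nonneg _))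

lemma far_nB (n : ℕ) (hz : ∀ j, ‖z j‖ = 1) : ‖blk fun j => diag p (uu pos τ n (z j))‖ ≤ 1 :=
  norm_le_of_blocks _ zero_le_one fun y k j => by
    rw [← cmp_apply, cmp_blk, diag_apply (bdd_uu n (hz j)), cmp_apply]
    exact ContinuousLinearMap.le_of_opNorm_le _ (norm_unitary_le (uu_unitary n (hz j) _)) _

lemma far_nB' (n : ℕ) (hz : ∀ j, ‖z j‖ = 1) :
    ‖blk fun j => diag p fun k => star (uu pos τ n (z j) k)‖ ≤ 1 :=
  norm_le_of_blocks _ zero_le_one fun y k j => by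
    rw [← cmp_apply, cmp_blk, diag_apply (bdd_uu' n (hz j)), cmp_apply]
    exact ContinuousLinearMap.le_of_opNorm_le _
      (norm_unitary_le (Unitary.star_mem (uu_unitary n (hz j) _))) _

lemma far_nE (n : ℕ) (hz : ∀ j, ‖z j‖ = 1) {f : ℤ →₀ ℂ} {M : ℝ} (hf : Bd f M) :
    ‖ev f (blk fun j => diag p (uu pos τ n (z j)))
      (blk fun j => diag p fun k => star (uu pos τ n (z j) k))‖ ≤ M :=
  norm_le_of_blocks _ hf.nonneg fun y k j => by
    rw [← cmp_apply, cmp_ev_blk, ev_diag (bdd_uu n (hz j)) (bdd_uu' n (hz j)), cmp_apply]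
    exact ContinuousLinearMap.le_of_opNorm_le _ (vN (uu_unitary n (hz j) _) hf) _

lemma far_j (hD : KS p.toReal D) {b : Fin m → X0 p →L[ℂ] X0 p} {u v : Yn p n →L[ℂ] Yn p n}
    (hu : ‖u‖ ≤ 1) (hv : ‖v‖ ≤ 1)
    (h : ∀ ω : Fin m → Bool, ‖Q * ∑ j, (sg (ω j) : ℂ) • b j‖ ≤ η) :
    ‖col fun j => -(u * am p n (Q * b j) * v)‖ ≤ D * (D ^ 2 * η) := hD.norm_col _ fun ω => by
  have : ∑ j, (sg (ω j) : ℂ) • -(u * am p n (Q * b j) * v) =
      -(u * am p n (Q * ∑ j, (sg (ω j) : ℂ) • b j) * v) := by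
    simp only [mul_sum, sum_mul, mul_smul_comm, smul_mul_assoc, map_sum, map_smul, smul_neg,
      sum_neg_distrib]
  rw [this, norm_neg]
  refine (norm_mul_le _ _).trans ((mul_le_of_le_one_right (norm_nonneg _) hv).trans
    ((norm_mul_le _ _).trans ((mul_le_of_le_one_left (norm_nonneg _) hu).trans ?_)))
  exact (hD.norm_amp _).trans (mul_le_mul_of_nonneg_left (h ω) (sq_nonneg _))

lemma far_i1 (hD : KS p.toReal D) (hz : ∀ j, ‖z j‖ = 1)
    (h : ∀ ω : Fin m → Bool, ‖Q * ∑ j, (sg (ω j) : ℂ) • (z j • a j - a j * T)‖ ≤ η)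
    (k1 : ∑ j, ‖(1 + (z j - 1) • cf p (e0 n)) *
      (am p n (Q * a j) * Sg p pos τ n - Sg p pos τ n * am p n (Q * a j))‖ ≤ η) :
    ‖(col fun j => am p n (Q * a j)).comp (Xn T n * Sg p pos τ n) -
      (blk fun j => diag p (uu pos τ n (z j))).comp (col fun j => am p n (Q * a j))‖ ≤
      (D ^ 3 + 1) * η := by
  rw [col_sub_blk _ _
    (fun j => -(cf p (e0 n) * am p n (Q * (z j • a j - a j * T)) * Sg p pos τ n))
    (fun j => (1 + (z j - 1) • cf p (e0 n)) *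
      (am p n (Q * a j) * Sg p pos τ n - Sg p pos τ n * am p n (Q * a j))) _ fun j => ?_]
  · have j1 := far_j hD (norm_e0 n) (norm_Sg (p := p) (pos := pos) (τ := τ) n) h
    have j2 := (norm_col_le_sum _).trans k1
    exact (norm_add_le _ _).trans ((add_le_add j1 j2).trans_eq (by ring))
  · have e0 : Q * (z j • a j - a j * T) = z j • (Q * a j) - Q * a j * T := by
      rw [mul_sub, mul_smul_comm, mul_assoc]
    rw [diag_uu n (hz j), Xn_eq, e0]
    exact far_id1 (am p n) (cf_mul_amp _) _ _ _ _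

lemma far_i2 (hD : KS p.toReal D) (hz : ∀ j, ‖z j‖ = 1)
    (h : ∀ ω : Fin m → Bool, ‖Q * ∑ j, (sg (ω j) : ℂ) • ((z j)⁻¹ • a j - a j * S)‖ ≤ η)
    (k2 : ∑ j, ‖(am p n (Q * a j) * Sg' p pos τ n - Sg' p pos τ n * am p n (Q * a j)) *
      Xn S n‖ ≤ η) :
    ‖(col fun j => am p n (Q * a j)).comp (Sg' p pos τ n * Xn S n) -
      (blk fun j => diag p fun k => star (uu pos τ n (z j) k)).comp
        (col fun j => am p n (Q * a j))‖ ≤ (D ^ 3 + 1) * η := by
  rw [col_sub_blk _ _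
    (fun j => -(Sg' p pos τ n * cf p (e0 n) * am p n (Q * ((z j)⁻¹ • a j - a j * S)) * 1))
    (fun j => (am p n (Q * a j) * Sg' p pos τ n - Sg' p pos τ n * am p n (Q * a j)) * Xn S n)
    _ fun j => ?_]
  · have j1 := far_j hD ((norm_mul_le (Sg' p pos τ n) (cf p (e0 n))).trans
      (mul_le_one₀ (norm_Sg' n) (norm_nonneg _) (norm_e0 n)))
      (v := 1) ContinuousLinearMap.norm_id_le h
    have j2 := (norm_col_le_sum _).trans k2
    exact (norm_add_le _ _).trans ((add_le_add j1 j2).trans_eq (by ring))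
  · have e0 : Q * ((z j)⁻¹ • a j - a j * S) = (z j)⁻¹ • (Q * a j) - Q * a j * S := by
      rw [mul_sub, mul_smul_comm, mul_assoc]
    rw [diag_uu' n (hz j), Xn_eq, e0, mul_one, mul_assoc (Sg' p pos τ n)]
    exact far_id2 (am p n) (cf_mul_amp _) _ _ _ _

lemma far_e (E : Yn p n →L[ℂ] Yn p n) (F : Yn p n →L[ℂ] Lc p (P2 (Fin m) (Hn n))) :
    am p n (1 + (∑ j, a j * Q * (Q * a j) - 1)) * E =
      (row fun j => am p n (a j * Q)).comp
        (((col fun j => am p n (Q * a j)).comp E - F) + F) := by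
  rw [sub_add_cancel, ← ContinuousLinearMap.comp_assoc, row_col, add_sub_cancel, map_sum]
  simp only [map_mul (am p n) (a _ * Q)]
  rfl

end far

lemma far_arith {D c M ε l η : ℝ} (h : D * (D ^ 2 * c) * (l * ((D ^ 3 + 1) * η)) ≤ ε) :
    D * (D ^ 2 * c) * (l * ((D ^ 3 + 1) * η) + M * (D * (D ^ 2 * c))) ≤
      (D ^ 3 * c) ^ 2 * M + ε := by
  have : D * (D ^ 2 * c) * (l * ((D ^ 3 + 1) * η) + M * (D * (D ^ 2 * c))) =
    (D ^ 3 * c) ^ 2 * M + D * (D ^ 2 * c) * (l * ((D ^ 3 + 1) * η)) := by ring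
  rw [this]
  linarith

lemma far (hD : KS p.toReal D) (h1 : T * S = 1) (h2 : S * T = 1) {C : ℝ} (hC0 : 0 ≤ C)
    (hC : CB T S C) (hT : AC pos τ T) {f : ℤ →₀ ℂ} {M : ℝ} (hf : Bd f M) {ε : ℝ} (hε : 0 < ε) :
    ∃ K, Cpt K ∧ ∀ᶠ n in atTop,
      ‖am p n (1 + K) * ev f (Xn T n * Sg p pos τ n) (Sg' p pos τ n * Xn S n)‖ ≤
        (D ^ 3 * (C * 2 + 1)) ^ 2 * M + ε := by
  have hD1 := hD.one_le
  have hM := hf.nonneg
  obtain ⟨c, hcdef⟩ : ∃ c, c = C * 2 + 1 := ⟨_, rfl⟩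
  have hc : 0 < c := by rw [hcdef]; positivity
  obtain ⟨L, hLdef⟩ : ∃ L, L = ‖T‖ + ‖S‖ + 2 := ⟨_, rfl⟩
  have hL : 1 ≤ L := by linarith [norm_nonneg T, norm_nonneg S]
  have hlip := lipc_nonneg f (zero_le_one.trans hL)
  obtain ⟨η, hηdef⟩ : ∃ η, η = ε / (D ^ 3 * c * (lipc f L + 1) * (D ^ 3 + 1)) := ⟨_, rfl⟩
  have hη : 0 < η := by rw [hηdef]; positivity
  have i5 : D * (D ^ 2 * c) * (lipc f L * ((D ^ 3 + 1) * η)) ≤ ε := by
    calc _ ≤ D * (D ^ 2 * c) * ((lipc f L + 1) * ((D ^ 3 + 1) * η)) := by gcongr; linarith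
      _ = ε := by rw [hηdef]; field_simp
  obtain ⟨m, z, g, hz, hsq, hFD⟩ := exists_FD hC0 (Cpt.of_sub_eq h1) (Cpt.of_sub_eq h2) hC hη
  obtain ⟨n0, fd⟩ := hFD.exists
  rw [← hcdef] at fd ⊢
  have ha : ∀ j, AC pos τ (ev (g j) T S) := fun j => hT.ev (hT.inv h1 h2) _
  obtain ⟨a, ha'⟩ : ∃ a : Fin m → X0 p →L[ℂ] X0 p, ∀ j, ev (g j) T S = a j := ⟨_, fun _ => rfl⟩
  simp only [ha'] at hsq fd ha
  have hac : ∀ j, AC pos τ (Qn p n0 * a j) := fun j => (AC.ind _).mul (ha j)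
  have hQc : Cpt (1 - Qn p n0) :=
    (ind_cpt (p := p) (E := fun _ => ℂ) (Set.finite_Iio n0)).of_eq (by
      rw [← ind_compl, Set.compl_Ici])
  have hQQ : Qn p n0 * Qn p n0 = Qn p n0 := by rw [ind_mul, Set.inter_self]
  obtain ⟨fl, fr, -, fl1, -, fl3, -⟩ := fd
  generalize Qn p n0 = Q at hac hQc hQQ fl fr fl1 fl3
  refine ⟨∑ j, a j * Q * (Q * a j) - 1, ?_, ?_⟩
  · refine (hsq.sub (Cpt.sum univ fun j _ => (hQc.mul_left (a j)).mul_right (a j))).of_eq ?_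
    have : ∀ j, a j * Q * (Q * a j) = a j * a j - a j * (1 - Q) * a j := fun j => by
      rw [mul_assoc, ← mul_assoc Q, hQQ]; noncomm_ring
    simp only [this, sum_sub_distrib]
    abel
  have bE : ∀ w : ℂ, Bdd fun n => 1 + (w - 1) • cf p (e0 n) := fun w =>
    Bdd.one.add (Bdd.smul ⟨1, norm_e0⟩ _)
  have N1 := tendsto_finsetSum univ fun j _ => (hac j).mul_left (bE (z j))
  have N2 := tendsto_finsetSum univ fun j _ => (hac j).star.mul_right (bdd_Xn S)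
  rw [sum_const_zero] at N1 N2
  filter_upwards [N1.eventually (gt_mem_nhds hη), N2.eventually (gt_mem_nhds hη)] with n k1 k2
  have nW := far_nW hD n fl
  have nE := far_nE (p := p) (pos := pos) (τ := τ) n hz hf
  have nR : ‖Xn T n * Sg p pos τ n‖ ≤ L := (norm_mul_le _ _).trans
    ((mul_le_of_le_one_right (norm_nonneg _) (norm_Sg n)).trans
      ((norm_Xn T n).trans (by linarith [norm_nonneg S])))
  have nR' : ‖Sg' p pos τ n * Xn S n‖ ≤ L := (norm_mul_le _ _).trans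
    ((mul_le_of_le_one_left (norm_nonneg _) (norm_Sg' n)).trans
      ((norm_Xn S n).trans (by linarith [norm_nonneg T])))
  have i3 := ev_approx hL nR ((far_nB n hz).trans hL) nR' ((far_nB' n hz).trans hL)
    (far_i1 hD hz fl1 k1.le) (far_i2 hD hz fl3 k2.le) f
  have hW0 : 0 ≤ D * (D ^ 2 * c) := by positivity
  rw [far_e _ ((ev f (blk fun j => diag p (uu pos τ n (z j)))
      (blk fun j => diag p fun k => star (uu pos τ n (z j) k))).comp
      (col fun j => am p n (Q * a j)))]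
  exact ((ContinuousLinearMap.opNorm_comp_le _ _).trans (mul_le_mul (far_nW' hD n fr)
    ((norm_add_le _ _).trans (add_le_add i3 ((ContinuousLinearMap.opNorm_comp_le _ _).trans
      (mul_le_mul nE nW (norm_nonneg _) hM)))) (norm_nonneg _) hW0)).trans (far_arith i5)

theorem Prof.limsup (h : Prof pos τ ρ l) (h1 : T * S = 1) (h2 : S * T = 1) {C : ℝ} (hC0 : 0 ≤ C)
    (hC : CB T S C) (hT : AC pos τ T) : ∃ C', 0 ≤ C' ∧ ∀ f M, Bd f M → ∀ ε > 0, ∀ᶠ n in atTop,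
      ‖ev f (Xn T n * Sg p pos τ n) (Sg' p pos τ n * Xn S n)‖ ≤ C' * M + ε := by
  obtain ⟨D, hD⟩ := exists_KS (one_lt_pr (p := p))
  refine ⟨(D ^ 3 * (C * 2 + 1)) ^ 2 + (1 + 2 * D ^ 2 * (‖T - 1‖ + ‖S - 1‖)), by positivity,
    fun f M hf ε hε => ?_⟩
  obtain ⟨K, hK, h3⟩ := far hD h1 h2 hC0 hC hT hf (ε := ε / 3) (by positivity)
  obtain ⟨F, hF⟩ := (((bdd_Xn T).mul (bdd_Sg (pos := pos) (τ := τ))).ev
    ((bdd_Sg' (pos := pos) (τ := τ)).mul (bdd_Xn S)) f)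
  have hF0 : 0 ≤ F := (norm_nonneg _).trans (hF 0)
  obtain ⟨m, hm, -⟩ := (tail_eventually hK (ε := ε / 3 / (D ^ 2 * F + 1)) (by positivity)).exists
  have hP : Cpt (ind p (fun _ => ℂ) (Set.Iio m)) := ind_cpt (Set.finite_Iio m)
  filter_upwards [h3, near_const hD h.r T S hf,
    (h.near T S f _ hP).eventually (gt_mem_nhds (show 0 < ε / 3 by positivity))] with n k1 k2 k3
  have k4 := hF n
  beta_reduce at k3 k4
  set E := ev f (Xn T n * Sg p pos τ n) (Sg' p pos τ n * Xn S n)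
  set E' := ev f (Xn T n * cf p (Gam n (ρ n))) (cf p (star (Gam n (ρ n))) * Xn S n)
  set P := ind p (fun _ => ℂ) (Set.Iio m) with hPdef
  have hQ : Qn p m = 1 - P := by rw [hPdef, ← ind_compl, Set.compl_Iio]
  have e : E = am p n (Qn p m) * (am p n (1 + K) * E) - am p n (Qn p m * K) * E +
      am p n P * (E - E') + am p n P * E' := by
    rw [hQ]
    simp only [map_mul, map_sub, map_add, map_one]
    noncomm_ring
  have n1 : ‖am p n (Qn p m)‖ ≤ 1 := by rw [amp_ind]; exact norm_ind_le _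
  have n2 : ‖am p n P‖ ≤ 1 := by rw [hPdef, amp_ind]; exact norm_ind_le _
  have c1 := (norm_mul_le (am p n (Qn p m)) (am p n (1 + K) * E)).trans
    (mul_le_of_le_one_left (norm_nonneg _) n1)
  have c2 := (norm_mul_le (am p n P) E').trans (mul_le_of_le_one_left (norm_nonneg _) n2)
  have c3 : ‖am p n (Qn p m * K) * E‖ ≤ ε / 3 := by
    calc _ ≤ D ^ 2 * (ε / 3 / (D ^ 2 * F + 1)) * F :=
          (norm_mul_le _ _).trans (mul_le_mul ((hD.norm_amp _).trans (by gcongr)) k4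
            (norm_nonneg _) (by positivity))
      _ = ε / 3 * (D ^ 2 * F / (D ^ 2 * F + 1)) := by ring
      _ ≤ ε / 3 := mul_le_of_le_one_right (by positivity)
          (div_le_one_of_le₀ (by linarith) (by positivity))
  rw [e]
  refine norm_add₃_le.trans ?_
  linarith [norm_sub_le (am p n (Qn p m) * (am p n (1 + K) * E)) (am p n (Qn p m * K) * E)]

end Pool.Agent.P.MP_419fe0_an
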