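import Mathlib

/-!
Compact operators as an ideal, and the semigroup of operators up to similarity modulo compacts.
-/

namespace Pool.Agent.P.MP_419fe0_an

open Filter Topology

section Cpt

variable {X Y Z W : Type*} [NormedAddCommGroup X] [NormedSpace ℂ X] [NormedAddCommGroup Y]
  [NormedSpace ℂ Y] [NormedAddCommGroup Z] [NormedSpace ℂ Z] [NormedAddCommGroup W]
  [NormedSpace ℂ W]

/-- compact operator -/
def Cpt (A : X →L[ℂ] Y) : Prop := IsCompactOperator A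

lemma Cpt.zero : Cpt (0 : X →L[ℂ] Y) := isCompactOperator_zero

lemma Cpt.add {A B : X →L[ℂ] Y} (hA : Cpt A) (hB : Cpt B) : Cpt (A + B) :=
  IsCompactOperator.add hA hB

lemma Cpt.neg {A : X →L[ℂ] Y} (hA : Cpt A) : Cpt (-A) := IsCompactOperator.neg hA

lemma Cpt.sub {A B : X →L[ℂ] Y} (hA : Cpt A) (hB : Cpt B) : Cpt (A - B) :=
  IsCompactOperator.sub hA hB

lemma Cpt.smul {A : X →L[ℂ] Y} (hA : Cpt A) (c : ℂ) : Cpt (c • A) :=
  IsCompactOperator.smul hA c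

lemma Cpt.comp_left {A : X →L[ℂ] Y} (hA : Cpt A) (B : Y →L[ℂ] Z) : Cpt (B.comp A) :=
  IsCompactOperator.clm_comp hA B

lemma Cpt.comp_right {A : Y →L[ℂ] Z} (hA : Cpt A) (B : X →L[ℂ] Y) : Cpt (A.comp B) :=
  IsCompactOperator.comp_clm hA B

lemma Cpt.mul_left {A : X →L[ℂ] X} (hA : Cpt A) (B : X →L[ℂ] X) : Cpt (B * A) :=
  hA.comp_left B

lemma Cpt.mul_right {A : X →L[ℂ] X} (hA : Cpt A) (B : X →L[ℂ] X) : Cpt (A * B) :=
  hA.comp_right B

lemma Cpt.sum {ι : Type*} (s : Finset ι) {A : ι → X →L[ℂ] Y} (h : ∀ i ∈ s, Cpt (A i)) :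
    Cpt (∑ i ∈ s, A i) :=
  Finset.sum_induction A Cpt (fun _ _ => Cpt.add) Cpt.zero h

lemma Cpt.of_eq {A B : X →L[ℂ] Y} (hA : Cpt A) (h : B = A) : Cpt B := h ▸ hA

lemma Cpt.symm {A B : X →L[ℂ] Y} (h : Cpt (A - B)) : Cpt (B - A) :=
  h.neg.of_eq (by abel)

lemma Cpt.trans {A B C : X →L[ℂ] Y} (h : Cpt (A - B)) (h' : Cpt (B - C)) : Cpt (A - C) :=
  (h.add h').of_eq (by abel)

lemma Cpt.refl (A : X →L[ℂ] Y) : Cpt (A - A) := Cpt.zero.of_eq (sub_self A)

lemma Cpt.of_sub_eq {A B : X →L[ℂ] Y} (h : A = B) : Cpt (A - B) := h ▸ Cpt.refl A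

lemma Cpt.of_approx [CompleteSpace Y] {A : X →L[ℂ] Y}
    (h : ∀ ε > 0, ∃ K, Cpt K ∧ ‖A - K‖ ≤ ε) : Cpt A := by
  have hcl : IsClosed {f : X →L[ℂ] Y | IsCompactOperator f} :=
    isClosed_setOfPred_isCompactOperator
  have : A ∈ closure {f : X →L[ℂ] Y | IsCompactOperator f} := by
    rw [Metric.mem_closure_iff]
    intro ε hε
    obtain ⟨K, hK, hAK⟩ := h (ε / 2) (by linarith)
    exact ⟨K, hK, by rw [dist_eq_norm]; linarith⟩
  rwa [hcl.closure_eq] at this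

lemma Cpt.of_fd_cod [FiniteDimensional ℂ Y] (A : X →L[ℂ] Y) : Cpt A := by
  have : ProperSpace Y := FiniteDimensional.proper ℂ Y
  exact isCompactOperator_of_locallyCompactSpace_dom A

lemma Cpt.of_fd_dom [FiniteDimensional ℂ X] (A : X →L[ℂ] Y) : Cpt A := by
  have : ProperSpace X := FiniteDimensional.proper ℂ X
  exact isCompactOperator_of_locallyCompactSpace_rng A

lemma Cpt.prod {A : X →L[ℂ] Y} {B : X →L[ℂ] Z} (hA : Cpt A) (hB : Cpt B) : Cpt (A.prod B) :=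
  ((hA.comp_left (ContinuousLinearMap.inl ℂ Y Z)).add
    (hB.comp_left (ContinuousLinearMap.inr ℂ Y Z))).of_eq (by ext <;> simp)

lemma Cpt.coprod {A : X →L[ℂ] Z} {B : Y →L[ℂ] Z} (hA : Cpt A) (hB : Cpt B) :
    Cpt (A.coprod B) :=
  ((hA.comp_right (ContinuousLinearMap.fst ℂ X Y)).add
    (hB.comp_right (ContinuousLinearMap.snd ℂ X Y))).of_eq (by ext <;> simp)

lemma Cpt.prodMap {A : X →L[ℂ] Z} {B : Y →L[ℂ] W} (hA : Cpt A) (hB : Cpt B) :
    Cpt (A.prodMap B) :=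
  (hA.comp_right _).prod (hB.comp_right _)

lemma Cpt.mul_sub_mul {A A' B B' : X →L[ℂ] X} (hA : Cpt (A - A')) (hB : Cpt (B - B')) :
    Cpt (A * B - A' * B') :=
  ((hA.mul_right B).add (hB.mul_left A')).of_eq (by noncomm_ring)

lemma Cpt.pow_sub_pow {A A' : X →L[ℂ] X} (hA : Cpt (A - A')) (n : ℕ) :
    Cpt (A ^ n - A' ^ n) := by
  induction n with
  | zero => simpa using Cpt.zero
  | succ n ih => rw [pow_succ, pow_succ]; exact ih.mul_sub_mul hA

end Cpt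

/-- a Banach space with an operator -/
structure Obj where
  X : Type
  [n : NormedAddCommGroup X]
  [s : NormedSpace ℂ X]
  T : X →L[ℂ] X

attribute [instance] Obj.n Obj.s

/-- similarity modulo compact operators -/
def Sim (A B : Obj) : Prop :=
  ∃ V : A.X ≃L[ℂ] B.X, Cpt ((V : A.X →L[ℂ] B.X).comp A.T - B.T.comp (V : A.X →L[ℂ] B.X))

lemma Sim.refl (A : Obj) : Sim A A :=
  ⟨ContinuousLinearEquiv.refl ℂ _, Cpt.of_sub_eq (by ext; simp)⟩

lemma Sim.symm {A B : Obj} (h : Sim A B) : Sim B A := by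
  obtain ⟨V, hV⟩ := h
  refine ⟨V.symm, (((hV.comp_left (V.symm : B.X →L[ℂ] A.X)).comp_right
    (V.symm : B.X →L[ℂ] A.X)).neg).of_eq ?_⟩
  ext; simp

lemma Sim.trans {A B C : Obj} (h : Sim A B) (h' : Sim B C) : Sim A C := by
  obtain ⟨V, hV⟩ := h
  obtain ⟨V', hV'⟩ := h'
  refine ⟨V.trans V', ((hV.comp_left (V' : B.X →L[ℂ] C.X)).add
    (hV'.comp_right (V : A.X →L[ℂ] B.X))).of_eq ?_⟩
  ext; simp

instance simSetoid : Setoid Obj := ⟨Sim, Sim.refl, Sim.symm, Sim.trans⟩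

/-- direct sum -/
noncomputable def Obj.sum (A B : Obj) : Obj := ⟨A.X × B.X, A.T.prodMap B.T⟩

lemma Sim.sum {A A' B B' : Obj} (h : Sim A A') (h' : Sim B B') : Sim (A.sum B) (A'.sum B') := by
  obtain ⟨V, hV⟩ := h
  obtain ⟨V', hV'⟩ := h'
  exact ⟨V.prodCongr V', (hV.prodMap hV').of_eq (ContinuousLinearMap.ext fun _ => rfl)⟩

/-- classes of operators -/
def Cls := Quotient simSetoid

noncomputable instance : Add Cls :=
  ⟨Quotient.map₂ Obj.sum (fun _ _ h _ _ h' => Sim.sum h h')⟩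

noncomputable instance : AddCommSemigroup Cls where
  add_assoc := by
    rintro ⟨A⟩ ⟨B⟩ ⟨C⟩
    refine Quotient.sound ⟨ContinuousLinearEquiv.prodAssoc ℂ A.X B.X C.X, Cpt.of_sub_eq ?_⟩
    exact ContinuousLinearMap.ext fun _ => rfl
  add_comm := by
    rintro ⟨A⟩ ⟨B⟩
    refine Quotient.sound ⟨ContinuousLinearEquiv.prodComm ℂ A.X B.X, Cpt.of_sub_eq ?_⟩
    exact ContinuousLinearMap.ext fun _ => rfl

section cls

variable {X Y Z : Type} [NormedAddCommGroup X] [NormedSpace ℂ X] [NormedAddCommGroup Y]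
  [NormedSpace ℂ Y] [NormedAddCommGroup Z] [NormedSpace ℂ Z]

/-- the class of an operator -/
def cls (T : X →L[ℂ] X) : Cls := Quotient.mk simSetoid ⟨X, T⟩

lemma cls_add (T : X →L[ℂ] X) (S : Y →L[ℂ] Y) : cls T + cls S = cls (T.prodMap S) := rfl

lemma cls_eq_iff (T : X →L[ℂ] X) (S : Y →L[ℂ] Y) :
    cls T = cls S ↔ ∃ V : X ≃L[ℂ] Y,
      Cpt ((V : X →L[ℂ] Y).comp T - S.comp (V : X →L[ℂ] Y)) :=
  ⟨fun h => Quotient.exact h, fun h => Quotient.sound h⟩

lemma cls_congr {T S : X →L[ℂ] X} (h : Cpt (T - S)) : cls T = cls S :=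
  (cls_eq_iff T S).2 ⟨ContinuousLinearEquiv.refl ℂ _, h.of_eq (by ext; simp)⟩

lemma cls_eq_of_inverse {T : X →L[ℂ] X} {S : Y →L[ℂ] Y} (V : X →L[ℂ] Y) (V' : Y →L[ℂ] X)
    (h1 : ∀ x, V' (V x) = x) (h2 : ∀ y, V (V' y) = y) (h : Cpt (V.comp T - S.comp V)) :
    cls T = cls S :=
  (cls_eq_iff T S).2 ⟨ContinuousLinearEquiv.equivOfInverse V V' h1 h2, h⟩

/-- An essential equivariant retract becomes a direct summand. -/
lemma mtrick (R : Z →L[ℂ] Z) (D : Y →L[ℂ] Y) (W : Z →L[ℂ] Y) (W' : Y →L[ℂ] Z)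
    (h1 : Cpt (W'.comp W - 1)) (h2 : Cpt (D.comp W - W.comp R))
    (h3 : Cpt (W'.comp D - R.comp W')) :
    cls R + cls (D * (1 - W.comp W') + W.comp W') = cls (1 : Z →L[ℂ] Z) + cls D := by
  rw [cls_add, cls_add]
  symm
  let M : Z × Y →L[ℂ] Z × Y :=
    (((1 - W'.comp W).coprod (W' + (1 - W'.comp W).comp W')).prod
      ((-W).coprod (1 - W.comp W')))
  let M' : Z × Y →L[ℂ] Z × Y :=
    (((1 - W'.comp W).coprod (-(W' + (1 - W'.comp W).comp W'))).prod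
      (W.coprod (1 - W.comp W')))
  refine cls_eq_of_inverse M M' ?_ ?_ ?_
  · rintro ⟨z, y⟩
    simp [M, M']
    constructor <;> abel
  · rintro ⟨z, y⟩
    simp [M, M']
    constructor <;> abel
  · have e1 : Cpt (1 - W'.comp W) := h1.symm
    have hPD : Cpt ((W.comp W').comp D - D.comp (W.comp W')) :=
      ((h3.comp_left W).sub (h2.comp_right W')).of_eq (by ext; simp)
    have c11 : Cpt ((1 - W'.comp W) - R.comp (1 - W'.comp W)) := e1.sub (e1.comp_left R)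
    have c12 : Cpt ((W' + (1 - W'.comp W).comp W').comp D -
        R.comp (W' + (1 - W'.comp W).comp W')) :=
      ((h3.add ((e1.comp_right W').comp_right D)).sub ((e1.comp_right W').comp_left R)).of_eq
        (by ext; simp; abel)
    have c21 : Cpt (-W - (D * (1 - W.comp W') + W.comp W').comp (-W)) :=
      (((e1.comp_left W).comp_left D).sub (e1.comp_left W)).of_eq (by ext; simp; abel)
    have c22 : Cpt ((1 - W.comp W').comp D -
        (D * (1 - W.comp W') + W.comp W').comp (1 - W.comp W')) :=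
      ((hPD.neg.add (((e1.comp_left W).comp_right W').comp_left D)).sub
        ((e1.comp_left W).comp_right W')).of_eq (by ext; simp; abel)
    refine ((c11.coprod c12).prod (c21.coprod c22)).of_eq ?_
    ext <;> simp [M] <;> abel

end cls

end Pool.Agent.P.MP_419fe0_an
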