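import Pool.Agent.P.MP_419fe0_an.Cls

/-!
Evaluation of Laurent polynomials at a pair of operators, bounded calculus (exact and modulo
compacts).
-/

namespace Pool.Agent.P.MP_419fe0_an

/-- `T ^ n` for `n ≥ 0`, `S ^ (-n)` for `n < 0` -/
def pw {A : Type*} [Monoid A] (T S : A) (n : ℤ) : A :=
  if 0 ≤ n then T ^ n.toNat else S ^ (-n).toNat

/-- evaluation of a Laurent polynomial at a pair -/
noncomputable def ev {A : Type*} [Ring A] [Module ℂ A] (f : ℤ →₀ ℂ) (T S : A) : A :=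
  f.sum fun n a => a • pw T S n

/-- scalar value of a Laurent polynomial -/
noncomputable def sv (f : ℤ →₀ ℂ) (v : ℂ) : ℂ := f.sum fun n a => a * v ^ n

/-- bound on the unit circle -/
def Bd (f : ℤ →₀ ℂ) (M : ℝ) : Prop := ∀ v : ℂ, ‖v‖ = 1 → ‖sv f v‖ ≤ M

lemma Bd.nonneg {f : ℤ →₀ ℂ} {M : ℝ} (h : Bd f M) : 0 ≤ M :=
  (norm_nonneg _).trans (h 1 norm_one)

section alg

variable {A : Type*} [Ring A] [Module ℂ A]

@[simp] lemma pw_natCast {A : Type*} [Monoid A] (T S : A) (n : ℕ) : pw T S n = T ^ n := by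
  simp [pw]

lemma pw_neg_natCast {A : Type*} [Monoid A] (T S : A) (n : ℕ) : pw T S (-(n : ℤ)) = S ^ n := by
  unfold pw
  split_ifs with h
  · have : n = 0 := by omega
    subst this; simp
  · simp

lemma pw_swap {A : Type*} [Monoid A] (T S : A) (n : ℤ) : pw S T n = pw T S (-n) := by
  obtain ⟨k, rfl | rfl⟩ := Int.eq_nat_or_neg n
  · rw [pw_natCast, pw_neg_natCast]
  · rw [neg_neg, pw_natCast, pw_neg_natCast]

@[simp] lemma ev_zero (T S : A) : ev 0 T S = 0 := by simp [ev]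

lemma ev_add (f g : ℤ →₀ ℂ) (T S : A) : ev (f + g) T S = ev f T S + ev g T S := by
  unfold ev
  rw [Finsupp.sum_add_index'] <;> simp [add_smul]

@[simp] lemma ev_single (n : ℤ) (a : ℂ) (T S : A) :
    ev (Finsupp.single n a) T S = a • pw T S n := by
  unfold ev
  rw [Finsupp.sum_single_index]; simp

lemma ev_smul (c : ℂ) (f : ℤ →₀ ℂ) (T S : A) : ev (c • f) T S = c • ev f T S := by
  induction f using Finsupp.induction_linear with
  | zero => simp
  | add f g hf hg => rw [smul_add, ev_add, ev_add, hf, hg, smul_add]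
  | single n a => rw [Finsupp.smul_single, ev_single, ev_single, smul_eq_mul, mul_smul]

@[simp] lemma sv_zero (v : ℂ) : sv 0 v = 0 := by simp [sv]

lemma sv_add (f g : ℤ →₀ ℂ) (v : ℂ) : sv (f + g) v = sv f v + sv g v := by
  unfold sv
  rw [Finsupp.sum_add_index'] <;> simp [add_mul]

@[simp] lemma sv_single (n : ℤ) (a : ℂ) (v : ℂ) : sv (Finsupp.single n a) v = a * v ^ n := by
  unfold sv
  rw [Finsupp.sum_single_index]; simp

lemma sv_smul (c : ℂ) (f : ℤ →₀ ℂ) (v : ℂ) : sv (c • f) v = c * sv f v := by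
  induction f using Finsupp.induction_linear with
  | zero => simp
  | add f g hf hg => rw [smul_add, sv_add, sv_add, hf, hg, mul_add]
  | single n a => rw [Finsupp.smul_single, sv_single, sv_single, smul_eq_mul, mul_assoc]

/-- reflection of a Laurent polynomial -/
noncomputable def refl (f : ℤ →₀ ℂ) : ℤ →₀ ℂ := f.mapDomain Neg.neg

lemma ev_refl (f : ℤ →₀ ℂ) (T S : A) : ev (refl f) T S = ev f S T := by
  induction f using Finsupp.induction_linear with
  | zero => simp [refl]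
  | add f g hf hg =>
    unfold refl at *
    rw [Finsupp.mapDomain_add, ev_add, ev_add, hf, hg]
  | single n a => simp [refl, pw_swap T S]

lemma sv_refl (f : ℤ →₀ ℂ) (v : ℂ) : sv (refl f) v = sv f v⁻¹ := by
  induction f using Finsupp.induction_linear with
  | zero => simp [refl]
  | add f g hf hg =>
    unfold refl at *
    rw [Finsupp.mapDomain_add, sv_add, sv_add, hf, hg]
  | single n a => simp [refl]

lemma Bd.refl {f : ℤ →₀ ℂ} {M : ℝ} (h : Bd f M) : Bd (refl f) M := by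
  intro v hv
  rw [sv_refl]
  exact h _ (by simp [hv])

end alg

section op

variable {X Y : Type*} [NormedAddCommGroup X] [NormedSpace ℂ X] [NormedAddCommGroup Y]
  [NormedSpace ℂ Y]

/-- bounded calculus modulo compacts -/
def CB (T S : X →L[ℂ] X) (C : ℝ) : Prop :=
  ∀ f M, Bd f M → ∀ ε > 0, ∃ K, Cpt K ∧ ‖ev f T S + K‖ ≤ C * M + ε

/-- exact bounded calculus -/
def XB (T S : X →L[ℂ] X) (C : ℝ) : Prop :=
  T * S = 1 ∧ S * T = 1 ∧ ∀ f M, Bd f M → ‖ev f T S‖ ≤ C * M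

lemma pow_intertwine {T : X →L[ℂ] X} {T' : Y →L[ℂ] Y} {V : X →L[ℂ] Y}
    (h : V.comp T = T'.comp V) (n : ℕ) : V.comp (T ^ n) = (T' ^ n).comp V := by
  induction n with
  | zero => ext; simp
  | succ n ih =>
    ext x
    have h1 := congrArg (fun B : X →L[ℂ] Y => B ((T ^ n) x)) h
    have h2 := congrArg (fun B : X →L[ℂ] Y => T' (B x)) ih
    simp only [ContinuousLinearMap.comp_apply] at h1 h2
    simp only [pow_succ', ContinuousLinearMap.comp_apply, mul_apply_eq_comp, h1, h2]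

lemma ev_intertwine {T S : X →L[ℂ] X} {T' S' : Y →L[ℂ] Y} {V : X →L[ℂ] Y}
    (hT : V.comp T = T'.comp V) (hS : V.comp S = S'.comp V) (f : ℤ →₀ ℂ) :
    V.comp (ev f T S) = (ev f T' S').comp V := by
  induction f using Finsupp.induction_linear with
  | zero => simp
  | add f g hf hg =>
    rw [ev_add, ev_add, ContinuousLinearMap.comp_add, ContinuousLinearMap.add_comp, hf, hg]
  | single n a =>
    simp only [ev_single, ContinuousLinearMap.comp_smul, ContinuousLinearMap.smul_comp]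
    congr 1
    unfold pw
    split_ifs
    · exact pow_intertwine hT _
    · exact pow_intertwine hS _

lemma ev_scalar (f : ℤ →₀ ℂ) (z : ℂ) :
    ev f (z • (1 : X →L[ℂ] X)) (z⁻¹ • (1 : X →L[ℂ] X)) = sv f z • (1 : X →L[ℂ] X) := by
  induction f using Finsupp.induction_linear with
  | zero => simp
  | add f g hf hg => rw [ev_add, sv_add, hf, hg, add_smul]
  | single n a =>
    obtain ⟨k, rfl | rfl⟩ := Int.eq_nat_or_neg n
    · simp [smul_pow, mul_smul]
    · rw [ev_single, pw_neg_natCast]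
      simp [smul_pow, mul_smul]

lemma ev_one (f : ℤ →₀ ℂ) : ev f (1 : X →L[ℂ] X) 1 = sv f 1 • (1 : X →L[ℂ] X) := by
  simpa using ev_scalar (X := X) f 1

lemma ev_congr {T S T' S' : X →L[ℂ] X} (hT : Cpt (T - T')) (hS : Cpt (S - S')) (f : ℤ →₀ ℂ) :
    Cpt (ev f T S - ev f T' S') := by
  induction f using Finsupp.induction_linear with
  | zero => simpa using Cpt.zero
  | add f g hf hg => exact (hf.add hg).of_eq (by rw [ev_add, ev_add]; abel)
  | single n a =>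
    have : Cpt (pw T S n - pw T' S' n) := by
      unfold pw
      split_ifs
      · exact hT.pow_sub_pow _
      · exact hS.pow_sub_pow _
    exact (this.smul a).of_eq (by simp [smul_sub])

lemma CB.congr {T S T' S' : X →L[ℂ] X} {C : ℝ} (h : CB T S C) (hT : Cpt (T - T'))
    (hS : Cpt (S - S')) : CB T' S' C := by
  intro f M hf ε hε
  obtain ⟨K, hK, hb⟩ := h f M hf ε hε
  refine ⟨K + (ev f T S - ev f T' S'), hK.add (ev_congr hT hS f), ?_⟩
  convert hb using 2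
  abel

lemma CB.swap {T S : X →L[ℂ] X} {C : ℝ} (h : CB T S C) : CB S T C := by
  intro f M hf ε hε
  obtain ⟨K, hK, hb⟩ := h _ M hf.refl ε hε
  exact ⟨K, hK, by rwa [ev_refl] at hb⟩

lemma CB.mono {T S : X →L[ℂ] X} {C C' : ℝ} (h : CB T S C) (hC : C ≤ C') : CB T S C' := by
  intro f M hf ε hε
  obtain ⟨K, hK, hb⟩ := h _ M hf ε hε
  exact ⟨K, hK, hb.trans (by nlinarith [hf.nonneg])⟩

lemma XB.cb {T S : X →L[ℂ] X} {C : ℝ} (h : XB T S C) : CB T S C := by
  intro f M hf ε hε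
  exact ⟨0, Cpt.zero, by rw [add_zero]; linarith [h.2.2 f M hf]⟩

lemma XB.mono {T S : X →L[ℂ] X} {C C' : ℝ} (h : XB T S C) (hC : C ≤ C') : XB T S C' :=
  ⟨h.1, h.2.1, fun f M hf => (h.2.2 f M hf).trans (by nlinarith [hf.nonneg])⟩

lemma XB.one : XB (1 : X →L[ℂ] X) 1 1 := by
  refine ⟨mul_one _, mul_one _, fun f M hf => ?_⟩
  rw [ev_one, norm_smul]
  have h1 : ‖(1 : X →L[ℂ] X)‖ ≤ 1 := ContinuousLinearMap.norm_id_le
  have := hf 1 norm_one
  nlinarith [norm_nonneg (sv f 1), norm_nonneg (1 : X →L[ℂ] X)]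

lemma ev_prodMap (T S : X →L[ℂ] X) (T' S' : Y →L[ℂ] Y) (f : ℤ →₀ ℂ) :
    ev f (T.prodMap T') (S.prodMap S') = (ev f T S).prodMap (ev f T' S') := by
  have h1 := ev_intertwine (V := ContinuousLinearMap.fst ℂ X Y) (T := T.prodMap T')
    (S := S.prodMap S') (T' := T) (S' := S) (by ext <;> simp) (by ext <;> simp) f
  have h2 := ev_intertwine (V := ContinuousLinearMap.snd ℂ X Y) (T := T.prodMap T')
    (S := S.prodMap S') (T' := T') (S' := S') (by ext <;> simp) (by ext <;> simp) f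
  refine ContinuousLinearMap.ext fun x => Prod.ext ?_ ?_
  · simpa using congrArg (fun B : X × Y →L[ℂ] X => B x) h1
  · simpa using congrArg (fun B : X × Y →L[ℂ] Y => B x) h2

lemma norm_prodMap_le {A : X →L[ℂ] X} {B : Y →L[ℂ] Y} {c : ℝ} (hA : ‖A‖ ≤ c) (hB : ‖B‖ ≤ c) :
    ‖A.prodMap B‖ ≤ c := by
  have hc : 0 ≤ c := (norm_nonneg _).trans hA
  refine ContinuousLinearMap.opNorm_le_bound _ hc fun x => ?_
  rw [Prod.norm_def, max_le_iff]
  constructor
  · exact (A.le_of_opNorm_le hA x.1).trans (by gcongr; exact norm_fst_le x)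
  · exact (B.le_of_opNorm_le hB x.2).trans (by gcongr; exact norm_snd_le x)

lemma CB.prodMap {T S : X →L[ℂ] X} {T' S' : Y →L[ℂ] Y} {C : ℝ} (h : CB T S C)
    (h' : CB T' S' C) : CB (T.prodMap T') (S.prodMap S') C := by
  intro f M hf ε hε
  obtain ⟨K, hK, hb⟩ := h _ M hf ε hε
  obtain ⟨K', hK', hb'⟩ := h' _ M hf ε hε
  refine ⟨K.prodMap K', hK.prodMap hK', ?_⟩
  have : ev f (T.prodMap T') (S.prodMap S') + K.prodMap K' =
      (ev f T S + K).prodMap (ev f T' S' + K') := by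
    rw [ev_prodMap]; ext <;> simp
  rw [this]
  exact norm_prodMap_le hb hb'

lemma XB.prodMap {T S : X →L[ℂ] X} {T' S' : Y →L[ℂ] Y} {C : ℝ} (h : XB T S C)
    (h' : XB T' S' C) : XB (T.prodMap T') (S.prodMap S') C := by
  refine ⟨?_, ?_, fun f M hf => ?_⟩
  · refine ContinuousLinearMap.ext fun x => Prod.ext ?_ ?_
    · simpa using congrArg (fun B : X →L[ℂ] X => B x.1) h.1
    · simpa using congrArg (fun B : Y →L[ℂ] Y => B x.2) h'.1
  · refine ContinuousLinearMap.ext fun x => Prod.ext ?_ ?_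
    · simpa using congrArg (fun B : X →L[ℂ] X => B x.1) h.2.1
    · simpa using congrArg (fun B : Y →L[ℂ] Y => B x.2) h'.2.1
  · rw [ev_prodMap]
    exact norm_prodMap_le (h.2.2 f M hf) (h'.2.2 f M hf)

/-- extension of an operator on a retract by the identity -/
noncomputable def extend (j : X →L[ℂ] Y) (q : Y →L[ℂ] X) (T : X →L[ℂ] X) : Y →L[ℂ] Y :=
  j.comp (T.comp q) + (1 - j.comp q)

lemma extend_mul {j : X →L[ℂ] Y} {q : Y →L[ℂ] X} (hq : ∀ x, q (j x) = x) (T S : X →L[ℂ] X) :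
    extend j q T * extend j q S = extend j q (T * S) := by
  ext y; simp [extend, hq]

lemma extend_one (j : X →L[ℂ] Y) (q : Y →L[ℂ] X) : extend j q 1 = 1 := by
  ext y; simp [extend]

lemma extend_congr (j : X →L[ℂ] Y) (q : Y →L[ℂ] X) {T S : X →L[ℂ] X} (h : Cpt (T - S)) :
    Cpt (extend j q T - extend j q S) :=
  ((h.comp_right q).comp_left j).of_eq (by ext; simp [extend])

lemma ev_extend {j : X →L[ℂ] Y} {q : Y →L[ℂ] X} (hq : ∀ x, q (j x) = x) (T S : X →L[ℂ] X)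
    (f : ℤ →₀ ℂ) : ev f (extend j q T) (extend j q S) =
      j.comp ((ev f T S).comp q) + sv f 1 • (1 - j.comp q) := by
  have h1 := ev_intertwine (V := j) (T := T) (S := S) (T' := extend j q T) (S' := extend j q S)
    (by ext; simp [extend, hq]) (by ext; simp [extend, hq]) f
  have h2 := ev_intertwine (V := 1 - j.comp q) (T := 1) (S := 1) (T' := extend j q T)
    (S' := extend j q S) (by ext; simp [extend, hq]) (by ext; simp [extend, hq]) f
  rw [ev_one] at h2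
  ext y
  have e1 := congrArg (fun B : X →L[ℂ] Y => B (q y)) h1
  have e2 := congrArg (fun B : Y →L[ℂ] Y => B y) h2
  simp at e1 e2
  simp [e1, e2]

lemma norm_ev_extend_aux (j : X →L[ℂ] Y) (q : Y →L[ℂ] X) (B : X →L[ℂ] X) {c : ℂ} {b M : ℝ}
    (hB : ‖B‖ ≤ b) (hc : ‖c‖ ≤ M) :
    ‖j.comp (B.comp q) + c • (1 - j.comp q)‖ ≤ ‖j‖ * ‖q‖ * b + (1 + ‖j‖ * ‖q‖) * M := by
  have h1 : ‖j.comp (B.comp q)‖ ≤ ‖j‖ * ‖q‖ * b := by
    calc ‖j.comp (B.comp q)‖ ≤ ‖j‖ * (‖B‖ * ‖q‖) :=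
          (j.opNorm_comp_le _).trans (by gcongr; exact B.opNorm_comp_le q)
      _ ≤ ‖j‖ * (b * ‖q‖) := by gcongr
      _ = _ := by ring
  have h2 : ‖(1 : Y →L[ℂ] Y) - j.comp q‖ ≤ 1 + ‖j‖ * ‖q‖ :=
    (norm_sub_le _ _).trans (add_le_add ContinuousLinearMap.norm_id_le (j.opNorm_comp_le q))
  refine (norm_add_le _ _).trans (add_le_add h1 ?_)
  rw [norm_smul, mul_comm]
  gcongr

lemma CB.extend {j : X →L[ℂ] Y} {q : Y →L[ℂ] X} (hq : ∀ x, q (j x) = x) {T S : X →L[ℂ] X}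
    {C : ℝ} (h : CB T S C) :
    CB (extend j q T) (extend j q S) (‖j‖ * ‖q‖ * C + (1 + ‖j‖ * ‖q‖)) := by
  intro f M hf ε hε
  have hpos : 0 < ‖j‖ * ‖q‖ + 1 := by positivity
  obtain ⟨K, hK, hb⟩ := h f M hf (ε / (‖j‖ * ‖q‖ + 1)) (by positivity)
  refine ⟨j.comp (K.comp q), (hK.comp_right q).comp_left j, ?_⟩
  have : ev f (MP_419fe0_an.extend j q T) (MP_419fe0_an.extend j q S) + j.comp (K.comp q) =
      j.comp ((ev f T S + K).comp q) + sv f 1 • (1 - j.comp q) := by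
    rw [ev_extend hq]; ext; simp; abel
  rw [this]
  refine (norm_ev_extend_aux j q _ hb (hf 1 norm_one)).trans ?_
  have : ‖j‖ * ‖q‖ * (ε / (‖j‖ * ‖q‖ + 1)) ≤ ε := by
    rw [← mul_div_assoc, div_le_iff₀ hpos]; nlinarith
  nlinarith

lemma XB.extend {j : X →L[ℂ] Y} {q : Y →L[ℂ] X} (hq : ∀ x, q (j x) = x) {T S : X →L[ℂ] X}
    {C : ℝ} (h : XB T S C) :
    XB (extend j q T) (extend j q S) (‖j‖ * ‖q‖ * C + (1 + ‖j‖ * ‖q‖)) := by
  refine ⟨by rw [extend_mul hq, h.1, extend_one], by rw [extend_mul hq, h.2.1, extend_one],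
    fun f M hf => ?_⟩
  rw [ev_extend hq]
  refine (norm_ev_extend_aux j q _ (h.2.2 f M hf) (hf 1 norm_one)).trans (le_of_eq (by ring))

/-- Lipschitz constant of evaluation -/
noncomputable def lipc (f : ℤ →₀ ℂ) (L : ℝ) : ℝ :=
  ∑ n ∈ f.support, ‖f n‖ * (n.natAbs * L ^ n.natAbs)

lemma lipc_nonneg (f : ℤ →₀ ℂ) {L : ℝ} (hL : 0 ≤ L) : 0 ≤ lipc f L :=
  Finset.sum_nonneg fun _ _ => by positivity

lemma pow_approx {T : X →L[ℂ] X} {T' : Y →L[ℂ] Y} {V : X →L[ℂ] Y} {L η : ℝ} (hL : 1 ≤ L)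
    (hT : ‖T‖ ≤ L) (hT' : ‖T'‖ ≤ L) (h : ‖V.comp T - T'.comp V‖ ≤ η) (n : ℕ) :
    ‖V.comp (T ^ n) - (T' ^ n).comp V‖ ≤ n * L ^ n * η := by
  have hη : 0 ≤ η := (norm_nonneg _).trans h
  induction n with
  | zero =>
    have : V.comp (T ^ 0) - (T' ^ 0).comp V = 0 := by ext; simp
    rw [this]; simp
  | succ n ih =>
    have e : V.comp (T ^ (n + 1)) - (T' ^ (n + 1)).comp V =
        (V.comp T - T'.comp V).comp (T ^ n) + T'.comp (V.comp (T ^ n) - (T' ^ n).comp V) := by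
      ext; simp [pow_succ']
    have hTn : ‖T ^ n‖ ≤ L ^ n := by
      rcases Nat.eq_zero_or_pos n with rfl | hn
      · rw [pow_zero, pow_zero]; exact ContinuousLinearMap.norm_id_le
      · exact (norm_pow_le' T hn).trans (by gcongr)
    have hLn : 0 ≤ L ^ n := by positivity
    rw [e]
    calc _ ≤ η * L ^ n + L * (n * L ^ n * η) := by
          refine (norm_add_le _ _).trans (add_le_add ?_ ?_)
          · exact (ContinuousLinearMap.opNorm_comp_le _ _).trans (by gcongr)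
          · exact (ContinuousLinearMap.opNorm_comp_le _ _).trans (by gcongr)
      _ ≤ _ := by
          push_cast
          rw [pow_succ]
          have : η * L ^ n ≤ L ^ n * L * η := by nlinarith [mul_nonneg hη hLn]
          nlinarith

lemma ev_approx {T S : X →L[ℂ] X} {T' S' : Y →L[ℂ] Y} {V : X →L[ℂ] Y} {L η : ℝ} (hL : 1 ≤ L)
    (hT : ‖T‖ ≤ L) (hT' : ‖T'‖ ≤ L) (hS : ‖S‖ ≤ L) (hS' : ‖S'‖ ≤ L)
    (h : ‖V.comp T - T'.comp V‖ ≤ η) (h' : ‖V.comp S - S'.comp V‖ ≤ η) (f : ℤ →₀ ℂ) :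
    ‖V.comp (ev f T S) - (ev f T' S').comp V‖ ≤ lipc f L * η := by
  have e : V.comp (ev f T S) - (ev f T' S').comp V =
      ∑ n ∈ f.support, f n • (V.comp (pw T S n) - (pw T' S' n).comp V) := by
    ext x
    simp [ev, Finsupp.sum, smul_sub, Finset.sum_sub_distrib]
  rw [e, lipc, Finset.sum_mul]
  refine (norm_sum_le _ _).trans (Finset.sum_le_sum fun n _ => ?_)
  rw [norm_smul, mul_assoc]
  gcongr
  obtain ⟨k, rfl | rfl⟩ := Int.eq_nat_or_neg n
  · simpa using pow_approx hL hT hT' h k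
  · simpa [pw_neg_natCast] using pow_approx hL hS hS' h' k

/-- `A` represents the function `φ` on the circle modulo compacts -/
def Rep (T S : X →L[ℂ] X) (φ : ℂ → ℂ) (A : X →L[ℂ] X) : Prop :=
  ∃ f, (∀ v : ℂ, ‖v‖ = 1 → sv f v = φ v) ∧ Cpt (A - ev f T S)

variable {T S : X →L[ℂ] X}

lemma Rep.congr {φ ψ : ℂ → ℂ} {A B : X →L[ℂ] X} (h : Rep T S φ A)
    (h1 : ∀ v : ℂ, ‖v‖ = 1 → φ v = ψ v) (h2 : Cpt (B - A)) : Rep T S ψ B := by
  obtain ⟨f, hf, hA⟩ := h
  exact ⟨f, fun v hv => (hf v hv).trans (h1 v hv), h2.trans hA⟩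

lemma Rep.ev (f : ℤ →₀ ℂ) : Rep T S (sv f) (ev f T S) := ⟨f, fun _ _ => rfl, Cpt.refl _⟩

lemma Rep.pw (n : ℤ) : Rep T S (fun v => v ^ n) (pw T S n) :=
  ⟨Finsupp.single n 1, by simp, Cpt.of_sub_eq (by simp)⟩

lemma Rep.one : Rep T S (fun _ => 1) 1 :=
  (Rep.pw 0).congr (by simp) (Cpt.of_sub_eq (by simp [MP_419fe0_an.pw]))

lemma Rep.zero : Rep T S (fun _ => 0) 0 := ⟨0, by simp, Cpt.of_sub_eq (by simp)⟩

lemma Rep.fst : Rep T S (fun v => v) T :=
  (Rep.pw 1).congr (by simp) (Cpt.of_sub_eq (by simp [MP_419fe0_an.pw]))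

lemma Rep.snd : Rep T S (fun v => v⁻¹) S :=
  (Rep.pw (-1)).congr (by simp) (Cpt.of_sub_eq (by simp [MP_419fe0_an.pw]))

lemma Rep.add {φ ψ : ℂ → ℂ} {A B : X →L[ℂ] X} (h : Rep T S φ A) (h' : Rep T S ψ B) :
    Rep T S (fun v => φ v + ψ v) (A + B) := by
  obtain ⟨f, hf, hA⟩ := h
  obtain ⟨g, hg, hB⟩ := h'
  exact ⟨f + g, fun v hv => by rw [sv_add, hf v hv, hg v hv],
    (hA.add hB).of_eq (by rw [ev_add]; abel)⟩

lemma Rep.smul {φ : ℂ → ℂ} {A : X →L[ℂ] X} (h : Rep T S φ A) (c : ℂ) :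
    Rep T S (fun v => c * φ v) (c • A) := by
  obtain ⟨f, hf, hA⟩ := h
  exact ⟨c • f, fun v hv => by rw [sv_smul, hf v hv],
    (hA.smul c).of_eq (by rw [ev_smul, smul_sub])⟩

lemma Rep.sub {φ ψ : ℂ → ℂ} {A B : X →L[ℂ] X} (h : Rep T S φ A) (h' : Rep T S ψ B) :
    Rep T S (fun v => φ v - ψ v) (A - B) :=
  (h.add (h'.smul (-1))).congr (fun v _ => by ring) (Cpt.of_sub_eq (by simp [sub_eq_add_neg]))

lemma Rep.sum {ι : Type*} (s : Finset ι) {φ : ι → ℂ → ℂ} {A : ι → X →L[ℂ] X}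
    (h : ∀ i ∈ s, Rep T S (φ i) (A i)) : Rep T S (fun v => ∑ i ∈ s, φ i v) (∑ i ∈ s, A i) := by
  classical
  induction s using Finset.induction_on with
  | empty => simpa using Rep.zero
  | insert a s ha ih =>
    simp only [Finset.sum_insert ha]
    exact (h a (Finset.mem_insert_self _ _)).add (ih fun i hi => h i (Finset.mem_insert_of_mem hi))

lemma mul_pw_fst (h1 : Cpt (T * S - 1)) (n : ℤ) : Cpt (T * pw T S n - pw T S (n + 1)) := by
  rcases le_or_gt 0 n with hn | hn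
  · obtain ⟨k, rfl⟩ := Int.eq_ofNat_of_zero_le hn
    refine Cpt.of_sub_eq ?_
    rw [show (k : ℤ) + 1 = ((k + 1 : ℕ) : ℤ) by push_cast; ring, pw_natCast, pw_natCast, pow_succ']
  · obtain ⟨k, rfl⟩ : ∃ k : ℕ, n = -((k + 1 : ℕ) : ℤ) := ⟨(-n - 1).toNat, by omega⟩
    rw [show -((k + 1 : ℕ) : ℤ) + 1 = -(k : ℤ) by push_cast; ring, pw_neg_natCast,
      pw_neg_natCast]
    exact (h1.mul_right (S ^ k)).of_eq (by rw [pow_succ']; noncomm_ring)

lemma Rep.mul_fst (h1 : Cpt (T * S - 1)) {φ : ℂ → ℂ} {A : X →L[ℂ] X} (h : Rep T S φ A) :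
    Rep T S (fun v => v * φ v) (T * A) := by
  obtain ⟨f, hf, hA⟩ := h
  have key : ∀ f : ℤ →₀ ℂ, Rep T S (fun v => v * sv f v) (T * MP_419fe0_an.ev f T S) := by
    intro f
    induction f using Finsupp.induction_linear with
    | zero => simpa using Rep.zero
    | add f g hf hg =>
      exact (hf.add hg).congr (fun v _ => by rw [sv_add, mul_add])
        (Cpt.of_sub_eq (by rw [ev_add, mul_add]))
    | single n a =>
      refine ((Rep.pw (n + 1)).smul a).congr (fun v hv => ?_)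
        (((mul_pw_fst h1 n).smul a).of_eq (by simp [smul_sub]))
      have : v ≠ 0 := by rintro rfl; simp at hv
      rw [sv_single, zpow_add_one₀ this]; ring
  exact (key f).congr (fun v hv => by rw [hf v hv]) ((hA.mul_left T).of_eq (by rw [mul_sub]))

lemma Rep.swap {φ : ℂ → ℂ} {A : X →L[ℂ] X} (h : Rep T S φ A) :
    Rep S T (fun v => φ v⁻¹) A := by
  obtain ⟨f, hf, hA⟩ := h
  exact ⟨refl f, fun v hv => by rw [sv_refl, hf _ (by simp [hv])], by rwa [ev_refl]⟩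

lemma Rep.mul_snd (h2 : Cpt (S * T - 1)) {φ : ℂ → ℂ} {A : X →L[ℂ] X} (h : Rep T S φ A) :
    Rep T S (fun v => v⁻¹ * φ v) (S * A) := by
  simpa using (h.swap.mul_fst h2).swap

lemma Rep.mul (h1 : Cpt (T * S - 1)) (h2 : Cpt (S * T - 1)) {φ ψ : ℂ → ℂ} {A B : X →L[ℂ] X}
    (h : Rep T S φ A) (h' : Rep T S ψ B) : Rep T S (fun v => φ v * ψ v) (A * B) := by
  have kT : ∀ k : ℕ, Rep T S (fun v => v ^ k * ψ v) (T ^ k * B) := by
    intro k
    induction k with
    | zero => simpa using h'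
    | succ k ih =>
      exact (ih.mul_fst h1).congr (fun v _ => by ring)
        (Cpt.of_sub_eq (by rw [pow_succ', mul_assoc]))
  have kS : ∀ k : ℕ, Rep T S (fun v => v⁻¹ ^ k * ψ v) (S ^ k * B) := by
    intro k
    induction k with
    | zero => simpa using h'
    | succ k ih =>
      exact (ih.mul_snd h2).congr (fun v _ => by ring)
        (Cpt.of_sub_eq (by rw [pow_succ', mul_assoc]))
  have key : ∀ f : ℤ →₀ ℂ, Rep T S (fun v => sv f v * ψ v) (MP_419fe0_an.ev f T S * B) := by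
    intro f
    induction f using Finsupp.induction_linear with
    | zero => simpa using Rep.zero
    | add f g hf hg =>
      exact (hf.add hg).congr (fun v _ => by rw [sv_add, add_mul])
        (Cpt.of_sub_eq (by rw [ev_add, add_mul]))
    | single n a =>
      obtain ⟨k, rfl | rfl⟩ := Int.eq_nat_or_neg n
      · exact ((kT k).smul a).congr (fun v _ => by simp [mul_assoc]) (Cpt.of_sub_eq (by simp))
      · exact ((kS k).smul a).congr (fun v _ => by simp [mul_assoc])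
          (Cpt.of_sub_eq (by simp [pw_neg_natCast]))
  obtain ⟨f, hf, hA⟩ := h
  exact (key f).congr (fun v hv => by rw [hf v hv]) ((hA.mul_right B).of_eq (by rw [sub_mul]))

lemma Rep.bound {C : ℝ} (hC : CB T S C) {φ : ℂ → ℂ} {A : X →L[ℂ] X} (h : Rep T S φ A) {M : ℝ}
    (hM : ∀ v : ℂ, ‖v‖ = 1 → ‖φ v‖ ≤ M) {ε : ℝ} (hε : 0 < ε) :
    ∃ K, Cpt K ∧ ‖A + K‖ ≤ C * M + ε := by
  obtain ⟨f, hf, hA⟩ := h
  obtain ⟨K, hK, hb⟩ := hC f M (fun v hv => by rw [hf v hv]; exact hM v hv) ε hε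
  refine ⟨K - (A - MP_419fe0_an.ev f T S), hK.sub hA, ?_⟩
  convert hb using 2
  abel

end op

lemma cls_extend {X Y : Type} [NormedAddCommGroup X] [NormedSpace ℂ X] [NormedAddCommGroup Y]
    [NormedSpace ℂ Y] {j : X →L[ℂ] Y} {q : Y →L[ℂ] X} (hq : ∀ x, q (j x) = x)
    (T : X →L[ℂ] X) :
    cls T + cls (1 : Y →L[ℂ] Y) = cls (1 : X →L[ℂ] X) + cls (extend j q T) := by
  have := mtrick T (extend j q T) j q (Cpt.of_sub_eq (by ext; simp [hq]))
    (Cpt.of_sub_eq (by ext; simp [extend, hq])) (Cpt.of_sub_eq (by ext; simp [extend, hq]))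
  rw [← this]
  congr 2
  ext; simp [extend, hq]

end Pool.Agent.P.MP_419fe0_an
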