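import Pool.Agent.P.MP_419fe0_an.Ev

/-!
A quadratic partition of unity on the circle by Fejer kernels.
-/

namespace Pool.Agent.P.MP_419fe0_an

open Finset

lemma sv_sum {ι : Type*} (s : Finset ι) (f : ι → ℤ →₀ ℂ) (v : ℂ) :
    sv (∑ i ∈ s, f i) v = ∑ i ∈ s, sv (f i) v := by
  classical
  induction s using Finset.induction_on with
  | empty => simp
  | insert a s ha ih => rw [sum_insert ha, sum_insert ha, sv_add, ih]

lemma root_sum {M : ℕ} {ζ : ℂ} (hζ : IsPrimitiveRoot ζ M) (v : ℂ) (m : ℤ) (hm : |m| < M) :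
    ∑ j : Fin M, (v / ζ ^ (j : ℕ)) ^ m = if m = 0 then (M : ℂ) else 0 := by
  split_ifs with h
  · subst h; simp
  · have h1 : ∀ j : Fin M, (v / ζ ^ (j : ℕ)) ^ m = v ^ m * (ζ ^ (-m)) ^ (j : ℕ) := by
      intro j
      rw [div_zpow, ← zpow_natCast, ← zpow_natCast, ← zpow_mul, ← zpow_mul, neg_mul, zpow_neg,
        mul_comm m, div_eq_mul_inv]
    simp only [h1, ← mul_sum]
    have h2 : ζ ^ (-m) ≠ 1 := by
      intro h3
      have := (hζ.zpow_eq_one_iff_dvd _).1 h3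
      rw [dvd_neg] at this
      exact h (Int.eq_zero_of_abs_lt_dvd this hm)
    have h3 : (ζ ^ (-m)) ^ M = 1 := by
      rw [← zpow_natCast, ← zpow_mul, mul_comm, zpow_mul, zpow_natCast, hζ.pow_eq_one, one_zpow]
    rw [Fin.sum_univ_eq_sum_range (fun j => (ζ ^ (-m)) ^ j) M, geom_sum_eq h2, h3]
    simp

lemma norm_geom_sq (N : ℕ) {w : ℂ} (hw : ‖w‖ = 1) :
    ((‖∑ a ∈ range N, w ^ a‖ ^ 2 : ℝ) : ℂ) =
      ∑ x ∈ range N ×ˢ range N, w ^ ((x.1 : ℤ) - x.2) := by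
  have h0 : w ≠ 0 := by rintro rfl; simp at hw
  push_cast
  rw [← Complex.mul_conj', map_sum, sum_mul_sum, sum_product]
  refine sum_congr rfl fun a _ => sum_congr rfl fun b _ => ?_
  rw [map_pow, ← Complex.inv_eq_conj hw, zpow_sub₀ h0, div_eq_mul_inv]
  simp

theorem exists_fejer {δ : ℝ} (hδ : 0 < δ) : ∃ (M : ℕ) (z : Fin M → ℂ) (g : Fin M → ℤ →₀ ℂ),
    (∀ j, ‖z j‖ = 1) ∧ ∀ v : ℂ, ‖v‖ = 1 → ∑ j, sv (g j) v * sv (g j) v = 1 ∧
      ∑ j, ‖sv (g j) v‖ ≤ 2 ∧ ∑ j, ‖sv (g j) v‖ * ‖v - z j‖ ≤ δ := by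
  obtain ⟨r, hr⟩ := exists_nat_gt (4 / δ)
  have hr0 : (0 : ℝ) < r := lt_trans (by positivity) hr
  have hr1 : 0 < r := by exact_mod_cast hr0
  set N := r ^ 2 with hN
  have hN0 : 0 < N := by positivity
  set M := 2 * N with hM
  have hM0 : M ≠ 0 := by omega
  have hζ := Complex.isPrimitiveRoot_exp M hM0
  set ζ := Complex.exp (2 * Real.pi * Complex.I / M)
  have hζ1 : ‖ζ‖ = 1 := hζ.norm'_eq_one hM0
  let z : Fin M → ℂ := fun j => ζ ^ (j : ℕ)
  have hz : ∀ j, ‖z j‖ = 1 := fun j => by simp [z, hζ1]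
  let Φ : ℂ → ℝ := fun w => ‖∑ a ∈ range N, w ^ a‖ ^ 2
  have hΦ : ∀ w, 0 ≤ Φ w := fun w => sq_nonneg _
  have hw : ∀ v : ℂ, ‖v‖ = 1 → ∀ j, ‖v / z j‖ = 1 := fun v hv j => by rw [norm_div, hv, hz]; simp
  have S1 : ∀ v : ℂ, ‖v‖ = 1 → ∑ j, Φ (v / z j) = M * N := by
    intro v hv
    have : ((∑ j, Φ (v / z j) : ℝ) : ℂ) = M * N := by
      rw [Complex.ofReal_sum]
      simp only [Φ, norm_geom_sq N (hw v hv _)]
      rw [sum_comm, sum_product]
      have : ∀ a ∈ range N, ∑ b ∈ range N, ∑ j, (v / z j) ^ ((a : ℤ) - b) = (M : ℂ) := by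
        intro a ha
        have : ∀ b ∈ range N, ∑ j, (v / z j) ^ ((a : ℤ) - b) = if a = b then (M : ℂ) else 0 := by
          intro b hb
          rw [root_sum hζ v _ (by rw [mem_range] at ha hb; rw [abs_lt]; omega)]
          simp [sub_eq_zero]
        rw [sum_congr rfl this]
        simp [mem_range.1 ha]
      rw [sum_congr rfl this]
      simp [mul_comm]
    exact_mod_cast this
  have S2 : ∀ v : ℂ, ‖v‖ = 1 → ((∑ j, Φ (v / z j) ^ 2 : ℝ) : ℂ) =
      ∑ x ∈ range N ×ˢ range N, ∑ y ∈ range N ×ˢ range N,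
        if ((x.1 : ℤ) - x.2) + ((y.1 : ℤ) - y.2) = 0 then (M : ℂ) else 0 := by
    intro v hv
    rw [Complex.ofReal_sum]
    simp only [Φ, sq (‖_‖ ^ 2), Complex.ofReal_mul, norm_geom_sq N (hw v hv _), sum_mul_sum]
    rw [sum_comm]
    refine sum_congr rfl fun x hx => ?_
    rw [sum_comm]
    refine sum_congr rfl fun y hy => ?_
    rw [← root_sum hζ v _ (by
      simp only [mem_product, mem_range] at hx hy; rw [abs_lt]; omega)]
    refine sum_congr rfl fun j _ => ?_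
    have h0 : v / z j ≠ 0 := fun h => by simpa [h] using hw v hv j
    rw [zpow_add₀ h0]
  set c : ℝ := ∑ j, Φ (1 / z j) ^ 2 with hc
  have S3 : ∀ v : ℂ, ‖v‖ = 1 → ∑ j, Φ (v / z j) ^ 2 = c := by
    intro v hv
    have := (S2 v hv).trans (S2 1 norm_one).symm
    exact_mod_cast this
  have hc1 : ((N : ℝ) ^ 2) ^ 2 ≤ c := by
    have := single_le_sum (f := fun j => Φ (1 / z j) ^ 2) (fun j _ => sq_nonneg _)
      (mem_univ (⟨0, Nat.pos_of_ne_zero hM0⟩ : Fin M))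
    refine le_trans (le_of_eq ?_) this
    simp [Φ, z]
  have hNr : (N : ℝ) = r ^ 2 := by rw [hN]; push_cast; ring
  have hMr : (M : ℝ) = 2 * r ^ 2 := by rw [hM]; push_cast; rw [hNr]
  have hc0 : 0 < c := lt_of_lt_of_le (by rw [hNr]; positivity) hc1
  set κ : ℝ := (√c)⁻¹ with hκ
  have hκ0 : 0 ≤ κ := by positivity
  have hκ1 : κ ^ 2 * c = 1 := by rw [hκ, inv_pow, Real.sq_sqrt hc0.le, inv_mul_cancel₀ hc0.ne']
  have hκ2 : κ * r ^ 4 ≤ 1 := by
    rw [hκ, inv_mul_le_iff₀ (Real.sqrt_pos.2 hc0), mul_one]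
    refine Real.le_sqrt_of_sq_le (le_trans (le_of_eq ?_) hc1)
    rw [hNr]; ring
  let g : Fin M → ℤ →₀ ℂ := fun j => (κ : ℂ) • ∑ x ∈ range N ×ˢ range N,
    Finsupp.single ((x.1 : ℤ) - x.2) ((z j)⁻¹ ^ ((x.1 : ℤ) - x.2))
  have hg : ∀ v : ℂ, ‖v‖ = 1 → ∀ j, sv (g j) v = ((κ * Φ (v / z j) : ℝ) : ℂ) := by
    intro v hv j
    rw [sv_smul, sv_sum, Complex.ofReal_mul, norm_geom_sq N (hw v hv j)]
    congr 1
    refine sum_congr rfl fun x _ => ?_
    rw [sv_single, ← mul_zpow, mul_comm, div_eq_mul_inv]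
  have hg' : ∀ v : ℂ, ‖v‖ = 1 → ∀ j, ‖sv (g j) v‖ = κ * Φ (v / z j) := by
    intro v hv j
    rw [hg v hv, Complex.norm_real, Real.norm_of_nonneg (mul_nonneg hκ0 (hΦ _))]
  refine ⟨M, z, g, hz, fun v hv => ⟨?_, ?_, ?_⟩⟩
  · simp only [hg v hv]
    have : ∑ j, κ * Φ (v / z j) * (κ * Φ (v / z j)) = 1 := by
      rw [← hκ1, ← S3 v hv, mul_sum]
      exact sum_congr rfl fun j _ => by ring
    exact_mod_cast this
  · simp only [hg' v hv]
    rw [← mul_sum, S1 v hv, hNr, hMr]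
    nlinarith
  · simp only [hg' v hv]
    have key : ∀ j, Φ (v / z j) * ‖v - z j‖ ≤ Φ (v / z j) / r + r := by
      intro j
      have h0 : z j ≠ 0 := fun h => by simpa [h] using hz j
      have e1 : ‖v - z j‖ = ‖v / z j - 1‖ := by
        rw [div_sub_one h0, norm_div, hz, div_one]
      have e2 : ‖∑ a ∈ range N, (v / z j) ^ a‖ * ‖v / z j - 1‖ ≤ 2 := by
        rw [← norm_mul, geom_sum_mul]
        refine (norm_sub_le _ _).trans ?_
        rw [norm_pow, hw v hv j]; norm_num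
      rw [e1]
      simp only [Φ]
      set t := ‖∑ a ∈ range N, (v / z j) ^ a‖
      have ht : 0 ≤ t := norm_nonneg _
      have e3 : 2 * t ≤ t ^ 2 / r + r := by
        rw [div_add' _ _ _ hr0.ne', le_div_iff₀ hr0]
        nlinarith [sq_nonneg (t - r)]
      nlinarith [mul_le_mul_of_nonneg_left e2 ht]
    calc _ = κ * ∑ j, Φ (v / z j) * ‖v - z j‖ := by
          rw [mul_sum]; exact sum_congr rfl fun j _ => by ring
      _ ≤ κ * ∑ j, (Φ (v / z j) / r + r) := by gcongr with j; exact key j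
      _ = κ * r ^ 4 * (4 / r) := by
          rw [sum_add_distrib, ← sum_div, S1 v hv]
          simp only [sum_const, card_univ, Fintype.card_fin, nsmul_eq_mul]
          rw [hNr, hMr]; field_simp; ring
      _ ≤ 1 * (4 / r) := by gcongr
      _ ≤ δ := by
          rw [one_mul, div_le_iff₀ hr0]
          rw [div_lt_iff₀ hδ] at hr
          linarith

end Pool.Agent.P.MP_419fe0_an
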