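import Pool.Agent.P.MP_419fe0_an.Ev

/-!
Von Neumann's bound for unitaries and the expansion of powers of a perturbed long shift.
-/

set_option linter.unusedSectionVars false

namespace Pool.Agent.P.MP_419fe0_an

lemma map_ev {A B : Type*} [Ring A] [Algebra ℂ A] [Ring B] [Algebra ℂ B] (φ : A →ₐ[ℂ] B)
    (f : ℤ →₀ ℂ) (a b : A) : φ (ev f a b) = ev f (φ a) (φ b) := by
  induction f using Finsupp.induction_linear with
  | zero => simp
  | add f g hf hg => rw [ev_add, ev_add, map_add, hf, hg]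
  | single n c =>
    rw [ev_single, ev_single, map_smul]
    unfold pw
    split_ifs <;> rw [map_pow]

lemma ev_complex (f : ℤ →₀ ℂ) (v : ℂ) : ev f v v⁻¹ = sv f v := by
  induction f using Finsupp.induction_linear with
  | zero => simp
  | add f g hf hg => rw [ev_add, sv_add, hf, hg]
  | single n a =>
    obtain ⟨k, rfl | rfl⟩ := Int.eq_nat_or_neg n
    · simp
    · rw [ev_single, pw_neg_natCast]; simp

section cstar

variable {A : Type*} [CStarAlgebra A]

lemma vN {U : A} (hU : U ∈ unitary A) {f : ℤ →₀ ℂ} {M : ℝ} (hf : Bd f M) :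
    ‖ev f U (star U)‖ ≤ M := by
  have hn : IsStarNormal U := isStarNormal_of_mem_unitary hU
  set i : C(spectrum ℂ U, ℂ) := (ContinuousMap.id ℂ).restrict (spectrum ℂ U)
  have h1 : cfcHom hn i = U := cfcHom_id hn
  have h2 : cfcHom hn (star i) = star U := by rw [map_star, h1]
  have h3 : cfcHom hn (ev f i (star i)) = ev f U (star U) := by
    have := map_ev (cfcHom (R := ℂ) hn).toAlgHom f i (star i)
    simpa [h1, h2] using this
  rw [← h3, norm_cfcHom U _ hn, ContinuousMap.norm_le _ hf.nonneg]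
  intro x
  have hx : ‖(x : ℂ)‖ = 1 := spectrum.norm_eq_one_of_unitary hU x.2
  have h4 := map_ev (ContinuousMap.evalAlgHom ℂ ℂ x) f i (star i)
  have h5 : (ev f i (star i)) x = ev f (x : ℂ) (x : ℂ)⁻¹ := by
    rw [Complex.inv_eq_conj hx]
    exact h4
  rw [h5, ev_complex]
  exact hf _ hx

lemma norm_unitary_le {U : A} (hU : U ∈ unitary A) : ‖U‖ ≤ 1 := by
  nontriviality A
  exact (CStarRing.norm_of_mem_unitary hU).le

lemma star_phase {P : A} (hP : IsStarProjection P) {c : ℂ} (hc : ‖c‖ = 1) :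
    star (1 + (c - 1) • P) = 1 + (c⁻¹ - 1) • P := by
  rw [star_add, star_one, star_smul, hP.isSelfAdjoint.star_eq, star_sub, star_one,
    Complex.inv_eq_conj hc]
  rfl

lemma phase_mul {P : A} (hP : IsStarProjection P) (c d : ℂ) :
    (1 + (c - 1) • P) * (1 + (d - 1) • P) = 1 + (c * d - 1) • P := by
  have := hP.isIdempotentElem.eq
  simp only [add_mul, mul_add, one_mul, mul_one, smul_mul_assoc, mul_smul_comm, this]
  module

lemma phase_unitary {P : A} (hP : IsStarProjection P) {c : ℂ} (hc : ‖c‖ = 1) :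
    1 + (c - 1) • P ∈ unitary A := by
  have h0 : c ≠ 0 := by rintro rfl; simp at hc
  rw [Unitary.mem_iff, star_phase hP hc, phase_mul hP, phase_mul hP, inv_mul_cancel₀ h0,
    mul_inv_cancel₀ h0]
  simp

/-- rotation attached to a projection -/
noncomputable def phase (P : A) (u : ℝ) : A :=
  1 + (Complex.exp (Complex.I * (Real.pi * u : ℝ)) - 1) • P

lemma phase_mem {P : A} (hP : IsStarProjection P) (u : ℝ) : phase P u ∈ unitary A :=
  phase_unitary hP (Complex.norm_exp_I_mul_ofReal _)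

lemma phase_zero (P : A) : phase P 0 = 1 := by simp [phase]

lemma phase_lip {P : A} (hP : IsStarProjection P) (u v : ℝ) :
    ‖phase P u - phase P v‖ ≤ 4 * |u - v| := by
  have e : phase P u - phase P v = (Complex.exp (Complex.I * (Real.pi * v : ℝ)) *
      (Complex.exp (Complex.I * (Real.pi * (u - v) : ℝ)) - 1)) • P := by
    rw [phase, phase, add_sub_add_left_eq_sub, ← sub_smul, mul_sub, ← Complex.exp_add]
    congr 1
    push_cast
    ring_nf
  rw [e, norm_smul, norm_mul, Complex.norm_exp_I_mul_ofReal, one_mul]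
  have h1 := Real.norm_exp_I_mul_ofReal_sub_one_le (x := Real.pi * (u - v))
  rw [Real.norm_eq_abs, abs_mul, abs_of_pos Real.pi_pos] at h1
  calc _ ≤ Real.pi * |u - v| * 1 :=
        mul_le_mul h1 hP.norm_le (norm_nonneg _) (by positivity)
    _ ≤ 4 * |u - v| := by rw [mul_one]; gcongr; exact Real.pi_le_four

lemma star_sandwich {e L : A} (he : IsStarProjection e) {j : ℕ} (h : e * star L ^ j * e = 0) :
    e * L ^ j * e = 0 := by
  have := congrArg star h
  rwa [star_mul, star_mul, star_pow, star_star, he.isSelfAdjoint.star_eq, star_zero,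
    ← mul_assoc] at this

end cstar

section near

variable {A B : Type*} [Ring A] [Algebra ℂ A] [Ring B] [Algebra ℂ B]

/-- first order term in the expansion of a power -/
def bb (L X : A) : ℕ → A
  | 0 => 0
  | l + 1 => L * bb L X l + X * L ^ l

lemma bb_ann {L X : A} {N : ℕ} (h : ∀ j < N, X * L ^ j * X = 0) :
    ∀ l j, j + l ≤ N → X * L ^ j * bb L X l = 0 := by
  intro l
  induction l with
  | zero => intro j _; simp [bb]
  | succ l ih =>
    intro j hj
    have h1 := ih (j + 1) (by omega)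
    have h2 := h j (by omega)
    rw [pow_succ] at h1
    calc _ = X * (L ^ j * L) * bb L X l + X * L ^ j * X * L ^ l := by
          simp only [bb]; noncomm_ring
      _ = 0 := by rw [h1, h2]; simp

lemma pow_expand {L X : A} {N : ℕ} (h : ∀ j < N, X * L ^ j * X = 0) (φ : A →ₐ[ℂ] B) {u : B}
    (hu : ∀ a, φ a * u = u * φ a) :
    ∀ l, l ≤ N → (φ L + u * φ X) ^ l = φ (L ^ l) + u * φ (bb L X l) := by
  intro l
  induction l with
  | zero => intro _; simp [bb]
  | succ l ih =>
    intro hl
    have h1 : X * bb L X l = 0 := by simpa using bb_ann h l 0 (by omega)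
    have h2 : φ X * (u * φ (bb L X l)) = 0 := by
      rw [← mul_assoc, hu, mul_assoc, ← map_mul, h1, map_zero, mul_zero]
    have h3 : φ L * (u * φ (bb L X l)) = u * (φ L * φ (bb L X l)) := by
      rw [← mul_assoc, hu, mul_assoc]
    rw [pow_succ', ih (by omega), pow_succ']
    simp only [bb, map_add, map_mul, add_mul, mul_add, mul_assoc, h2, h3, mul_zero, add_zero]
    abel

/-- positive part of the first order term -/
noncomputable def bp (f : ℤ →₀ ℂ) (L X : A) : A :=
  ∑ n ∈ f.support, f n • if 0 ≤ n then bb L X n.toNat else 0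

/-- negative part of the first order term -/
noncomputable def bm (f : ℤ →₀ ℂ) (L X : A) : A :=
  ∑ n ∈ f.support, f n • if 0 ≤ n then 0 else bb L X (-n).toNat

lemma ev_expand {L X L' X' : A} {N : ℕ} (h : ∀ j < N, X * L ^ j * X = 0)
    (h' : ∀ j < N, X' * L' ^ j * X' = 0) (φ : A →ₐ[ℂ] B) {u u' : B}
    (hu : ∀ a, φ a * u = u * φ a) (hu' : ∀ a, φ a * u' = u' * φ a) {f : ℤ →₀ ℂ}
    (hf : ∀ n ∈ f.support, n.natAbs ≤ N) :
    ev f (φ L + u * φ X) (φ L' + u' * φ X') =
      φ (ev f L L') + u * φ (bp f L X) + u' * φ (bm f L' X') := by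
  simp only [ev, Finsupp.sum, bp, bm, map_sum, Finset.mul_sum, ← Finset.sum_add_distrib]
  refine Finset.sum_congr rfl fun n hn => ?_
  have := hf n hn
  unfold pw
  split_ifs with h0
  · rw [pow_expand h φ hu _ (by omega)]; simp
  · rw [pow_expand h' φ hu' _ (by omega)]; simp

end near

lemma norm_bp_bm {A : Type*} [CStarAlgebra A] {e L : A} (he : IsStarProjection e)
    (hL : L ∈ unitary A) {N : ℕ} (h : ∀ j < N, e * L * L ^ j * (e * L) = 0)
    (h' : ∀ j < N, star L * e * star L ^ j * (star L * e) = 0) {f : ℤ →₀ ℂ}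
    (hf : ∀ n ∈ f.support, n.natAbs ≤ N) {M : ℝ} (hM : Bd f M) :
    ‖bp f L (e * L)‖ ≤ 2 * M ∧ ‖bm f (star L) (star L * e)‖ ≤ 2 * M := by
  set P := bp f L (e * L)
  set Q := bm f (star L) (star L * e)
  have key : ∀ z : ℂ, ‖z‖ = 1 → ‖(z - 1) • P + (z⁻¹ - 1) • Q‖ ≤ 2 * M := by
    intro z hz
    have h1 := ev_expand h h' (AlgHom.id ℂ A) (u := (z - 1) • 1) (u' := (z⁻¹ - 1) • 1)
      (by simp) (by simp) hf
    have h2 := vN (mul_mem (phase_unitary he hz) hL) hM
    rw [star_mul, star_phase he hz] at h2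
    have h3 := vN hL hM
    simp only [AlgHom.coe_id, id, smul_mul_assoc, one_mul] at h1
    simp only [add_mul, mul_add, one_mul, mul_one, smul_mul_assoc, mul_smul_comm] at h2
    rw [h1] at h2
    have : (z - 1) • P + (z⁻¹ - 1) • Q =
        ev f L (star L) + (z - 1) • P + (z⁻¹ - 1) • Q - ev f L (star L) := by abel
    rw [this]
    linarith [norm_sub_le (ev f L (star L) + (z - 1) • P + (z⁻¹ - 1) • Q) (ev f L (star L))]
  have k1 := key (-1) (by simp)
  have k2 := key Complex.I (by simp)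
  have k3 := key (-Complex.I) (by simp)
  have hM0 := hM.nonneg
  have e1 : (4 : ℂ) • P = -(((-1 : ℂ) - 1) • P + ((-1 : ℂ)⁻¹ - 1) • Q) -
      Complex.I • ((Complex.I - 1) • P + (Complex.I⁻¹ - 1) • Q) +
      Complex.I • ((-Complex.I - 1) • P + ((-Complex.I)⁻¹ - 1) • Q) := by
    simp only [inv_neg, Complex.inv_I, smul_add, smul_smul, mul_sub, mul_neg, Complex.I_mul_I,
      neg_neg, inv_one]
    module
  have e2 : (4 : ℂ) • Q = -(((-1 : ℂ) - 1) • P + ((-1 : ℂ)⁻¹ - 1) • Q) +
      Complex.I • ((Complex.I - 1) • P + (Complex.I⁻¹ - 1) • Q) -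
      Complex.I • ((-Complex.I - 1) • P + ((-Complex.I)⁻¹ - 1) • Q) := by
    simp only [inv_neg, Complex.inv_I, smul_add, smul_smul, mul_sub, mul_neg, Complex.I_mul_I,
      neg_neg, inv_one]
    module
  have n1 : ‖(4 : ℂ) • P‖ ≤ 6 * M := by
    rw [e1]
    refine (norm_add_le _ _).trans ((add_le_add_left (norm_sub_le _ _) _).trans ?_)
    rw [norm_neg, norm_smul, norm_smul, Complex.norm_I]
    linarith
  have n2 : ‖(4 : ℂ) • Q‖ ≤ 6 * M := by
    rw [e2]
    refine (norm_sub_le _ _).trans ((add_le_add_left (norm_add_le _ _) _).trans ?_)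
    rw [norm_neg, norm_smul, norm_smul, Complex.norm_I]
    linarith
  rw [norm_smul] at n1 n2
  norm_num at n1 n2
  constructor <;> linarith

end Pool.Agent.P.MP_419fe0_an
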