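import Pool.Agent.P.MP_419fe0_an.Sq
import Pool.Agent.P.MP_419fe0_an.Unit

/-!
A Lipschitz path of unitaries from the identity through longer and longer cyclic shifts.
-/

set_option linter.unusedSectionVars false

namespace Pool.Agent.P.MP_419fe0_an

open Finset ContinuousLinearMap

/-- the Hilbert space of dimension `n + 1` -/
abbrev Hn (n : ℕ) := P2 (Fin (n + 1)) ℂ

lemma adj_sng {A : Type} [Fintype A] [DecidableEq A] (a : A) :
    adjoint (sng ℂ a) = prj ℂ a := by
  symm
  rw [eq_adjoint_iff]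
  intro x y
  simp [PiLp.inner_apply, sng_apply]

lemma adj_prj {A : Type} [Fintype A] [DecidableEq A] (a : A) :
    adjoint (prj ℂ a) = sng ℂ a := by
  rw [← adj_sng, adjoint_adjoint]

/-- projection onto the first basis vector -/
noncomputable def e0 (n : ℕ) : Hn n →L[ℂ] Hn n := (sng ℂ 0).comp (prj ℂ 0)

lemma e0_proj (n : ℕ) : IsStarProjection (e0 n) := by
  constructor
  · change e0 n * e0 n = e0 n
    ext x a
    simp [e0, sng_apply]
  · change star (e0 n) = e0 n
    rw [star_eq_adjoint, e0, adjoint_comp, adj_sng, adj_prj]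

/-- inclusion -/
noncomputable def io (n : ℕ) : Hn n →L[ℂ] Hn (n + 1) :=
  ∑ j, (sng ℂ (Fin.castSucc j)).comp (prj ℂ j)

/-- truncation -/
noncomputable def tr (n : ℕ) : Hn (n + 1) →L[ℂ] Hn n :=
  ∑ j, (sng ℂ j).comp (prj ℂ (Fin.castSucc j))

@[simp] lemma tr_apply (n : ℕ) (x : Hn (n + 1)) (j : Fin (n + 1)) :
    tr n x j = x (Fin.castSucc j) := by
  simp [tr, sng_apply]

@[simp] lemma io_castSucc (n : ℕ) (x : Hn n) (j : Fin (n + 1)) :
    io n x (Fin.castSucc j) = x j := by
  simp [io, sng_apply]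

@[simp] lemma io_last (n : ℕ) (x : Hn n) : io n x (Fin.last (n + 1)) = 0 := by
  simp [io, sng_apply, (Fin.castSucc_lt_last _).ne']

lemma tr_io (n : ℕ) (x : Hn n) : tr n (io n x) = x := by
  ext j; simp

lemma adj_io (n : ℕ) : adjoint (io n) = tr n := by
  simp [io, tr, adjoint_comp, adj_sng, adj_prj]

lemma adj_tr (n : ℕ) : adjoint (tr n) = io n := by
  rw [← adj_io, adjoint_adjoint]

lemma norm_io_le (n : ℕ) : ‖io n‖ ≤ 1 := by
  refine opNorm_le_bound _ zero_le_one fun x => le_of_sq_le_sq (le_of_eq ?_) (by positivity)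
  rw [one_mul, PiLp.norm_sq_eq_of_L2, PiLp.norm_sq_eq_of_L2, Fin.sum_univ_castSucc]
  simp

lemma norm_tr_le (n : ℕ) : ‖tr n‖ ≤ 1 := by
  rw [← adj_io, LinearIsometryEquiv.norm_map]
  exact norm_io_le n

lemma io_sng (n : ℕ) (j : Fin (n + 1)) (c : ℂ) :
    io n (sng ℂ j c) = sng ℂ (Fin.castSucc j) c := by
  ext a
  refine Fin.lastCases ?_ (fun i => ?_) a
  · simp [sng_apply, (Fin.castSucc_lt_last _).ne']
  · simp [sng_apply]

lemma star_extend (n : ℕ) (U : Hn n →L[ℂ] Hn n) :
    star (extend (io n) (tr n) U) = extend (io n) (tr n) (star U) := by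
  simp only [extend, star_eq_adjoint, map_add, map_sub, adjoint_comp, adj_io, adj_tr,
    adjoint_one, comp_assoc]

lemma extend_unitary (n : ℕ) {U : Hn n →L[ℂ] Hn n} (hU : U ∈ unitary (Hn n →L[ℂ] Hn n)) :
    extend (io n) (tr n) U ∈ unitary (Hn (n + 1) →L[ℂ] Hn (n + 1)) := by
  rw [Unitary.mem_iff] at hU ⊢
  rw [star_extend, extend_mul (tr_io n), extend_mul (tr_io n), hU.1, hU.2, extend_one]
  exact ⟨rfl, rfl⟩

/-- projection onto the difference of the last two basis vectors -/
noncomputable def dp (n : ℕ) : Hn (n + 1) →L[ℂ] Hn (n + 1) :=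
  (2⁻¹ : ℂ) • (sng ℂ (Fin.castSucc (Fin.last n)) - sng ℂ (Fin.last (n + 1))).comp
    (prj ℂ (Fin.castSucc (Fin.last n)) - prj ℂ (Fin.last (n + 1)))

lemma dp_proj (n : ℕ) : IsStarProjection (dp n) := by
  constructor
  · change dp n * dp n = dp n
    ext x a
    simp [dp, sng_apply, (Fin.castSucc_lt_last _).ne', (Fin.castSucc_lt_last _).ne]
    split_ifs <;> ring
  · change star (dp n) = dp n
    rw [star_eq_adjoint, dp, map_smulₛₗ, adjoint_comp, map_sub, map_sub, adj_sng, adj_sng,
      adj_prj, adj_prj]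
    simp only [map_inv₀, map_ofNat]

/-- clamping to the unit interval -/
noncomputable def cl (u : ℝ) : ℝ := max 0 (min 1 u)

/-- rotation exchanging the last two basis vectors -/
noncomputable def rot (n : ℕ) (u : ℝ) : Hn (n + 1) →L[ℂ] Hn (n + 1) := phase (dp n) u

lemma rot_unitary (n : ℕ) (u : ℝ) : rot n u ∈ unitary (Hn (n + 1) →L[ℂ] Hn (n + 1)) :=
  phase_mem (dp_proj n) u

lemma rot_zero (n : ℕ) : rot n 0 = 1 := phase_zero _

lemma rot_lip (n : ℕ) (u v : ℝ) : ‖rot n u - rot n v‖ ≤ 4 * |u - v| := phase_lip (dp_proj n) u v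

lemma rot_apply (n : ℕ) (u : ℝ) (x : Hn (n + 1)) :
    rot n u x = x + (Complex.exp (Complex.I * (Real.pi * u : ℝ)) - 1) • dp n x := rfl

/-- the path of unitaries -/
noncomputable def Gam : ∀ n : ℕ, ℝ → (Hn n →L[ℂ] Hn n)
  | 0, _ => 1
  | n + 1, t => rot n (cl (t - n)) * extend (io n) (tr n) (Gam n t)

lemma Gam_unitary (n : ℕ) (t : ℝ) : Gam n t ∈ unitary (Hn n →L[ℂ] Hn n) := by
  induction n with
  | zero => exact one_mem _
  | succ n ih => exact mul_mem (rot_unitary _ _) (extend_unitary n ih)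

lemma Gam_succ (n : ℕ) {t : ℝ} (ht : t ≤ n) : Gam (n + 1) t = extend (io n) (tr n) (Gam n t) := by
  have : cl (t - n) = 0 := max_eq_left (min_le_of_right_le (by linarith))
  rw [Gam, this, rot_zero, one_mul]

lemma Gam_zero (n : ℕ) : Gam n 0 = 1 := by
  induction n with
  | zero => rfl
  | succ n ih => rw [Gam_succ n (Nat.cast_nonneg n), ih, extend_one]

lemma Gam_lip_aux (n : ℕ) {s t : ℝ} (h : s ≤ t) :
    ‖Gam n t - Gam n s‖ ≤ 4 * (max 0 (min (n : ℝ) t) - max 0 (min (n : ℝ) s)) := by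
  induction n with
  | zero => simp [Gam]
  | succ n ih =>
    have e : Gam (n + 1) t - Gam (n + 1) s =
        (rot n (cl (t - n)) - rot n (cl (s - n))) * extend (io n) (tr n) (Gam n t) +
        rot n (cl (s - n)) * ((io n).comp ((Gam n t - Gam n s).comp (tr n))) := by
      ext1 x; simp [Gam, extend]; abel
    have h1 := norm_unitary_le (extend_unitary n (Gam_unitary n t))
    have h2 := norm_unitary_le (rot_unitary n (cl (s - n)))
    have h3 : ‖(io n).comp ((Gam n t - Gam n s).comp (tr n))‖ ≤ ‖Gam n t - Gam n s‖ :=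
      (opNorm_comp_le _ _).trans ((mul_le_of_le_one_left (norm_nonneg _) (norm_io_le n)).trans
        ((opNorm_comp_le _ _).trans (mul_le_of_le_one_right (norm_nonneg _) (norm_tr_le n))))
    have h4 := rot_lip n (cl (t - n)) (cl (s - n))
    have h5 : cl (s - n) ≤ cl (t - n) := max_le_max le_rfl (min_le_min le_rfl (by linarith))
    rw [abs_of_nonneg (sub_nonneg.2 h5)] at h4
    have h6 : ∀ u : ℝ, max 0 (min ((n + 1 : ℕ) : ℝ) u) = max 0 (min (n : ℝ) u) + cl (u - n) := by
      intro u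
      have := Nat.cast_nonneg (α := ℝ) n
      push_cast
      simp only [cl, max_def, min_def]
      split_ifs <;> linarith
    rw [e, h6, h6]
    refine (norm_add_le _ _).trans ?_
    have h7 := (norm_mul_le (rot n (cl (t - n)) - rot n (cl (s - n))) _).trans
      (mul_le_of_le_one_right (norm_nonneg _) h1)
    have h8 := (norm_mul_le _ ((io n).comp ((Gam n t - Gam n s).comp (tr n)))).trans
      (mul_le_of_le_one_left (norm_nonneg _) h2)
    linarith

lemma Gam_lip (n : ℕ) (s t : ℝ) : ‖Gam n t - Gam n s‖ ≤ 4 * |t - s| := by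
  wlog h : s ≤ t generalizing s t
  · rw [norm_sub_rev, abs_sub_comm]; exact this t s (by linarith)
  refine (Gam_lip_aux n h).trans ?_
  gcongr
  refine (le_abs_self _).trans ((abs_max_sub_max_le_max _ _ _ _).trans (max_le (by simp) ?_))
  exact (abs_min_sub_min_le_max _ _ _ _).trans (max_le (by simp) le_rfl)

lemma Gam_shift (n : ℕ) (t : ℝ) : ∀ j : Fin n, (j : ℝ) + 1 ≤ t →
    Gam n t (sng ℂ j.succ 1) = sng ℂ j.castSucc 1 := by
  induction n with
  | zero => exact fun j => j.elim0
  | succ n ih =>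
    intro j
    refine Fin.lastCases (fun ht => ?_) (fun i ht => ?_) j
    · have h1 : cl (t - n) = 1 := by
        rw [Fin.val_last] at ht
        rw [cl, min_eq_left (by linarith), max_eq_right zero_le_one]
      have h2 : tr n (sng ℂ (Fin.last (n + 1)) 1) = 0 := by
        ext a; simp [sng_apply, (Fin.castSucc_lt_last _).ne]
      have h3 : Complex.exp (Complex.I * (Real.pi * 1 : ℝ)) = -1 := by
        rw [mul_one, mul_comm, Complex.exp_pi_mul_I]
      rw [Fin.succ_last, Gam, h1, mul_apply_eq_comp, rot_apply, h3]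
      ext a
      simp [extend, h2, dp, sng_apply, (Fin.castSucc_lt_last _).ne]
      split_ifs <;> ring
    · have h1 := ih i ht
      have h3 : extend (io n) (tr n) (Gam n t) (io n (sng ℂ i.succ 1)) =
          sng ℂ i.castSucc.castSucc 1 := by
        simp only [extend, add_apply, comp_apply, sub_apply, one_apply_eq_self, tr_io, h1, sub_self,
          add_zero]
        exact io_sng _ _ _
      rw [Fin.succ_castSucc, ← io_sng, Gam, mul_apply_eq_comp, h3, rot_apply]
      have h2 : i.castSucc.castSucc ≠ (Fin.last n).castSucc := fun h =>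
        (Fin.castSucc_lt_last i).ne (Fin.castSucc_injective _ h)
      simp [dp, sng_apply, (Fin.castSucc_lt_last _).ne', h2.symm]

lemma Gam_long {N n : ℕ} {t : ℝ} (hn : N ≤ n) (ht : (N : ℝ) ≤ t) {j : ℕ} (hj : j < N) :
    e0 n * star (Gam n t) ^ (j + 1) * e0 n = 0 ∧ e0 n * Gam n t ^ (j + 1) * e0 n = 0 := by
  have key : ∀ l (hl : l ≤ N), (star (Gam n t) ^ l) (sng ℂ 0 1) =
      sng ℂ (⟨l, by omega⟩ : Fin (n + 1)) 1 := by
    intro l
    induction l with
    | zero => intro _; rfl
    | succ l ih =>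
      intro hl
      have h1 := Gam_shift n t ⟨l, by omega⟩ (by
        have : ((l + 1 : ℕ) : ℝ) ≤ N := by exact_mod_cast hl
        push_cast at this ⊢
        linarith)
      have h2 := congrArg (fun B : Hn n →L[ℂ] Hn n => B (sng ℂ (Fin.succ ⟨l, by omega⟩) 1))
        (Unitary.mem_iff.1 (Gam_unitary n t)).1
      simp only [mul_apply_eq_comp, h1, one_apply_eq_self] at h2
      rw [pow_succ', mul_apply_eq_comp, ih (by omega)]
      exact h2
  have h1 : e0 n * star (Gam n t) ^ (j + 1) * e0 n = 0 := by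
    ext1 x
    have : e0 n x = x 0 • sng ℂ 0 1 := by rw [← map_smul]; simp [e0]
    rw [mul_apply_eq_comp, mul_apply_eq_comp, this, map_smul, key _ hj, map_smul]
    simp [e0, sng_apply, Fin.ext_iff]
  exact ⟨h1, star_sandwich (e0_proj n) h1⟩

end Pool.Agent.P.MP_419fe0_an
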