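import Pool.Agent.P.MP_419fe0_an.Inverse
import Pool.Agent.P.MP_419fe0_an.Path

/-!
Slowly varying fields of unitaries and the operators asymptotically commuting with them.
-/

set_option linter.unusedSectionVars false

namespace Pool.Agent.P.MP_419fe0_an

open Filter Topology Finset
open scoped ENNReal

variable {p : ℝ≥0∞} [Fact (1 ≤ p)] [Good p]

section nul

variable {E F G : ℕ → Type*} [∀ i, NormedAddCommGroup (E i)] [∀ i, NormedSpace ℂ (E i)]
  [∀ i, NormedAddCommGroup (F i)] [∀ i, NormedSpace ℂ (F i)]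
  [∀ i, NormedAddCommGroup (G i)] [∀ i, NormedSpace ℂ (G i)]

/-- null sequences of operators -/
def Nul (a : ∀ n, E n →L[ℂ] F n) : Prop := Tendsto (fun n => ‖a n‖) atTop (𝓝 0)

lemma Nul.of_le {a : ∀ n, E n →L[ℂ] F n} {c : ℕ → ℝ} (hc : Tendsto c atTop (𝓝 0))
    (h : ∀ n, ‖a n‖ ≤ c n) : Nul a := squeeze_zero (fun _ => norm_nonneg _) h hc

lemma Nul.zero : Nul fun n => (0 : E n →L[ℂ] F n) := by simp [Nul]

lemma Nul.of_eq {a b : ∀ n, E n →L[ℂ] F n} (ha : Nul a) (h : ∀ n, b n = a n) : Nul b := by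
  rwa [funext h]

lemma Nul.add {a b : ∀ n, E n →L[ℂ] F n} (ha : Nul a) (hb : Nul b) : Nul fun n => a n + b n :=
  Nul.of_le (by simpa using Tendsto.add ha hb) fun n => norm_add_le _ _

lemma Nul.smul {a : ∀ n, E n →L[ℂ] F n} (ha : Nul a) (c : ℂ) : Nul fun n => c • a n :=
  Nul.of_le (by simpa using Tendsto.const_mul ‖c‖ ha) fun n => (norm_smul _ _).le

lemma Nul.neg {a : ∀ n, E n →L[ℂ] F n} (ha : Nul a) : Nul fun n => -a n :=
  Nul.of_le ha fun _ => (norm_neg _).le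

lemma Nul.sub {a b : ∀ n, E n →L[ℂ] F n} (ha : Nul a) (hb : Nul b) : Nul fun n => a n - b n :=
  (ha.add hb.neg).of_eq fun _ => sub_eq_add_neg _ _

lemma Nul.comp_left {a : ∀ n, E n →L[ℂ] F n} (ha : Nul a) {b : ∀ n, F n →L[ℂ] G n} (hb : Bdd b) :
    Nul fun n => (b n).comp (a n) := by
  obtain ⟨K, hK⟩ := hb
  exact Nul.of_le (by simpa using Tendsto.const_mul K ha) fun n =>
    (ContinuousLinearMap.opNorm_comp_le _ _).trans (by gcongr; exact hK n)

lemma Nul.comp_right {a : ∀ n, F n →L[ℂ] G n} (ha : Nul a) {b : ∀ n, E n →L[ℂ] F n}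
    (hb : Bdd b) : Nul fun n => (a n).comp (b n) := by
  obtain ⟨K, hK⟩ := hb
  exact Nul.of_le (by simpa using Tendsto.mul_const K ha) fun n =>
    (ContinuousLinearMap.opNorm_comp_le _ _).trans (by gcongr; exact hK n)

lemma Nul.mul_left {a b : ∀ n, E n →L[ℂ] E n} (ha : Nul a) (hb : Bdd b) :
    Nul fun n => b n * a n := ha.comp_left hb

lemma Nul.mul_right {a b : ∀ n, E n →L[ℂ] E n} (ha : Nul a) (hb : Bdd b) :
    Nul fun n => a n * b n := ha.comp_right hb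

lemma Nul.sum {ι : Type*} (s : Finset ι) {a : ι → ∀ n, E n →L[ℂ] F n} (h : ∀ i ∈ s, Nul (a i)) :
    Nul fun n => ∑ i ∈ s, a i n := by
  classical
  induction s using Finset.induction_on with
  | empty => simpa using Nul.zero
  | insert i s hi ih =>
    simp only [sum_insert hi]
    exact (h i (mem_insert_self _ _)).add (ih fun j hj => h j (mem_insert_of_mem hj))

lemma Bdd.mul {a b : ∀ n, E n →L[ℂ] E n} (ha : Bdd a) (hb : Bdd b) : Bdd fun n => a n * b n :=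
  ha.comp hb

lemma Bdd.pow {a : ∀ n, E n →L[ℂ] E n} (ha : Bdd a) (l : ℕ) : Bdd fun n => a n ^ l := by
  induction l with
  | zero => simpa using Bdd.one
  | succ l ih => simpa only [pow_succ] using ih.mul ha

lemma Bdd.smul {a : ∀ n, E n →L[ℂ] F n} (ha : Bdd a) (c : ℂ) : Bdd fun n => c • a n := by
  obtain ⟨K, hK⟩ := ha
  exact ⟨‖c‖ * K, fun n => by rw [norm_smul]; gcongr; exact hK n⟩

lemma Bdd.ev {a b : ∀ n, E n →L[ℂ] E n} (ha : Bdd a) (hb : Bdd b) (f : ℤ →₀ ℂ) :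
    Bdd fun n => ev f (a n) (b n) := by
  induction f using Finsupp.induction_linear with
  | zero => exact ⟨0, by simp⟩
  | add f g hf hg => simpa only [ev_add] using hf.add hg
  | single k c =>
    simp only [ev_single]
    refine Bdd.smul ?_ c
    unfold pw
    split_ifs
    · exact ha.pow _
    · exact hb.pow _

end nul

/-- the profile of the deformation -/
structure Prof (pos : ℕ → ℕ) (τ : ℕ → ℕ → ℝ) (ρ l : ℕ → ℝ) : Prop where
  p1 : ∀ k, pos k ≤ k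
  p2 : ∀ i, {k | pos k < i}.Finite
  r : Tendsto ρ atTop atTop
  l0 : Tendsto l atTop (𝓝 0)
  t1 : ∀ n i, i ≤ n → τ n i = ρ n
  t2 : ∀ n i, 4 * n ≤ i → τ n i = 0
  t3 : ∀ n i, |τ n (i + 1) - τ n i| ≤ l n
  t4 : ∀ n i, |τ (n + 1) i - τ n i| ≤ l n
  t5 : ∀ n i, τ n i ≤ n

lemma exists_prof {pos : ℕ → ℕ} (p1 : ∀ k, pos k ≤ k) (p2 : ∀ i, {k | pos k < i}.Finite) :
    ∃ τ ρ l, Prof pos τ ρ l := by
  have s1 : ∀ n m : ℕ, n ≤ m → |√((m + 1 : ℕ) : ℝ) - √(m : ℝ)| ≤ 1 / √((n + 1 : ℕ) : ℝ) := by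
    intro n m h
    have h0 : 0 < √((n + 1 : ℕ) : ℝ) := Real.sqrt_pos.2 (by positivity)
    have h1 : √((n + 1 : ℕ) : ℝ) ≤ √((m + 1 : ℕ) : ℝ) := Real.sqrt_le_sqrt (by gcongr)
    have h2 : √(m : ℝ) ≤ √((m + 1 : ℕ) : ℝ) := Real.sqrt_le_sqrt (by gcongr; omega)
    have h3 := Real.mul_self_sqrt (Nat.cast_nonneg (α := ℝ) (m + 1))
    have h4 := Real.mul_self_sqrt (Nat.cast_nonneg (α := ℝ) m)
    have h5 := Real.sqrt_nonneg (m : ℝ)
    rw [abs_of_nonneg (sub_nonneg.2 h2), le_div_iff₀ h0]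
    have h6 : ((m + 1 : ℕ) : ℝ) = m + 1 := by push_cast; ring
    nlinarith
  have s0 : ∀ n : ℕ, 0 ≤ 1 / √((n + 1 : ℕ) : ℝ) := fun n => by positivity
  have hr : Tendsto (fun n : ℕ => √(n : ℝ)) atTop atTop :=
    Real.tendsto_sqrt_atTop.comp tendsto_natCast_atTop_atTop
  refine ⟨fun n i => max 0 (2 * √(n : ℝ) - √((max i n : ℕ) : ℝ)), fun n => √(n : ℝ),
    fun n => 3 * (1 / √((n + 1 : ℕ) : ℝ)), p1, p2, hr, ?_, fun n i h => ?_, fun n i h => ?_,
    fun n i => ?_, fun n i => ?_, fun n i => ?_⟩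
  · simpa using ((hr.comp (tendsto_add_atTop_nat 1)).inv_tendsto_atTop).const_mul 3
  · rw [max_eq_right h, max_eq_right] <;> linarith [Real.sqrt_nonneg (n : ℝ)]
  · refine max_eq_left ?_
    rw [sub_nonpos]
    refine Real.le_sqrt_of_sq_le ?_
    rw [mul_pow, Real.sq_sqrt (Nat.cast_nonneg n)]
    have : ((4 * n : ℕ) : ℝ) ≤ (max i n : ℕ) := by exact_mod_cast h.trans (le_max_left _ _)
    push_cast at this ⊢
    linarith
  · have := s0 n
    refine (abs_max_sub_max_le_max _ _ _ _).trans (max_le (by simp) ?_)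
    rw [sub_sub_sub_cancel_left, abs_sub_comm]
    rcases le_or_gt n i with h | h
    · rw [max_eq_left h, max_eq_left (h.trans (Nat.le_succ i))]
      linarith [s1 n i h]
    · rw [max_eq_right h.le, max_eq_right h]; simp
  · have := s0 n
    refine (abs_max_sub_max_le_max _ _ _ _).trans (max_le (by simp) ?_)
    have a1 := abs_le.1 (s1 n n le_rfl)
    rw [abs_le]
    rcases le_or_gt i n with h | h
    · rw [max_eq_right h, max_eq_right (h.trans (Nat.le_succ n))]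
      constructor <;> linarith [a1.1, a1.2]
    · rw [max_eq_left h.le, max_eq_left h]
      constructor <;> linarith [a1.1, a1.2]
  · refine max_le (Nat.cast_nonneg n) ?_
    have h1 : √(n : ℝ) ≤ √((max i n : ℕ) : ℝ) := Real.sqrt_le_sqrt (by gcongr; omega)
    have h2 : √(n : ℝ) ≤ n := by
      rw [Real.sqrt_le_left (Nat.cast_nonneg n)]
      exact_mod_cast Nat.le_self_pow two_ne_zero n
    linarith

/-- the spaces `l^p(l^2_{n+1})` -/
noncomputable abbrev Yn (p : ℝ≥0∞) (n : ℕ) := Lc p (Hn n)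

/-- amplification on `Yn` -/
noncomputable abbrev am (p : ℝ≥0∞) [Fact (1 ≤ p)] (n : ℕ) :
    (X0 p →L[ℂ] X0 p) →ₐ[ℂ] (Yn p n →L[ℂ] Yn p n) := amp p (Fin (n + 1))

/-- the field of unitaries -/
noncomputable def Sg (p : ℝ≥0∞) [Fact (1 ≤ p)] (pos : ℕ → ℕ) (τ : ℕ → ℕ → ℝ) (n : ℕ) :
    Yn p n →L[ℂ] Yn p n := diag p fun k => Gam n (τ n (pos k))

/-- the field of inverse unitaries -/
noncomputable def Sg' (p : ℝ≥0∞) [Fact (1 ≤ p)] (pos : ℕ → ℕ) (τ : ℕ → ℕ → ℝ) (n : ℕ) :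
    Yn p n →L[ℂ] Yn p n := diag p fun k => star (Gam n (τ n (pos k)))

lemma norm_Gam (n : ℕ) (t : ℝ) : ‖Gam n t‖ ≤ 1 := norm_unitary_le (Gam_unitary n t)

lemma norm_Gam' (n : ℕ) (t : ℝ) : ‖star (Gam n t)‖ ≤ 1 :=
  norm_unitary_le (Unitary.star_mem (Gam_unitary n t))

variable {pos : ℕ → ℕ} {τ : ℕ → ℕ → ℝ} {ρ l : ℕ → ℝ}

lemma Sg_apply (n : ℕ) (y : Yn p n) (k : ℕ) : Sg p pos τ n y k = Gam n (τ n (pos k)) (y k) :=
  diag_apply ⟨1, fun _ => norm_Gam _ _⟩ y k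

lemma Sg'_apply (n : ℕ) (y : Yn p n) (k : ℕ) :
    Sg' p pos τ n y k = star (Gam n (τ n (pos k))) (y k) :=
  diag_apply ⟨1, fun _ => norm_Gam' _ _⟩ y k

lemma norm_Sg (n : ℕ) : ‖Sg p pos τ n‖ ≤ 1 := norm_diag_le fun _ => norm_Gam _ _

lemma norm_Sg' (n : ℕ) : ‖Sg' p pos τ n‖ ≤ 1 := norm_diag_le fun _ => norm_Gam' _ _

lemma Sg_mul_Sg' (n : ℕ) : Sg p pos τ n * Sg' p pos τ n = 1 := by
  ext1 y
  ext1
  ext1 k
  rw [mul_apply_eq_comp, Sg_apply, Sg'_apply]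
  exact congrArg (fun B : Hn n →L[ℂ] Hn n => B (y k)) (Unitary.mem_iff.1 (Gam_unitary n _)).2

lemma Sg'_mul_Sg (n : ℕ) : Sg' p pos τ n * Sg p pos τ n = 1 := by
  ext1 y
  ext1
  ext1 k
  rw [mul_apply_eq_comp, Sg'_apply, Sg_apply]
  exact congrArg (fun B : Hn n →L[ℂ] Hn n => B (y k))
    (Unitary.mem_iff.1 (Gam_unitary n (τ n (pos k)))).1

lemma bdd_Sg : Bdd fun n => Sg p pos τ n := ⟨1, norm_Sg⟩

lemma bdd_Sg' : Bdd fun n => Sg' p pos τ n := ⟨1, norm_Sg'⟩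

lemma bdd_am (T : X0 p →L[ℂ] X0 p) : Bdd fun n => am p n T := by
  obtain ⟨D, hD⟩ := exists_KS (one_lt_pr (p := p))
  exact ⟨_, fun n => hD.norm_amp T⟩

lemma nul_am {B : ℕ → X0 p →L[ℂ] X0 p} (h : Tendsto (fun n => ‖B n‖) atTop (𝓝 0)) :
    Nul fun n => am p n (B n) := by
  obtain ⟨D, hD⟩ := exists_KS (one_lt_pr (p := p))
  exact Nul.of_le (by simpa using h.const_mul (D ^ 2)) fun n => hD.norm_amp _

lemma tendsto_tail {K : X0 p →L[ℂ] X0 p} (hK : Cpt K) :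
    Tendsto (fun n => ‖Qn p n * K‖) atTop (𝓝 0) ∧ Tendsto (fun n => ‖K * Qn p n‖) atTop (𝓝 0) := by
  constructor <;> refine tendsto_order.2 ⟨fun a ha => Eventually.of_forall fun n =>
    ha.trans_le (norm_nonneg _), fun a ha => ?_⟩ <;>
    filter_upwards [tail_eventually hK (half_pos ha)] with n hn <;> linarith [hn.1, hn.2]

lemma Prof.delta (h : Prof pos τ ρ l) (n : ℕ) :
    Sg p pos τ n - cf p (Gam n (ρ n)) = am p n (Qn p n) * (Sg p pos τ n - cf p (Gam n (ρ n))) ∧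
    Sg p pos τ n - cf p (Gam n (ρ n)) = (Sg p pos τ n - cf p (Gam n (ρ n))) * am p n (Qn p n) ∧
    Sg' p pos τ n - cf p (star (Gam n (ρ n))) =
      am p n (Qn p n) * (Sg' p pos τ n - cf p (star (Gam n (ρ n)))) := by
  have key : ∀ k, k ∉ Set.Ici n → τ n (pos k) = ρ n := fun k hk =>
    h.t1 _ _ ((h.p1 k).trans (not_le.1 hk).le)
  rw [amp_ind]
  refine ⟨?_, ?_, ?_⟩
  all_goals
    ext1 y
    ext1
    ext1 k
    by_cases hk : k ∈ Set.Ici n
    · simp [ind_apply_mem _ hk, Sg_apply, Sg'_apply]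
    · simp [ind_apply_notMem _ hk, Sg_apply, Sg'_apply, key k hk]

lemma bdd_delta : Bdd fun n => Sg p pos τ n - cf p (Gam n (ρ n)) :=
  Bdd.sub ⟨1, norm_Sg⟩ ⟨1, fun _ => (norm_cf_le _).trans (norm_Gam _ _)⟩

lemma bdd_delta' : Bdd fun n => Sg' p pos τ n - cf p (star (Gam n (ρ n))) :=
  Bdd.sub ⟨1, norm_Sg'⟩ ⟨1, fun _ => (norm_cf_le _).trans (norm_Gam' _ _)⟩

/-- asymptotic commutation with the field -/
def AC (pos : ℕ → ℕ) (τ : ℕ → ℕ → ℝ) (B : X0 p →L[ℂ] X0 p) : Prop :=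
  Nul fun n => am p n B * Sg p pos τ n - Sg p pos τ n * am p n B

lemma AC.add {A B : X0 p →L[ℂ] X0 p} (hA : AC pos τ A) (hB : AC pos τ B) : AC pos τ (A + B) :=
  (Nul.add hA hB).of_eq fun n => by rw [map_add]; noncomm_ring

lemma AC.smul {A : X0 p →L[ℂ] X0 p} (hA : AC pos τ A) (c : ℂ) : AC pos τ (c • A) :=
  (Nul.smul hA c).of_eq fun n => by rw [map_smul, smul_mul_assoc, mul_smul_comm, smul_sub]

lemma AC.mul {A B : X0 p →L[ℂ] X0 p} (hA : AC pos τ A) (hB : AC pos τ B) : AC pos τ (A * B) :=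
  ((Nul.mul_left hB (bdd_am A)).add (Nul.mul_right hA (bdd_am B))).of_eq fun n => by
    rw [map_mul]; noncomm_ring

lemma AC.ind (U : Set ℕ) : AC pos τ (ind p _ U) :=
  Nul.zero.of_eq fun n => by
    rw [amp_ind, sub_eq_zero]
    exact ind_comp_diag ⟨1, fun _ => norm_Gam _ _⟩ U

lemma AC.one : AC pos τ (1 : X0 p →L[ℂ] X0 p) := Nul.zero.of_eq fun n => by simp

lemma AC.pow {A : X0 p →L[ℂ] X0 p} (hA : AC pos τ A) (k : ℕ) : AC pos τ (A ^ k) := by
  induction k with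
  | zero => simpa using AC.one
  | succ k ih => rw [pow_succ]; exact ih.mul hA

lemma AC.ev {T S : X0 p →L[ℂ] X0 p} (hT : AC pos τ T) (hS : AC pos τ S) (f : ℤ →₀ ℂ) :
    AC pos τ (ev f T S) := by
  induction f using Finsupp.induction_linear with
  | zero => simpa using AC.one.smul 0
  | add f g hf hg => rw [ev_add]; exact hf.add hg
  | single k c =>
    rw [ev_single]
    refine AC.smul ?_ c
    unfold pw
    split_ifs
    · exact hT.pow _
    · exact hS.pow _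

lemma AC.inv {T S : X0 p →L[ℂ] X0 p} (hT : AC pos τ T) (h1 : T * S = 1) (h2 : S * T = 1) :
    AC pos τ S :=
  ((Nul.mul_left hT (bdd_am S)).mul_right (bdd_am S)).neg.of_eq fun n => by
    have e1 : am p n T * am p n S = 1 := by rw [← map_mul, h1, map_one]
    have e2 : am p n S * am p n T = 1 := by rw [← map_mul, h2, map_one]
    simp only [mul_sub, sub_mul, ← mul_assoc, e2, one_mul]
    simp only [mul_assoc, e1, mul_one, neg_sub]

lemma AC.star {B : X0 p →L[ℂ] X0 p} (hB : AC pos τ B) :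
    Nul fun n => am p n B * Sg' p pos τ n - Sg' p pos τ n * am p n B :=
  ((Nul.mul_left hB (bdd_Sg' (pos := pos) (τ := τ))).mul_right
    (bdd_Sg' (pos := pos) (τ := τ))).neg.of_eq fun n => by
    simp only [mul_sub, sub_mul, ← mul_assoc, Sg'_mul_Sg, one_mul]
    simp only [mul_assoc, Sg_mul_Sg', mul_one, neg_sub]

lemma Prof.ac_cpt (h : Prof pos τ ρ l) {K : X0 p →L[ℂ] X0 p} (hK : Cpt K) : AC pos τ K :=
  (((nul_am (tendsto_tail hK).2).mul_right (bdd_delta (ρ := ρ))).sub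
    ((nul_am (tendsto_tail hK).1).mul_left (bdd_delta (ρ := ρ)))).of_eq fun n => by
    rw [map_mul, map_mul, mul_assoc, ← (h.delta n).1, ← mul_assoc, ← (h.delta n).2.1, mul_sub,
      sub_mul, cf_mul_amp]
    abel

lemma Prof.ac_tri (h : Prof pos τ ρ l) {T : X0 p →L[ℂ] X0 p} (hT : Tri pos T) : AC pos τ T := by
  obtain ⟨K, hK⟩ := bdd_am T
  refine Nul.of_le (c := fun n => 3 * (K * (4 * l n)))
    (by simpa using ((h.l0.const_mul 4).const_mul K).const_mul 3) fun n => ?_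
  have h1 := (hT.amp (Fin (n + 1))).comm_le (B := fun i => Gam n (τ n i)) (c := 4 * l n)
    ⟨1, fun _ => norm_Gam _ _⟩ (fun i => (Gam_lip n _ _).trans (by gcongr; exact h.t3 n i))
    fun i => cf_mul_amp _ _
  have h2 : 0 ≤ l n := (abs_nonneg _).trans (h.t3 n 0)
  exact h1.trans (by gcongr; exact hK n)

end Pool.Agent.P.MP_419fe0_an
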