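import Pool.Agent.P.MP_419fe0_an.Swindle

/-!
Fredholm operators of equal index, and the main theorem.
-/

set_option linter.unusedSectionVars false

namespace Pool.Agent.P.MP_419fe0_an

open ContinuousLinearMap
open scoped ENNReal

section

variable {E A B : Type} [NormedAddCommGroup E] [NormedSpace ℂ E] [CompleteSpace E]
  [NormedAddCommGroup A] [NormedSpace ℂ A] [FiniteDimensional ℂ A]
  [NormedAddCommGroup B] [NormedSpace ℂ B] [FiniteDimensional ℂ B]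

lemma exists_pad (T : E →L[ℂ] E) [FiniteDimensional ℂ (LinearMap.ker (T : E →ₗ[ℂ] E))]
    [FiniteDimensional ℂ (E ⧸ LinearMap.range (T : E →ₗ[ℂ] E))]
    (h : Module.finrank ℂ (LinearMap.ker (T : E →ₗ[ℂ] E)) + Module.finrank ℂ A =
      Module.finrank ℂ (E ⧸ LinearMap.range (T : E →ₗ[ℂ] E)) + Module.finrank ℂ B) :
    ∃ G : (E × A) ≃L[ℂ] (E × B),
      Cpt ((G : E × A →L[ℂ] E × B) - (inl ℂ E B).comp (T.comp (fst ℂ E A))) := by
  have : CompleteSpace A := FiniteDimensional.complete ℂ A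
  have : CompleteSpace B := FiniteDimensional.complete ℂ B
  set N := LinearMap.ker (T : E →ₗ[ℂ] E)
  obtain ⟨P, hP⟩ := Submodule.ClosedComplemented.of_finiteDimensional N
  obtain ⟨C, hC⟩ := (LinearMap.range (T : E →ₗ[ℂ] E)).exists_isCompl
  have e := Submodule.quotientEquivOfIsCompl _ _ hC
  have : FiniteDimensional ℂ C := e.finiteDimensional
  obtain ⟨θ⟩ : Nonempty ((N × A) ≃L[ℂ] (C × B)) :=
    FiniteDimensional.nonempty_continuousLinearEquiv_of_finrank_eq (by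
      rw [Module.finrank_prod, Module.finrank_prod, ← e.finrank_eq, h])
  let K : E × A →L[ℂ] E × B := (C.subtypeL.prodMap (ContinuousLinearMap.id ℂ B)).comp
    ((θ : N × A →L[ℂ] C × B).comp (P.prodMap (ContinuousLinearMap.id ℂ A)))
  have hK : Cpt K := (Cpt.of_fd_dom _).comp_right _
  let G : E × A →L[ℂ] E × B := (inl ℂ E B).comp (T.comp (fst ℂ E A)) + K
  have hG : ∀ x a, G (x, a) = (T x + (θ (P x, a)).1, (θ (P x, a)).2) := fun x a => by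
    simp [G, K, Prod.map]
  refine ⟨ContinuousLinearEquiv.ofBijective G ?_ ?_, hK.of_eq (add_sub_cancel_left _ _)⟩
  · rw [LinearMap.ker_eq_bot']
    rintro ⟨x, a⟩ hx
    have hx' : G (x, a) = 0 := hx
    rw [hG, Prod.mk_eq_zero] at hx'
    have h1 : T x = 0 := by
      refine (Submodule.disjoint_def.1 hC.disjoint) _ ⟨x, rfl⟩ ?_
      rw [eq_neg_of_add_eq_zero_left hx'.1]
      exact C.neg_mem (θ (P x, a)).1.2
    have h2 : θ (P x, a) = 0 := by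
      refine Prod.ext (Subtype.ext ?_) hx'.2
      simpa [h1] using hx'.1
    have h3 : (P x, a) = 0 := by simpa using h2
    rw [Prod.mk_eq_zero] at h3 ⊢
    have h4 := hP ⟨x, h1⟩
    exact ⟨by simpa using congrArg Subtype.val (h4.symm.trans h3.1), h3.2⟩
  · rw [LinearMap.range_eq_top]
    rintro ⟨y, b⟩
    obtain ⟨_, c, ⟨x, rfl⟩, hc, rfl⟩ := Submodule.codisjoint_iff_exists_add_eq.1 hC.codisjoint y
    obtain ⟨⟨n, a⟩, hn⟩ := θ.surjective (⟨c, hc⟩, b)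
    refine ⟨(x - P x + n, a), ?_⟩
    change G _ = _
    have h1 : T (P x) = 0 := (P x).2
    have h2 : T n = 0 := n.2
    rw [hG]
    simp [hP, hn, h1, h2]

end

variable {p : ℝ≥0∞} [Fact (1 ≤ p)] [Good p]

lemma stab_pair {E A B : Type} [NormedAddCommGroup E] [NormedSpace ℂ E]
    [NormedAddCommGroup A] [NormedSpace ℂ A] [FiniteDimensional ℂ A]
    [NormedAddCommGroup B] [NormedSpace ℂ B] [FiniteDimensional ℂ B]
    (hE : IsRet p E) (hA : IsRet p A) (hB : IsRet p B) {T S T' S' : E →L[ℂ] E} {C : ℝ}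
    (hC : 1 ≤ C) (h1 : Cpt (T * S - 1)) (h2 : Cpt (S * T - 1)) (h2' : Cpt (S' * T' - 1))
    (c : CB T S C) (c' : CB T' S' C) (G G' : (E × A) ≃L[ℂ] (E × B))
    (hG : Cpt ((G : E × A →L[ℂ] E × B) - (inl ℂ E B).comp (T.comp (fst ℂ E A))))
    (hG' : Cpt ((G' : E × A →L[ℂ] E × B) - (inl ℂ E B).comp (T'.comp (fst ℂ E A)))) :
    ∃ t t' : Cls, Triv p t ∧ Triv p t' ∧
      cls S + cls (1 : B →L[ℂ] B) + (cls T' + cls (1 : A →L[ℂ] A)) + t = t' := by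
  have cA : Cpt ((inr ℂ E A).comp (snd ℂ E A)) := (Cpt.of_fd_dom _).comp_right _
  have hH : Cpt ((G.symm : E × B →L[ℂ] E × A) - (inl ℂ E A).comp (S.comp (fst ℂ E B))) := by
    refine (((cA.sub ((h2.comp_right (fst ℂ E A)).comp_left (inl ℂ E A))).sub
      (hG.comp_left ((inl ℂ E A).comp (S.comp (fst ℂ E B))))).comp_right
      (G.symm : E × B →L[ℂ] E × A)).of_eq (ContinuousLinearMap.ext fun x => ?_)
    refine Prod.ext ?_ ?_ <;> simp
  let σ : ((E × A) × (E × B)) ≃L[ℂ] ((E × B) × (E × A)) :=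
    (ContinuousLinearEquiv.prodProdProdComm ℂ E A E B).trans
      (((ContinuousLinearEquiv.refl ℂ (E × E)).prodCongr
        (ContinuousLinearEquiv.prodComm ℂ A B)).trans
        (ContinuousLinearEquiv.prodProdProdComm ℂ E E B A))
  let U : ((E × B) × (E × A)) ≃L[ℂ] ((E × B) × (E × A)) := (G.symm.prodCongr G').trans σ
  have one : ∀ {F : Type} [NormedAddCommGroup F] [NormedSpace ℂ F], CB (1 : F →L[ℂ] F) 1 C :=
    XB.one.cb.mono hC
  rw [cls_add, cls_add, cls_add]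
  refine stab_ret ((hE.prod hB).prod (hE.prod hA))
    (O' := (T.prodMap (1 : B →L[ℂ] B)).prodMap (S'.prodMap (1 : A →L[ℂ] A)))
    (U := U) (U' := U.symm) (zero_le_one.trans hC) (ContinuousLinearMap.ext fun x => by simp)
    (ContinuousLinearMap.ext fun x => by simp) ?_ ?_
    ((c.swap.prodMap one).prodMap (c'.prodMap one))
  · have cB : Cpt ((inr ℂ E B).comp (snd ℂ E B)) := (Cpt.of_fd_dom _).comp_right _
    refine ((cB.prodMap cA).sub ((hH.prodMap hG').comp_left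
      (σ : (E × A) × (E × B) →L[ℂ] (E × B) × (E × A)))).of_eq (ContinuousLinearMap.ext ?_)
    rintro ⟨⟨x, b⟩, ⟨y, a⟩⟩
    refine Prod.ext (Prod.ext ?_ ?_) (Prod.ext ?_ ?_) <;> simp [U, σ]
  · refine ((h1.prodMap (Cpt.zero (X := B) (Y := B))).prodMap
      (h2'.prodMap (Cpt.zero (X := A) (Y := A)))).of_eq (ContinuousLinearMap.ext ?_)
    rintro ⟨⟨x, b⟩, ⟨y, a⟩⟩
    simp

theorem main {E : Type} [NormedAddCommGroup E] [NormedSpace ℂ E] (e : E ≃ₗᵢ[ℂ] X0 p)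
    {T₁ S₁ T₂ S₂ : E →L[ℂ] E} {C : ℝ} (hC : 1 ≤ C)
    [FiniteDimensional ℂ (LinearMap.ker (T₁ : E →ₗ[ℂ] E))]
    [FiniteDimensional ℂ (E ⧸ LinearMap.range (T₁ : E →ₗ[ℂ] E))]
    [FiniteDimensional ℂ (LinearMap.ker (T₂ : E →ₗ[ℂ] E))]
    [FiniteDimensional ℂ (E ⧸ LinearMap.range (T₂ : E →ₗ[ℂ] E))]
    (a1 : Cpt (T₁ * S₁ - 1)) (a2 : Cpt (S₁ * T₁ - 1)) (a3 : CB T₁ S₁ C)
    (b2 : Cpt (S₂ * T₂ - 1)) (b3 : CB T₂ S₂ C)
    (h : (Module.finrank ℂ (LinearMap.ker (T₁ : E →ₗ[ℂ] E)) : ℤ) -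
        (Module.finrank ℂ (E ⧸ LinearMap.range (T₁ : E →ₗ[ℂ] E)) : ℤ) =
      (Module.finrank ℂ (LinearMap.ker (T₂ : E →ₗ[ℂ] E)) : ℤ) -
        (Module.finrank ℂ (E ⧸ LinearMap.range (T₂ : E →ₗ[ℂ] E)) : ℤ)) :
    ∃ (T₀ U : E →L[ℂ] E) (C' : ℝ), XB T₀ U C' ∧ cls (T₁.prodMap T₀) = cls (T₂.prodMap T₀) := by
  have : CompleteSpace E := e.toIsometryEquiv.completeSpace
  let j : E →L[ℂ] X0 p := e.toContinuousLinearEquiv
  let q : X0 p →L[ℂ] E := e.toContinuousLinearEquiv.symm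
  have h1 : ∀ x, q (j x) = x := fun x => by simp [j, q]
  have h2 : ∀ x, j (q x) = x := fun x => by simp [j, q]
  have hE : IsRet p E := ⟨j, q, h1⟩
  let A := P2 (Fin (Module.finrank ℂ (E ⧸ LinearMap.range (T₁ : E →ₗ[ℂ] E)))) ℂ
  let B := P2 (Fin (Module.finrank ℂ (LinearMap.ker (T₁ : E →ₗ[ℂ] E)))) ℂ
  have rA : Module.finrank ℂ A = Module.finrank ℂ (E ⧸ LinearMap.range (T₁ : E →ₗ[ℂ] E)) :=
    finrank_euclideanSpace_fin
  have rB : Module.finrank ℂ B = Module.finrank ℂ (LinearMap.ker (T₁ : E →ₗ[ℂ] E)) :=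
    finrank_euclideanSpace_fin
  obtain ⟨G₁, hG₁⟩ := exists_pad (A := A) (B := B) T₁ (by omega)
  obtain ⟨G₂, hG₂⟩ := exists_pad (A := A) (B := B) T₂ (by omega)
  obtain ⟨t₁, u₁, ht₁, hu₁, k₁⟩ :=
    stab_pair hE isRet_euclid isRet_euclid hC a1 a2 a2 a3 a3 G₁ G₁ hG₁ hG₁
  obtain ⟨t₂, u₂, ht₂, hu₂, k₂⟩ :=
    stab_pair hE isRet_euclid isRet_euclid hC a1 a2 b2 a3 b3 G₁ G₂ hG₁ hG₂
  obtain ⟨T, S, C', hx, k3, k4⟩ := exists_absorbing (ht₁.add hu₂) (ht₂.add hu₁)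
  have hc : cls (extend q j T) = cls T :=
    cls_eq_of_inverse j q h1 h2 (Cpt.of_sub_eq (by ext1 x; simp [extend, h1, h2]))
  refine ⟨_, _, _, hx.extend h2, ?_⟩
  rw [← cls_add, ← cls_add, hc]
  calc cls T₁ + cls T = cls T₁ + (t₁ + u₂ + cls T) := by rw [k3]
    _ = cls T₂ + (t₂ + u₁ + cls T) := by rw [← k₁, ← k₂]; ac_rfl
    _ = cls T₂ + cls T := by rw [k4]

end Pool.Agent.P.MP_419fe0_an
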