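import Pool.Agent.P.MP_419fe0_an.Tri

/-!
Every class with a bounded essential calculus has an inverse up to trivial classes.
-/

set_option linter.unusedSectionVars false

namespace Pool.Agent.P.MP_419fe0_an

open Filter Topology Finset
open scoped ENNReal

variable {p : ℝ≥0∞} [Fact (1 ≤ p)] [Good p]

section

variable {E F : ℕ → Type*} [∀ i, NormedAddCommGroup (E i)] [∀ i, NormedSpace ℂ (E i)]
  [∀ i, NormedAddCommGroup (F i)] [∀ i, NormedSpace ℂ (F i)]

lemma norm_ev_diag_le {T S : ∀ i, E i →L[ℂ] E i} (hT : Bdd T) (hS : Bdd S) (f : ℤ →₀ ℂ) {c : ℝ}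
    (h : ∀ n, ‖ev f (T n) (S n)‖ ≤ c) : ‖ev f (diag p T) (diag p S)‖ ≤ c := by
  have hc : 0 ≤ c := (norm_nonneg _).trans (h 0)
  refine ContinuousLinearMap.opNorm_le_bound _ hc fun x => norm_le_of_pointwise _ _ hc fun k => ?_
  rw [ev_diag hT hS]
  exact ContinuousLinearMap.le_of_opNorm_le _ (h k) _

lemma diag_single {T : ∀ i, E i →L[ℂ] F i} (hT : Bdd T) (s : ℕ) (y : E s) :
    diag p T (lp.single p s y) = lp.single p s (T s y) := by
  ext k
  rw [diag_apply hT]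
  by_cases h : k = s
  · subst h; rw [lp.single_apply_self, lp.single_apply_self]
  · rw [lp.single_apply_ne _ _ _ h, lp.single_apply_ne _ _ _ h, map_zero]

lemma ext_single {X : Type*} [NormedAddCommGroup X] [NormedSpace ℂ X] {A B : lp E p →L[ℂ] X}
    (h : ∀ s y, A (lp.single p s y) = B (lp.single p s y)) : A = B :=
  lp.ext_continuousLinearMap (Good.ne_top (p := p)) fun s => ContinuousLinearMap.ext (h s)

end

section blk

variable {A : Type} [Fintype A] [DecidableEq A] {G : Type} [NormedAddCommGroup G]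
  [InnerProductSpace ℂ G] {X : Type*} [NormedAddCommGroup X] [NormedSpace ℂ X]

/-- block diagonal operator -/
noncomputable def blk (u : A → Lc p G →L[ℂ] Lc p G) : Lc p (P2 A G) →L[ℂ] Lc p (P2 A G) :=
  col fun a => (u a).comp (cmp p G a)

@[simp] lemma cmp_blk (u : A → Lc p G →L[ℂ] Lc p G) (a : A) (y : Lc p (P2 A G)) :
    cmp p G a (blk u y) = u a (cmp p G a y) := cmp_col _ a y

lemma cmp_ev_blk (u u' : A → Lc p G →L[ℂ] Lc p G) (f : ℤ →₀ ℂ) (a : A) (y : Lc p (P2 A G)) :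
    cmp p G a (ev f (blk u) (blk u') y) = ev f (u a) (u' a) (cmp p G a y) :=
  congrArg (fun B : Lc p (P2 A G) →L[ℂ] Lc p G => B y)
    (ev_intertwine (V := cmp p G a) (T := blk u) (S := blk u') (T' := u a) (S' := u' a)
      (ContinuousLinearMap.ext fun y => cmp_blk u a y)
      (ContinuousLinearMap.ext fun y => cmp_blk u' a y) f)

lemma cpt_col {B : A → X →L[ℂ] Lc p G} (h : ∀ a, Cpt (B a)) : Cpt (col B) :=
  Cpt.sum _ fun a _ => (h a).comp_left _

lemma cpt_row {B : A → Lc p G →L[ℂ] X} (h : ∀ a, Cpt (B a)) : Cpt (row B) :=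
  Cpt.sum _ fun a _ => (h a).comp_right _

lemma norm_blk_scalar {z : A → ℂ} {c : ℝ} (hc : 0 ≤ c) (hz : ∀ a, ‖z a‖ ≤ c)
    {B : Lc p (P2 A G) →L[ℂ] Lc p (P2 A G)} (hB : ∀ a y, cmp p G a (B y) = z a • cmp p G a y) :
    ‖B‖ ≤ c := by
  refine norm_le_of_blocks B hc fun y k a => ?_
  rw [← cmp_apply, hB, lp_smul_apply, cmp_apply, norm_smul]
  gcongr
  exact hz a

end blk

lemma exists_ramp {a b : ℕ} (hab : a < b) : ∃ η : ℕ → ℝ, (∀ i, 0 ≤ η i) ∧ (∀ i, η i ≤ 1) ∧
    (∀ i, i ≤ a → η i = 0) ∧ (∀ i, b ≤ i → η i = 1) ∧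
    ∀ i, |η (i + 1) - η i| ≤ 1 / ((b : ℝ) - a) := by
  have h : (0 : ℝ) < (b : ℝ) - a := by rw [sub_pos]; exact_mod_cast hab
  refine ⟨fun i => max 0 (min 1 (((i : ℝ) - a) / ((b : ℝ) - a))), fun i => le_max_left _ _,
    fun i => max_le zero_le_one (min_le_left _ _), fun i hi => ?_, fun i hi => ?_, fun i => ?_⟩
  · refine max_eq_left (min_le_of_right_le (div_nonpos_of_nonpos_of_nonneg ?_ h.le))
    rw [sub_nonpos]; exact_mod_cast hi
  · beta_reduce
    rw [min_eq_left, max_eq_right zero_le_one]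
    rw [le_div_iff₀ h, one_mul]
    have : (b : ℝ) ≤ i := by exact_mod_cast hi
    linarith
  · refine (abs_max_sub_max_le_max _ _ _ _).trans (max_le (by simp [h.le]) ?_)
    refine (abs_min_sub_min_le_max _ _ _ _).trans (max_le (by simp [h.le]) (le_of_eq ?_))
    rw [← sub_div, abs_div, abs_of_pos h]
    push_cast
    congr 1
    rw [show (i : ℝ) + 1 - a - (i - a) = 1 by ring, abs_one]

/-- scalar field -/
noncomputable def sf (p : ℝ≥0∞) [Fact (1 ≤ p)] (pos : ℕ → ℕ) (φ : ℕ → ℝ) : X0 p →L[ℂ] X0 p :=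
  diag p fun k => (φ (pos k) : ℂ) • (1 : ℂ →L[ℂ] ℂ)

lemma sf_bd {φ : ℕ → ℝ} {c : ℝ} (h : ∀ i, |φ i| ≤ c) (i : ℕ) :
    ‖(φ i : ℂ) • (1 : ℂ →L[ℂ] ℂ)‖ ≤ c := by
  rw [norm_smul, norm_one, mul_one, Complex.norm_real]; exact h i

lemma sf_apply {pos : ℕ → ℕ} {φ : ℕ → ℝ} (h : ∀ i, |φ i| ≤ 1) (x : X0 p) (k : ℕ) :
    sf p pos φ x k = φ (pos k) * x k := by
  rw [sf, diag_apply ⟨1, fun k => sf_bd h _⟩]; simp

lemma norm_sf_le {pos : ℕ → ℕ} {φ : ℕ → ℝ} (h : ∀ i, |φ i| ≤ 1) : ‖sf p pos φ‖ ≤ 1 :=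
  norm_diag_le fun _ => sf_bd h _

lemma Tri.sf_comm {pos : ℕ → ℕ} {R : X0 p →L[ℂ] X0 p} (hR : Tri pos R) {φ : ℕ → ℝ}
    (h : ∀ i, |φ i| ≤ 1) {c : ℝ} (hc : ∀ i, |φ (i + 1) - φ i| ≤ c) :
    ‖R * sf p pos φ - sf p pos φ * R‖ ≤ 3 * (‖R‖ * c) := by
  refine hR.comm_le (B := fun i => (φ i : ℂ) • (1 : ℂ →L[ℂ] ℂ)) ⟨1, sf_bd h⟩ (fun i => ?_)
    fun i => ?_
  · rw [← sub_smul, ← Complex.ofReal_sub]
    exact sf_bd (φ := fun i => φ (i + 1) - φ i) hc i
  · rw [← cfa_eq, map_smul, map_one]; simp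

/-- `l^p(l^2_m)` -/
noncomputable abbrev SqF (p : ℝ≥0∞) (m : ℕ) := Lc p (P2 (Fin m) ℂ)

lemma bdd_blk_scalar {M : ℕ → ℕ} {z : ∀ s, Fin (M s) → ℂ} (hz : ∀ s j, ‖z s j‖ = 1) :
    Bdd (E := fun s => SqF p (M s)) (F := fun s => SqF p (M s))
      fun s => blk fun j => z s j • 1 :=
  ⟨1, fun s => norm_blk_scalar zero_le_one (fun j => (hz s j).le) fun j y => by simp⟩

lemma xb_scalar {M : ℕ → ℕ} {z : ∀ s, Fin (M s) → ℂ} (hz : ∀ s j, ‖z s j‖ = 1) :
    XB (diag p (E := fun s => SqF p (M s)) fun s => blk fun j => z s j • 1)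
      (diag p (E := fun s => SqF p (M s)) fun s => blk fun j => (z s j)⁻¹ • 1) 1 := by
  have hz' : ∀ s j, z s j ≠ 0 := fun s j h => by simpa [h] using hz s j
  have bZ := bdd_blk_scalar (p := p) hz
  have bZ' := bdd_blk_scalar (p := p) (z := fun s j => (z s j)⁻¹) fun s j => by simp [hz s j]
  refine ⟨?_, ?_, fun f m hf => ?_⟩
  · rw [diag_mul bZ bZ']
    refine Eq.trans ?_ diag_one
    congr 1
    exact funext fun s => ContinuousLinearMap.ext fun y => ext_cmp fun j => by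
      simp [smul_smul, hz' s j]
  · rw [diag_mul bZ' bZ]
    refine Eq.trans ?_ diag_one
    congr 1
    exact funext fun s => ContinuousLinearMap.ext fun y => ext_cmp fun j => by
      simp [smul_smul, hz' s j]
  · rw [one_mul]
    refine norm_ev_diag_le bZ bZ' f fun s => norm_blk_scalar hf.nonneg
      (fun j => hf _ (hz s j)) fun j y => ?_
    rw [cmp_ev_blk, ev_scalar]; rfl

theorem inv_tri {pos : ℕ → ℕ} (hp1 : ∀ k, pos k ≤ k) (hp2 : ∀ i, {k | pos k < i}.Finite)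
    {R S : X0 p →L[ℂ] X0 p} (hR : Tri pos R) {C : ℝ} (hC0 : 0 ≤ C) (h1 : Cpt (R * S - 1))
    (h2 : Cpt (S * R - 1)) (hC : CB R S C) : ∃ c t : Cls, Triv p t ∧ cls R + c = t := by
  obtain ⟨D, hD⟩ := exists_KS (one_lt_pr (p := p))
  have hD1 := hD.one_le
  choose M z g hz hsq hFD using fun s : ℕ =>
    exists_FD hC0 h1 h2 hC (η := 1 / ((s : ℝ) + 1)) (by positivity)
  choose n0 hn0 using fun s => eventually_atTop.1 (hFD s)
  set a : ∀ s, Fin (M s) → X0 p →L[ℂ] X0 p := fun s j => ev (g s j) R S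
  set c := C * 2 + 1
  let N : ℕ → ℕ := fun s => ∑ i ∈ range (s + 1), (n0 i + i)
  have hN : ∀ s, N s + s + 1 ≤ N (s + 1) := fun s => by
    simp only [N]; rw [sum_range_succ _ (s + 1)]; omega
  have hNm : StrictMono N := strictMono_nat_of_lt_succ fun s => by have := hN s; omega
  have fd : ∀ s : ℕ, FD R S c (1 / ((s : ℝ) + 1)) (z s) (a s) (N s) := fun s => hn0 s _ (by
    simp only [N]; rw [sum_range_succ]; omega)
  choose η e0 e1 e2 e3 e4 using fun s => exists_ramp (hNm (Nat.lt_succ_self s))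
  have e5 : ∀ s t i, s ≤ t → |η t (i + 1) - η t i| ≤ 1 / ((s : ℝ) + 1) := by
    intro s t i hst
    refine (e4 t i).trans (one_div_le_one_div_of_le (by positivity) ?_)
    have h3 : ((N t + t + 1 : ℕ) : ℝ) ≤ (N (t + 1) : ℝ) := by exact_mod_cast hN t
    have h4 : (s : ℝ) ≤ t := by exact_mod_cast hst
    push_cast at h3
    linarith
  have e6 : ∀ s t i, |η s i - η t i| ≤ 1 := fun s t i => by
    rw [abs_le]; constructor <;> linarith [e0 s i, e1 s i, e0 t i, e1 t i]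
  have e7 : ∀ s t u i, s ≤ t → s ≤ u →
      |η t (i + 1) - η u (i + 1) - (η t i - η u i)| ≤ 2 * (1 / ((s : ℝ) + 1)) := by
    intro s t u i ht hu
    have a1 := e5 s t i ht
    have a2 := e5 s u i hu
    rw [abs_le] at a1 a2 ⊢
    constructor <;> linarith [a1.1, a1.2, a2.1, a2.2]
  have z1 : ∀ s t i, s ≤ t → i ≤ N s → η t i = 0 := fun s t i h h' =>
    e2 t i (h'.trans (hNm.monotone h))
  have z2 : ∀ s t i, t < s → N s ≤ i → η t i = 1 := fun s t i h h' =>
    e3 t i ((hNm.monotone h).trans h')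
  let h : ℕ → X0 p →L[ℂ] X0 p := fun s => sf p pos fun i => η (s + 1) i - η (s + 2) i
  let h' : ℕ → X0 p →L[ℂ] X0 p := fun s => sf p pos fun i => η s i - η (s + 3) i
  have ha : ∀ s x k, h s x k = (η (s + 1) (pos k) - η (s + 2) (pos k) : ℝ) * x k :=
    fun s x k => sf_apply (e6 _ _) x k
  have ha' : ∀ s x k, h' s x k = (η s (pos k) - η (s + 3) (pos k) : ℝ) * x k :=
    fun s x k => sf_apply (e6 _ _) x k
  have hz0 : ∀ s x k, pos k ≤ N (s + 1) ∨ N (s + 3) ≤ pos k → h s x k = 0 := by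
    rintro s x k (hk | hk)
    · rw [ha, z1 _ _ _ le_rfl hk, z1 _ _ _ (by omega) hk]; simp
    · rw [ha, z2 _ _ _ (by omega) hk, z2 _ _ _ (by omega) hk]; simp
  have hz0' : ∀ s x k, pos k ≤ N s ∨ N (s + 4) ≤ pos k → h' s x k = 0 := by
    rintro s x k (hk | hk)
    · rw [ha', z1 _ _ _ le_rfl hk, z1 _ _ _ (by omega) hk]; simp
    · rw [ha', z2 _ _ _ (by omega) hk, z2 _ _ _ (by omega) hk]; simp
  let V : ℕ → Set ℕ := fun s => {k | N s ≤ pos k ∧ pos k ≤ N (s + 4)}
  have hV : Ovl V 5 := ovl_of_diam fun k a b ha hb => by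
    have := hNm.le_iff_le.1 (hb.1.trans ha.2); omega
  have hVQ : ∀ s, V s ⊆ Set.Ici (N s) := fun s k hk => hk.1.trans (hp1 k)
  let P : ℕ → X0 p →L[ℂ] X0 p := fun s => ind p _ (V s)
  have hPc : ∀ s, Cpt (P s) := fun s =>
    ind_cpt ((hp2 (N (s + 4) + 1)).subset fun k hk => Nat.lt_succ_of_le hk.2)
  have m1 : ∀ s, N s < N (s + 1) := fun s => hNm (Nat.lt_succ_self s)
  have m2 : ∀ s, N (s + 3) < N (s + 4) := fun s => hNm (Nat.lt_succ_self _)
  have nV : ∀ s k, k ∉ V s → pos k < N s ∨ N (s + 4) < pos k := fun s k hk => by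
    simp only [V, Set.mem_ofPred_eq] at hk; omega
  have Ph : ∀ s x, P s (h s x) = h s x := fun s x => ind_eq_self fun k hk =>
    hz0 s x k (by have := nV s k hk; have := m1 s; have := m2 s; omega)
  have PRh : ∀ s x, P s (R (h s x)) = R (h s x) := fun s x => ind_eq_self fun k hk =>
    hR k _ fun l b1 b2 => hz0 s x l (by have := nV s k hk; have := m1 s; have := m2 s; omega)
  have supp' : ∀ s x, ∀ k ∉ V s, h' s x k = 0 := fun s x k hk =>
    hz0' s x k (by have := nV s k hk; omega)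
  have suppR' : ∀ s x, ∀ k ∉ V s, R (h' s x) k = 0 := fun s x k hk =>
    hR k _ fun l b1 b2 => hz0' s x l (by have := nV s k hk; omega)
  have locR : ∀ s x k, N s < pos k → pos k < N (s + 4) → R (P s x) k = R x k := by
    intro s x k k1 k2
    have := hR k (P s x - x) fun l b1 b2 => by
      have : l ∈ V s := ⟨by omega, by omega⟩
      simp [P, ind_apply_mem _ this]
    simpa [sub_eq_zero] using this
  have hP : ∀ s x, h s (P s x) = h s x := by
    intro s x
    ext k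
    by_cases hk : k ∈ V s
    · rw [ha, ha, ind_apply_mem _ hk]
    · have := nV s k hk
      have := m1 s
      have := m2 s
      rw [hz0 s _ k (by omega), hz0 s _ k (by omega)]
  have hRP : ∀ s x, h s (R (P s x)) = h s (R x) := by
    intro s x
    ext k
    by_cases hk : pos k ≤ N (s + 1) ∨ N (s + 3) ≤ pos k
    · rw [hz0 s _ k hk, hz0 s _ k hk]
    · have := m1 s
      have := m2 s
      rw [ha, ha, locR s x k (by omega) (by omega)]
  have hP' : ∀ s x, h' s (P s x) = h' s x := by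
    intro s x
    ext k
    by_cases hk : k ∈ V s
    · rw [ha', ha', ind_apply_mem _ hk]
    · rw [supp' s _ k hk, supp' s _ k hk]
  have hRP' : ∀ s x, h' s (R (P s x)) = h' s (R x) := by
    intro s x
    ext k
    by_cases hk : pos k ≤ N s ∨ N (s + 4) ≤ pos k
    · rw [hz0' s _ k hk, hz0' s _ k hk]
    · rw [ha', ha', locR s x k (by omega) (by omega)]
  have hh : ∀ s x, h' s (h s x) = h s x := by
    intro s x
    ext k
    by_cases hk : pos k ≤ N (s + 1) ∨ N (s + 3) ≤ pos k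
    · rw [ha', hz0 s _ k hk, mul_zero]
    · rw [ha', z2 (s + 1) s _ (by omega) (by omega), z1 (s + 3) _ _ le_rfl (by omega)]; simp
  have hc : ∀ s, Cpt (h s) := fun s =>
    ((hPc s).comp_left (h s)).of_eq (ContinuousLinearMap.ext fun x => (hP s x).symm)
  have hc' : ∀ s, Cpt (h' s) := fun s =>
    ((hPc s).comp_left (h' s)).of_eq (ContinuousLinearMap.ext fun x => (hP' s x).symm)
  obtain ⟨H, hH, -⟩ := exists_col_loc (p := p) (F := fun _ => X0 p) (by norm_num) hV h zero_le_one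
    fun s x => by
      rw [← hP s x]
      exact ContinuousLinearMap.le_of_opNorm_le _ (norm_sf_le (e6 _ _)) _
  obtain ⟨H', hH', -⟩ := exists_row_loc (p := p) (E := fun _ => X0 p) (by norm_num) hV h'
    zero_le_one (fun s x => ContinuousLinearMap.le_of_opNorm_le _ (norm_sf_le (e6 _ _)) _) supp'
  have e8 : ∀ i, |η 1 i| ≤ 1 := fun i => by rw [abs_of_nonneg (e0 _ _)]; exact e1 _ _
  have hHH : ∀ x, H' (H x) = sf p pos (η 1) x := by
    intro x
    ext k
    have t1 := ((lp.hasSum_single (Good.ne_top (p := p)) (H x)).mapL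
      ((lp.evalCLM ℂ (fun _ : ℕ => ℂ) p k).comp H')).tendsto_sum_nat
    refine tendsto_nhds_unique t1 (tendsto_const_nhds.congr' ?_)
    filter_upwards [eventually_ge_atTop (pos k)] with n hn
    have : ∀ s, ((lp.evalCLM ℂ (fun _ : ℕ => ℂ) p k).comp H') (lp.single p s (H x s)) =
        (η (s + 1) (pos k) : ℂ) * x k - (η (s + 1 + 1) (pos k) : ℂ) * x k := by
      intro s
      change H' (lp.single p s (H x s)) k = _
      rw [hH', hH, hh, ha]; push_cast; ring
    simp only [this]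
    rw [sum_range_sub' (fun s => (η (s + 1) (pos k) : ℂ) * x k), sf_apply e8,
      z1 n (n + 1) (pos k) (by omega) (hn.trans hNm.le_apply)]
    simp
  have hη1 : Cpt (sf p pos (η 1) - 1) := by
    refine ((ind_cpt (p := p) (E := fun _ => ℂ) (hp2 (N 2))).comp_right
      (sf p pos (η 1) - 1)).of_eq (ContinuousLinearMap.ext fun x => ?_)
    refine (ind_eq_self fun k hk => ?_).symm
    simp [sf_apply e8, e3 1 (pos k) (not_lt.1 hk)]
  have t0 : Tendsto (fun s : ℕ => 1 / ((s : ℝ) + 1)) atTop (𝓝 0) :=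
    tendsto_one_div_add_atTop_nhds_zero_nat
  have t1 : Tendsto (fun s : ℕ => 3 * (‖R‖ * (2 * (1 / ((s : ℝ) + 1))))) atTop (𝓝 0) := by
    simpa using ((t0.const_mul 2).const_mul ‖R‖).const_mul 3
  have t2 : Tendsto (fun s : ℕ => D * (1 / ((s : ℝ) + 1))) atTop (𝓝 0) := by
    simpa using t0.const_mul D
  have bR : Bdd (E := fun _ => X0 p) (F := fun _ => X0 p) fun _ => R := Bdd.const R
  have cH : Cpt ((diag p fun _ => R).comp H - H.comp R) := by
    have e : ∀ s x, ((diag p fun _ => R).comp H - H.comp R) x s = (R * h s - h s * R) x := by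
      intro s x; simp [diag_apply bR, hH]
    refine col_loc_cpt (by norm_num) hV _ t1 (fun s x => ?_) fun s => ?_
    · have : (R * h s - h s * R) x = (R * h s - h s * R) (P s x) := by simp [hP, hRP]
      rw [e, this]
      exact ContinuousLinearMap.le_of_opNorm_le _
        (hR.sf_comm (e6 _ _) fun i => e7 s _ _ i (by omega) (by omega)) _
    · exact (((hc s).mul_left R).sub ((hc s).mul_right R)).of_eq
        (ContinuousLinearMap.ext fun x => e s x)
  have cH' : Cpt (H'.comp (diag p fun _ => R) - R.comp H') := by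
    have e : ∀ s y, (H'.comp (diag p fun _ => R) - R.comp H') (lp.single p s y) =
        -(R * h' s - h' s * R) y := by
      intro s y; simp [diag_single bR, hH']
    refine row_loc_cpt (by norm_num) hV _ t1 (fun s x => ?_) (fun s y k hk => ?_) fun s => ?_
    · rw [e, norm_neg]
      exact ContinuousLinearMap.le_of_opNorm_le _
        (hR.sf_comm (e6 _ _) fun i => e7 s _ _ i (by omega) (by omega)) _
    · rw [e]; simp [supp' s _ k hk, suppR' s _ k hk]
    · exact (((hc' s).mul_left R).sub ((hc' s).mul_right R)).neg.of_eq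
        (ContinuousLinearMap.ext fun x => e s x)
  have ncol : ∀ s (b : Fin (M s) → X0 p →L[ℂ] X0 p) (r : ℝ),
      (∀ ω : Fin (M s) → Bool, ‖(∑ j, (sg (ω j) : ℂ) • b j) * Qn p (N s)‖ ≤ r) →
      ‖col fun j => b j * P s‖ ≤ D * r := by
    intro s b r hb
    refine hD.norm_col _ fun ω => le_trans (le_of_eq ?_)
      ((norm_comp_ind_mono (∑ j, (sg (ω j) : ℂ) • b j) (hVQ s)).trans (hb ω))
    congr 1
    change _ = (∑ j, (sg (ω j) : ℂ) • b j) * P s
    simp only [sum_mul, smul_mul_assoc]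
  have nrow : ∀ s (b : Fin (M s) → X0 p →L[ℂ] X0 p) (r : ℝ),
      (∀ ω : Fin (M s) → Bool, ‖Qn p (N s) * ∑ j, (sg (ω j) : ℂ) • b j‖ ≤ r) →
      ‖row fun j => P s * b j‖ ≤ D * r := by
    intro s b r hb
    refine hD.norm_row _ fun ω => le_trans (le_of_eq ?_)
      ((norm_ind_comp_mono (∑ j, (sg (ω j) : ℂ) • b j) (hVQ s)).trans (hb ω))
    congr 1
    change _ = P s * (∑ j, (sg (ω j) : ℂ) • b j)
    simp only [mul_sum, mul_smul_comm]
  have le1 : ∀ s : ℕ, 1 / ((s : ℝ) + 1) ≤ 1 := fun s => by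
    rw [div_le_one (by positivity)]; linarith [Nat.cast_nonneg (α := ℝ) s]
  let γ : ∀ s, X0 p →L[ℂ] SqF p (M s) := fun s => col fun j => a s j * P s
  let ρ : ∀ s, SqF p (M s) →L[ℂ] X0 p := fun s => row fun j => P s * a s j
  let δ : ∀ s, X0 p →L[ℂ] SqF p (M s) := fun s => col fun j => (z s j • a s j - a s j * R) * P s
  let δ' : ∀ s, SqF p (M s) →L[ℂ] X0 p := fun s => row fun j => P s * (z s j • a s j - R * a s j)
  let κ : ℕ → X0 p →L[ℂ] X0 p := fun s => P s * (∑ j, a s j * a s j - 1) * P s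
  let Z : ∀ s, SqF p (M s) →L[ℂ] SqF p (M s) := fun s => blk fun j => z s j • 1
  have bγ : Bdd γ := ⟨_, fun s => ncol s _ _ (fd s).r⟩
  have bρ : Bdd ρ := ⟨_, fun s => nrow s _ _ (fd s).l⟩
  have nδ : ∀ s, ‖δ s‖ ≤ D * (1 / ((s : ℝ) + 1)) := fun s => ncol s _ _ (fd s).r1
  have nδ' : ∀ s, ‖δ' s‖ ≤ D * (1 / ((s : ℝ) + 1)) := fun s => nrow s _ _ (fd s).l2
  have nκ : ∀ s, ‖κ s‖ ≤ 1 / ((s : ℝ) + 1) := fun s =>
    (norm_mul_le _ _).trans ((mul_le_of_le_one_right (norm_nonneg _) (norm_ind_le _)).trans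
      ((norm_ind_comp_mono _ (hVQ s)).trans (fd s).sq))
  have bδ : Bdd δ := ⟨D * 1, fun s => (nδ s).trans (by gcongr; exact le1 s)⟩
  have bδ' : Bdd δ' := ⟨D * 1, fun s => (nδ' s).trans (by gcongr; exact le1 s)⟩
  have bκ : Bdd (E := fun _ => X0 p) (F := fun _ => X0 p) κ := ⟨1, fun s => (nκ s).trans (le1 s)⟩
  have bZ : Bdd Z := bdd_blk_scalar hz
  have cδ : Cpt (diag p δ) := diag_cpt bδ (fun s => cpt_col fun j => (hPc s).mul_left _)
    (squeeze_zero (fun _ => norm_nonneg _) nδ t2)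
  have cδ' : Cpt (diag p δ') := diag_cpt bδ' (fun s => cpt_row fun j => (hPc s).mul_right _)
    (squeeze_zero (fun _ => norm_nonneg _) nδ' t2)
  have cκ : Cpt (diag p κ) := diag_cpt bκ (fun s => (hPc s).mul_left _)
    (squeeze_zero (fun _ => norm_nonneg _) nκ t0)
  refine ⟨_, _, (Triv.one IsRet.self).add 
    (Triv.mk (Ret.lp fun s => hD.ret).isRet (xb_scalar hz)),
    mtrick R (diag p Z) ((diag p γ).comp H) (H'.comp (diag p ρ)) ?_ ?_ ?_⟩
  · refine (((cκ.comp_right H).comp_left H').add hη1).of_eq (ContinuousLinearMap.ext fun x => ?_)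
    have : diag p ρ (diag p γ (H x)) = diag p κ (H x) + H x := by
      ext1
      ext1 s
      rw [diag_apply bρ, diag_apply bγ, lp.coeFn_add, Pi.add_apply, diag_apply bκ, hH]
      simp [ρ, γ, κ, row_apply, Ph]
    simp [this, hHH]
    abel
  · refine ((cδ.comp_right H).add (cH.comp_left (diag p γ))).of_eq
      (ContinuousLinearMap.ext fun x => ?_)
    ext1
    ext1 s
    refine ext_cmp fun j => ?_
    simp [diag_apply bZ, diag_apply bγ, diag_apply bδ, diag_apply bR, hH, Z, γ, δ, Ph, PRh]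
  · refine ((cδ'.comp_left H').add (cH'.comp_right (diag p ρ))).of_eq (ext_single fun s y => ?_)
    simp [diag_single bZ, diag_single bρ, diag_single bδ', diag_single bR, hH', Z, ρ, δ',
      row_apply, hP', hRP']

theorem inv_X0 {R S : X0 p →L[ℂ] X0 p} {C : ℝ} (hC0 : 0 ≤ C) (h1 : Cpt (R * S - 1))
    (h2 : Cpt (S * R - 1)) (hC : CB R S C) : ∃ c t : Cls, Triv p t ∧ cls R + c = t := by
  obtain ⟨pos, R', hp1, hp2, hR, hK⟩ := exists_tri R
  rw [cls_congr hK]
  exact inv_tri hp1 hp2 hR hC0 ((hK.symm.mul_sub_mul (Cpt.refl S)).trans h1)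
    (((Cpt.refl S).mul_sub_mul hK.symm).trans h2) (hC.congr hK (Cpt.refl S))

theorem inv_ret {Y : Type} [NormedAddCommGroup Y] [NormedSpace ℂ Y] (hY : IsRet p Y)
    {R S : Y →L[ℂ] Y} {C : ℝ} (hC0 : 0 ≤ C) (h1 : Cpt (R * S - 1))
    (h2 : Cpt (S * R - 1)) (hC : CB R S C) : ∃ c t : Cls, Triv p t ∧ cls R + c = t := by
  obtain ⟨j, q, hq⟩ := hY
  obtain ⟨c, t, ht, h⟩ := inv_X0 (R := extend j q R) (S := extend j q S) (by positivity)
    (by rw [extend_mul hq, ← extend_one j q]; exact extend_congr j q h1)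
    (by rw [extend_mul hq, ← extend_one j q]; exact extend_congr j q h2) (hC.extend hq)
  refine ⟨cls (1 : X0 p →L[ℂ] X0 p) + c, cls (1 : Y →L[ℂ] Y) + t,
    (Triv.one ⟨j, q, hq⟩).add ht, ?_⟩
  rw [← add_assoc, cls_extend hq, add_assoc, h]

end Pool.Agent.P.MP_419fe0_an
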