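import Mathlib

/-!
Khintchine inequalities for Hilbert valued Rademacher sums.
-/

namespace Pool.Agent.P.MP_419fe0_an

open Finset

/-- sign attached to a Boolean -/
def sg (b : Bool) : ℝ := if b then 1 else -1

lemma sg_not (b : Bool) : sg (!b) = -sg b := by cases b <;> simp [sg]

lemma sg_mul_self (b : Bool) : sg b * sg b = 1 := by cases b <;> simp [sg]

lemma abs_sg (b : Bool) : |sg b| = 1 := by cases b <;> simp [sg]

lemma norm_sg (b : Bool) : ‖((sg b : ℝ) : ℂ)‖ = 1 := by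
  rw [Complex.norm_real, Real.norm_eq_abs, abs_sg]

/-- constants of the two-point inequality -/
noncomputable def kc : ℕ → ℝ
  | 0 => 0
  | r + 1 => (1 + 4 * kc r) / 2

lemma kc_nonneg : ∀ r, 0 ≤ kc r
  | 0 => le_rfl
  | r + 1 => by have := kc_nonneg r; unfold kc; positivity

lemma two_point (r : ℕ) : ∀ a b y : ℝ, 0 ≤ a → 0 ≤ y → b ^ 2 ≤ a * y →
    (a + b) ^ (2 ^ r) + (a - b) ^ (2 ^ r) ≤ 2 * (a + kc r * y) ^ (2 ^ r) := by
  induction r with
  | zero => intro a b y _ _ _; simp [kc]; linarith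
  | succ r ih =>
    intro a b y ha hy hb
    have hk := kc_nonneg r
    have h := ih (a ^ 2 + b ^ 2) (2 * a * b) (4 * b ^ 2) (by positivity) (by positivity)
      (by nlinarith [sq_nonneg (b ^ 2)])
    rw [pow_succ' 2 r, pow_mul, pow_mul, pow_mul]
    have e1 : (a + b) ^ 2 = a ^ 2 + b ^ 2 + 2 * a * b := by ring
    have e2 : (a - b) ^ 2 = a ^ 2 + b ^ 2 - 2 * a * b := by ring
    rw [e1, e2]
    refine h.trans ?_
    gcongr
    have : kc (r + 1) = (1 + 4 * kc r) / 2 := rfl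
    rw [this]
    nlinarith [mul_le_mul_of_nonneg_left hb hk, sq_nonneg ((1 + 4 * kc r) / 2 * y)]

section

variable {A : Type} [Fintype A] [DecidableEq A]

/-- flipping one coordinate -/
def flp (a : A) : (A → Bool) ≃ (A → Bool) :=
  Function.Involutive.toPerm (fun ω => Function.update ω a (!ω a)) fun ω => by
    ext b
    by_cases h : b = a
    · subst h; simp
    · simp [Function.update_of_ne h]

omit [Fintype A] in
lemma flp_self (a : A) (ω : A → Bool) : flp a ω a = !ω a := by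
  change Function.update ω a (!ω a) a = _
  simp

omit [Fintype A] in
lemma flp_ne {a b : A} (h : b ≠ a) (ω : A → Bool) : flp a ω b = ω b :=
  Function.update_of_ne h _ _

lemma rad_orth (a b : A) :
    ∑ ω : A → Bool, sg (ω a) * sg (ω b) = if a = b then (Fintype.card (A → Bool) : ℝ) else 0 := by
  split_ifs with h
  · subst h; simp [sg_mul_self]
  · have := Equiv.sum_comp (flp a) fun ω => sg (ω a) * sg (ω b)
    simp only [flp_self, flp_ne (Ne.symm h), sg_not, neg_mul, sum_neg_distrib] at this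
    linarith

variable {H : Type*} [NormedAddCommGroup H] [InnerProductSpace ℂ H]

lemma khin_aux (r : ℕ) (h : A → H) (s : Finset A) : ∀ t : ℝ, 0 ≤ t →
    ∑ ω : A → Bool, (‖∑ a ∈ s, ((sg (ω a) : ℝ) : ℂ) • h a‖ ^ 2 + t) ^ (2 ^ r) ≤
      Fintype.card (A → Bool) * (t + (1 + 4 * kc r) * ∑ a ∈ s, ‖h a‖ ^ 2) ^ (2 ^ r) := by
  induction s using Finset.induction_on with
  | empty => intro t _; simp
  | insert a s ha ih =>
    intro t ht
    have hk := kc_nonneg r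
    have h2 := ih (t + (1 + 4 * kc r) * ‖h a‖ ^ 2) (by positivity)
    rw [sum_insert ha, mul_add, ← add_assoc]
    refine le_trans ?_ h2
    have hf := Equiv.sum_comp (flp a) fun ω =>
      (‖∑ b ∈ insert a s, ((sg (ω b) : ℝ) : ℂ) • h b‖ ^ 2 + t) ^ (2 ^ r)
    have key : ∀ ω : A → Bool,
        (‖∑ b ∈ insert a s, ((sg (ω b) : ℝ) : ℂ) • h b‖ ^ 2 + t) ^ (2 ^ r) +
        (‖∑ b ∈ insert a s, ((sg (flp a ω b) : ℝ) : ℂ) • h b‖ ^ 2 + t) ^ (2 ^ r) ≤
        2 * (‖∑ b ∈ s, ((sg (ω b) : ℝ) : ℂ) • h b‖ ^ 2 +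
          (t + (1 + 4 * kc r) * ‖h a‖ ^ 2)) ^ (2 ^ r) := by
      intro ω
      have e : ∑ b ∈ s, ((sg (flp a ω b) : ℝ) : ℂ) • h b = ∑ b ∈ s, ((sg (ω b) : ℝ) : ℂ) • h b :=
        sum_congr rfl fun b hb => by
          have : b ≠ a := fun h => ha (h ▸ hb)
          rw [flp_ne this]
      rw [sum_insert ha, sum_insert ha, e, flp_self, sg_not]
      set G := ∑ b ∈ s, ((sg (ω b) : ℝ) : ℂ) • h b
      set u := ((sg (ω a) : ℝ) : ℂ) • h a with hu
      have hnu : ‖u‖ = ‖h a‖ := by rw [hu, norm_smul, norm_sg, one_mul]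
      have e2 : ((-sg (ω a) : ℝ) : ℂ) • h a + G = G - u := by
        rw [hu]; push_cast; rw [neg_smul]; abel
      rw [e2, add_comm u G, norm_add_sq (𝕜 := ℂ), norm_sub_sq (𝕜 := ℂ), hnu]
      have hcs : |RCLike.re (inner ℂ G u)| ≤ ‖G‖ * ‖h a‖ := by
        rw [← hnu]
        exact (RCLike.abs_re_le_norm _).trans (norm_inner_le_norm G u)
      set x := RCLike.re (inner ℂ G u)
      have hx : x ^ 2 ≤ (‖G‖ * ‖h a‖) ^ 2 := by
        rw [← sq_abs x]; gcongr
      have := two_point r (‖G‖ ^ 2 + ‖h a‖ ^ 2 + t) (2 * x) (4 * ‖h a‖ ^ 2) (by positivity)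
        (by positivity) (by nlinarith [sq_nonneg (‖h a‖ ^ 2), mul_nonneg ht (sq_nonneg ‖h a‖)])
      convert this using 3 <;> ring
    have := sum_le_sum fun ω (_ : ω ∈ univ) => key ω
    rw [sum_add_distrib, hf, ← mul_sum] at this
    linarith

lemma khin (r : ℕ) (h : A → H) :
    ∑ ω : A → Bool, (‖∑ a, ((sg (ω a) : ℝ) : ℂ) • h a‖ ^ 2) ^ (2 ^ r) ≤
      Fintype.card (A → Bool) * ((1 + 4 * kc r) * ∑ a, ‖h a‖ ^ 2) ^ (2 ^ r) := by
  simpa using khin_aux r h univ 0 le_rfl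

end

lemma mean_mono {Ω : Type} [Fintype Ω] (hΩ : 0 < Fintype.card Ω) (x : Ω → ℝ) (hx : ∀ ω, 0 ≤ x ω)
    {s q D : ℝ} (hs : 0 < s) (hsq : s ≤ q) (hD : 0 ≤ D)
    (h : ∑ ω, x ω ^ q ≤ Fintype.card Ω * D ^ q) : ∑ ω, x ω ^ s ≤ Fintype.card Ω * D ^ s := by
  have hN : (0 : ℝ) < Fintype.card Ω := by exact_mod_cast hΩ
  have h1 := Real.rpow_arith_mean_le_arith_mean_rpow univ (fun _ : Ω => 1 / (Fintype.card Ω : ℝ))
    (fun ω => x ω ^ s) (fun _ _ => by positivity) (by simp [hN.ne'])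
    (fun ω _ => Real.rpow_nonneg (hx ω) _) (p := q / s) (by rwa [one_le_div hs])
  have h2 : ∀ ω, (x ω ^ s) ^ (q / s) = x ω ^ q := fun ω => by
    rw [← Real.rpow_mul (hx ω)]; congr 1; field_simp
  simp only [h2, ← mul_sum] at h1
  have h3 : 1 / (Fintype.card Ω : ℝ) * ∑ ω, x ω ^ q ≤ (D ^ s) ^ (q / s) := by
    rw [← Real.rpow_mul hD, show s * (q / s) = q by field_simp, one_div,
      inv_mul_le_iff₀ hN]
    exact h
  have h4 := h1.trans h3
  rw [Real.rpow_le_rpow_iff (mul_nonneg (by positivity)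
    (sum_nonneg fun ω _ => Real.rpow_nonneg (hx ω) _)) (by positivity)
    (div_pos (hs.trans_le hsq) hs), one_div, inv_mul_le_iff₀ hN] at h4
  exact h4

/-- the two-sided Khintchine property, exponent `p`, constant `D` -/
structure KS (p D : ℝ) : Prop where
  one_le : 1 ≤ D
  up : ∀ (A : Type) [Fintype A] [DecidableEq A] (H : Type) [NormedAddCommGroup H]
    [InnerProductSpace ℂ H] (c : PiLp 2 fun _ : A => H),
    ∑ ω : A → Bool, ‖∑ a, (sg (ω a) : ℂ) • c a‖ ^ p ≤ Fintype.card (A → Bool) * (D * ‖c‖) ^ p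
  down : ∀ (A : Type) [Fintype A] [DecidableEq A] (H : Type) [NormedAddCommGroup H]
    [InnerProductSpace ℂ H] (ψ : (A → Bool) → H) (c : PiLp 2 fun _ : A => H),
    (∀ a, (Fintype.card (A → Bool) : ℂ) • c a = ∑ ω, (sg (ω a) : ℂ) • ψ ω) →
    Fintype.card (A → Bool) * ‖c‖ ^ p ≤ D ^ p * ∑ ω, ‖ψ ω‖ ^ p

theorem exists_KS {p : ℝ} (hp1 : 1 < p) : ∃ D : ℝ, KS p D := by
  set p' := Real.conjExponent p
  have hp : p.HolderConjugate p' := Real.HolderConjugate.conjExponent hp1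
  obtain ⟨r, hr⟩ := pow_unbounded_of_one_lt (max p p') (one_lt_two (α := ℝ))
  have hr0 : (0 : ℝ) < 2 ^ r := by positivity
  have h1 : p ≤ 2 * 2 ^ r := by linarith [le_max_left p p']
  have h2 : p' ≤ 2 * 2 ^ r := by linarith [le_max_right p p']
  have hk := kc_nonneg r
  set B := 1 + 4 * kc r with hBdef
  have hB1 : 1 ≤ B := by linarith
  have hB : 0 ≤ B := by linarith
  have up' : ∀ s : ℝ, 0 < s → s ≤ 2 * 2 ^ r → ∀ (A : Type) [Fintype A] [DecidableEq A] (H : Type)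
      [NormedAddCommGroup H] [InnerProductSpace ℂ H] (c : PiLp 2 fun _ : A => H),
      ∑ ω : A → Bool, ‖∑ a, (sg (ω a) : ℂ) • c a‖ ^ s ≤
        Fintype.card (A → Bool) * (B * ‖c‖) ^ s := by
    intro s hs hsq A _ _ H _ _ c
    refine mean_mono Fintype.card_pos _ (fun _ => norm_nonneg _) hs hsq (by positivity) ?_
    have := khin r fun a => c a
    rw [← PiLp.norm_sq_eq_of_L2] at this
    have h3 : (B * ‖c‖ ^ 2) ^ 2 ^ r ≤ ((B * ‖c‖) ^ 2) ^ 2 ^ r := by
      gcongr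
      nlinarith [mul_le_mul_of_nonneg_right hB1 (mul_nonneg hB (sq_nonneg ‖c‖))]
    have h4 := this.trans (mul_le_mul_of_nonneg_left h3 (Nat.cast_nonneg _))
    simp only [← pow_mul] at h4
    rw [show (2 * 2 ^ r : ℝ) = ((2 * 2 ^ r : ℕ) : ℝ) by push_cast; ring]
    simpa only [Real.rpow_natCast] using h4
  refine ⟨B, hB1, up' p hp.pos h1, fun A _ _ H _ _ ψ c hc => ?_⟩
  set N := Fintype.card (A → Bool)
  have hN : (0 : ℝ) < N := by exact_mod_cast Fintype.card_pos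
  rcases eq_or_lt_of_le (norm_nonneg c) with h0 | h0
  · rw [← h0, Real.zero_rpow hp.pos.ne', mul_zero]
    exact mul_nonneg (by positivity) (sum_nonneg fun _ _ => by positivity)
  have e1 : ((N * ‖c‖ ^ 2 : ℝ) : ℂ) = ∑ ω, inner ℂ (∑ a, (sg (ω a) : ℂ) • c a) (ψ ω) := by
    rw [PiLp.norm_sq_eq_of_L2]
    simp only [sum_inner, inner_smul_left, Complex.conj_ofReal, mul_sum]
    rw [sum_comm]
    push_cast
    refine sum_congr rfl fun a _ => ?_
    have := congrArg (inner ℂ (c a)) (hc a)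
    simp only [inner_sum, inner_smul_right, inner_self_eq_norm_sq_to_K] at this
    exact this
  have e2 : N * ‖c‖ ^ 2 ≤ ∑ ω, ‖ψ ω‖ * ‖∑ a, (sg (ω a) : ℂ) • c a‖ := by
    calc _ ≤ ‖((N * ‖c‖ ^ 2 : ℝ) : ℂ)‖ := by
          rw [Complex.norm_real]; exact le_abs_self _
      _ ≤ _ := by
          rw [e1]
          refine (norm_sum_le _ _).trans (sum_le_sum fun ω _ => ?_)
          rw [mul_comm]; exact norm_inner_le_norm _ _
  have e3 := Real.inner_le_Lp_mul_Lq_of_nonneg univ hp (f := fun ω => ‖ψ ω‖)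
    (g := fun ω => ‖∑ a, (sg (ω a) : ℂ) • c a‖) (fun _ _ => norm_nonneg _)
    (fun _ _ => norm_nonneg _)
  have e4 : (∑ ω : A → Bool, ‖∑ a, (sg (ω a) : ℂ) • c a‖ ^ p') ^ (1 / p') ≤
      (N : ℝ) ^ (1 / p') * (B * ‖c‖) := by
    calc _ ≤ (N * (B * ‖c‖) ^ p') ^ (1 / p') :=
          Real.rpow_le_rpow (sum_nonneg fun _ _ => by positivity) (up' p' hp.symm.pos h2 A H c)
            hp.symm.one_div_nonneg
      _ = _ := by
          rw [Real.mul_rpow hN.le (by positivity), ← Real.rpow_mul (by positivity),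
            mul_one_div_cancel hp.symm.pos.ne', Real.rpow_one]
  set S := ∑ ω, ‖ψ ω‖ ^ p with hS
  have hS0 : 0 ≤ S := sum_nonneg fun _ _ => by positivity
  have e5 : (N : ℝ) = (N : ℝ) ^ (1 / p) * (N : ℝ) ^ (1 / p') := by
    rw [← Real.rpow_add hN, one_div, one_div, hp.inv_add_inv_eq_one, Real.rpow_one]
  have e6 : (N : ℝ) ^ (1 / p) * ‖c‖ ≤ B * S ^ (1 / p) := by
    have h7 : N * ‖c‖ ^ 2 ≤ S ^ (1 / p) * ((N : ℝ) ^ (1 / p') * (B * ‖c‖)) :=
      e2.trans (e3.trans (by gcongr))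
    have hpos : 0 < (N : ℝ) ^ (1 / p') * ‖c‖ := by positivity
    refine le_of_mul_le_mul_right ?_ hpos
    calc _ = ((N : ℝ) ^ (1 / p) * (N : ℝ) ^ (1 / p')) * ‖c‖ ^ 2 := by ring
      _ ≤ _ := by rw [← e5]; exact h7.trans (le_of_eq (by ring))
  have e7 := Real.rpow_le_rpow (by positivity) e6 hp.pos.le
  rw [Real.mul_rpow (by positivity) h0.le, Real.mul_rpow hB (by positivity),
    ← Real.rpow_mul hN.le, ← Real.rpow_mul hS0, one_div_mul_cancel hp.pos.ne', Real.rpow_one,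
    Real.rpow_one] at e7
  exact e7

end Pool.Agent.P.MP_419fe0_an
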