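import Pool.Agent.P.MP_419fe0_an.Ev

/-!
Diagonal operators, coordinate projections, localisation and compactness on `lp` sums.
-/

set_option linter.unusedSectionVars false

namespace Pool.Agent.P.MP_419fe0_an

open Filter Topology
open scoped ENNReal

/-- exponents strictly between one and infinity -/
class Good (p : ℝ≥0∞) : Prop where
  one_lt : 1 < p
  ne_top : p ≠ ⊤

variable {p : ℝ≥0∞} [Fact (1 ≤ p)]

lemma one_lt_pr [Good p] : 1 < p.toReal := by
  have := (ENNReal.toReal_lt_toReal ENNReal.one_ne_top (Good.ne_top (p := p))).2 Good.one_lt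
  simpa using this

lemma pr_pos [Good p] : 0 < p.toReal := zero_lt_one.trans one_lt_pr

lemma p_pos : 0 < p := zero_lt_one.trans_le Fact.out

variable {E F G : ℕ → Type*} [∀ i, NormedAddCommGroup (E i)] [∀ i, NormedSpace ℂ (E i)]
  [∀ i, NormedAddCommGroup (F i)] [∀ i, NormedSpace ℂ (F i)]
  [∀ i, NormedAddCommGroup (G i)] [∀ i, NormedSpace ℂ (G i)]
  {X : Type*} [NormedAddCommGroup X] [NormedSpace ℂ X]

/-- uniformly bounded family -/
def Bdd (T : ∀ i, E i →L[ℂ] F i) : Prop := ∃ K, ∀ i, ‖T i‖ ≤ K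

open Classical in
/-- the diagonal operator of a bounded family -/
noncomputable def diag (p : ℝ≥0∞) [Fact (1 ≤ p)] (T : ∀ i, E i →L[ℂ] F i) :
    lp E p →L[ℂ] lp F p :=
  if h : Bdd T then
    lp.mapCLM p T ((norm_nonneg _).trans (h.choose_spec 0)) h.choose_spec
  else 0

lemma diag_apply {T : ∀ i, E i →L[ℂ] F i} (h : Bdd T) (x : lp E p) (i : ℕ) :
    diag p T x i = T i (x i) := by
  unfold diag
  rw [dif_pos h]
  rfl

lemma norm_diag_le {T : ∀ i, E i →L[ℂ] F i} {K : ℝ} (h : ∀ i, ‖T i‖ ≤ K) : ‖diag p T‖ ≤ K := by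
  have hK : 0 ≤ K := (norm_nonneg _).trans (h 0)
  have : diag p T = lp.mapCLM p T hK h := by
    ext x i
    rw [diag_apply ⟨K, h⟩]; rfl
  rw [this]
  exact lp.norm_mapCLM_le p T hK h

lemma Bdd.comp {T : ∀ i, F i →L[ℂ] G i} {S : ∀ i, E i →L[ℂ] F i} (hT : Bdd T) (hS : Bdd S) :
    Bdd fun i => (T i).comp (S i) := by
  obtain ⟨K, hK⟩ := hT
  obtain ⟨L, hL⟩ := hS
  exact ⟨K * L, fun i => (ContinuousLinearMap.opNorm_comp_le _ _).trans
    (mul_le_mul (hK i) (hL i) (norm_nonneg _) ((norm_nonneg _).trans (hK i)))⟩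

lemma Bdd.add {T S : ∀ i, E i →L[ℂ] F i} (hT : Bdd T) (hS : Bdd S) :
    Bdd fun i => T i + S i := by
  obtain ⟨K, hK⟩ := hT
  obtain ⟨L, hL⟩ := hS
  exact ⟨K + L, fun i => (norm_add_le _ _).trans (add_le_add (hK i) (hL i))⟩

lemma Bdd.sub {T S : ∀ i, E i →L[ℂ] F i} (hT : Bdd T) (hS : Bdd S) :
    Bdd fun i => T i - S i := by
  obtain ⟨K, hK⟩ := hT
  obtain ⟨L, hL⟩ := hS
  exact ⟨K + L, fun i => (norm_sub_le _ _).trans (add_le_add (hK i) (hL i))⟩

lemma Bdd.one : Bdd fun i => (1 : E i →L[ℂ] E i) := ⟨1, fun _ => ContinuousLinearMap.norm_id_le⟩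

lemma Bdd.const {A B : Type*} [NormedAddCommGroup A] [NormedSpace ℂ A] [NormedAddCommGroup B]
    [NormedSpace ℂ B] (T : A →L[ℂ] B) : Bdd (E := fun _ => A) (F := fun _ => B) fun _ => T :=
  ⟨‖T‖, fun _ => le_rfl⟩

lemma diag_comp {T : ∀ i, F i →L[ℂ] G i} {S : ∀ i, E i →L[ℂ] F i} (hT : Bdd T) (hS : Bdd S) :
    (diag p T).comp (diag p S) = diag p fun i => (T i).comp (S i) := by
  ext x i
  simp [diag_apply hT, diag_apply hS, diag_apply (hT.comp hS)]

lemma diag_mul {T S : ∀ i, E i →L[ℂ] E i} (hT : Bdd T) (hS : Bdd S) :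
    diag p T * diag p S = diag p fun i => T i * S i := diag_comp hT hS

lemma diag_sub {T S : ∀ i, E i →L[ℂ] F i} (hT : Bdd T) (hS : Bdd S) :
    diag p T - diag p S = diag p fun i => T i - S i := by
  ext x i
  simp [diag_apply hT, diag_apply hS, diag_apply (hT.sub hS)]

lemma diag_add {T S : ∀ i, E i →L[ℂ] F i} (hT : Bdd T) (hS : Bdd S) :
    diag p T + diag p S = diag p fun i => T i + S i := by
  ext x i
  simp [diag_apply hT, diag_apply hS, diag_apply (hT.add hS)]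

lemma diag_one : diag p (fun i => (1 : E i →L[ℂ] E i)) = 1 := by
  ext x i
  simp [diag_apply Bdd.one]

open Classical in
/-- the coordinate projection onto a set of indices -/
noncomputable def ind (p : ℝ≥0∞) [Fact (1 ≤ p)] (E : ℕ → Type*) [∀ i, NormedAddCommGroup (E i)]
    [∀ i, NormedSpace ℂ (E i)] (U : Set ℕ) : lp E p →L[ℂ] lp E p :=
  diag p fun i => if i ∈ U then 1 else 0

open Classical in
lemma ind_bound (U : Set ℕ) (i : ℕ) : ‖(if i ∈ U then 1 else 0 : E i →L[ℂ] E i)‖ ≤ 1 := by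
  split_ifs
  · exact ContinuousLinearMap.norm_id_le
  · simp

open Classical in
lemma ind_apply (U : Set ℕ) (x : lp E p) (i : ℕ) :
    ind p E U x i = if i ∈ U then x i else 0 := by
  unfold ind
  rw [diag_apply ⟨1, ind_bound U⟩]
  split_ifs <;> simp

lemma ind_apply_mem {U : Set ℕ} (x : lp E p) {i : ℕ} (h : i ∈ U) : ind p E U x i = x i := by
  rw [ind_apply, if_pos h]

lemma ind_apply_notMem {U : Set ℕ} (x : lp E p) {i : ℕ} (h : i ∉ U) : ind p E U x i = 0 := by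
  rw [ind_apply, if_neg h]

lemma norm_ind_le (U : Set ℕ) : ‖ind p E U‖ ≤ 1 := norm_diag_le (ind_bound U)

lemma norm_ind_apply_le (U : Set ℕ) (x : lp E p) : ‖ind p E U x‖ ≤ ‖x‖ := by
  simpa using (ind p E U).le_of_opNorm_le (norm_ind_le U) x

lemma ind_ind (U V : Set ℕ) (x : lp E p) : ind p E U (ind p E V x) = ind p E (U ∩ V) x := by
  ext i
  simp only [ind_apply, Set.mem_inter_iff]
  by_cases h1 : i ∈ U <;> by_cases h2 : i ∈ V <;> simp [h1, h2]

lemma ind_mul (U V : Set ℕ) : ind p E U * ind p E V = ind p E (U ∩ V) :=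
  ContinuousLinearMap.ext fun x => ind_ind U V x

lemma ind_compl (U : Set ℕ) : ind p E Uᶜ = 1 - ind p E U := by
  ext x i
  by_cases h1 : i ∈ U <;> simp [ind_apply, h1]

lemma ind_eq_self {U : Set ℕ} {x : lp E p} (h : ∀ i ∉ U, x i = 0) : ind p E U x = x := by
  ext i
  by_cases h1 : i ∈ U
  · rw [ind_apply_mem _ h1]
  · rw [ind_apply_notMem _ h1, h i h1]

lemma ind_diag {T : ∀ i, E i →L[ℂ] F i} (h : Bdd T) (U : Set ℕ) (x : lp E p) :
    ind p F U (diag p T x) = diag p T (ind p E U x) := by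
  ext i
  by_cases h1 : i ∈ U <;> simp [ind_apply, diag_apply h, h1]

lemma ind_comp_diag {T : ∀ i, E i →L[ℂ] F i} (h : Bdd T) (U : Set ℕ) :
    (ind p F U).comp (diag p T) = (diag p T).comp (ind p E U) :=
  ContinuousLinearMap.ext fun x => ind_diag h U x

lemma ind_singleton (k : ℕ) (x : lp E p) : ind p E {k} x = lp.single p k (x k) := by
  ext i
  by_cases h : i = k
  · subst h; rw [ind_apply_mem _ (Set.mem_singleton _), lp.single_apply_self]
  · rw [ind_apply_notMem _ (by simpa using h), lp.single_apply_ne _ _ _ h]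

lemma norm_ind_singleton (k : ℕ) (x : lp E p) : ‖ind p E {k} x‖ = ‖x k‖ := by
  rw [ind_singleton, lp.norm_single p_pos]

lemma norm_comp_ind_mono (A : lp E p →L[ℂ] X) {U V : Set ℕ} (h : U ⊆ V) :
    ‖A.comp (ind p E U)‖ ≤ ‖A.comp (ind p E V)‖ := by
  have : A.comp (ind p E U) = (A.comp (ind p E V)).comp (ind p E U) := by
    ext x; simp [ind_ind, Set.inter_eq_right.2 h]
  rw [this]
  refine (ContinuousLinearMap.opNorm_comp_le _ _).trans ?_
  exact mul_le_of_le_one_right (norm_nonneg _) (norm_ind_le U)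

lemma norm_ind_comp_mono (A : X →L[ℂ] lp E p) {U V : Set ℕ} (h : U ⊆ V) :
    ‖(ind p E U).comp A‖ ≤ ‖(ind p E V).comp A‖ := by
  have : (ind p E U).comp A = (ind p E U).comp ((ind p E V).comp A) := by
    ext1 x; simp [ind_ind, Set.inter_eq_left.2 h]
  rw [this]
  refine (ContinuousLinearMap.opNorm_comp_le _ _).trans ?_
  exact mul_le_of_le_one_left (norm_nonneg _) (norm_ind_le U)

lemma ind_finset (s : Finset ℕ) (x : lp E p) :
    ind p E s x = ∑ i ∈ s, lp.single p i (x i) := by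
  ext i
  simp only [lp.coeFn_sum, lp.coeFn_single, Finset.sum_apply, Finset.sum_pi_single, ind_apply]
  by_cases h : i ∈ s <;> simp [h]

lemma ind_finset_comp (s : Finset ℕ) : ind p E s =
    ∑ i ∈ s, (lp.singleContinuousLinearMap ℂ E p i).comp (lp.evalCLM ℂ E p i) := by
  ext1 x
  rw [ind_finset]
  simp only [sum_apply]
  rfl

lemma ind_comp_cpt {A : X →L[ℂ] lp E p} (h : ∀ i, Cpt ((lp.evalCLM ℂ E p i).comp A))
    {U : Set ℕ} (hU : U.Finite) : Cpt ((ind p E U).comp A) := by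
  obtain ⟨s, rfl⟩ := hU.exists_finset_coe
  rw [ind_finset_comp, ContinuousLinearMap.finsetSum_comp]
  exact Cpt.sum _ fun i _ => (h i).comp_left (lp.singleContinuousLinearMap ℂ E p i)

lemma comp_ind_cpt {A : lp E p →L[ℂ] X}
    (h : ∀ i, Cpt (A.comp (lp.singleContinuousLinearMap ℂ E p i))) {U : Set ℕ} (hU : U.Finite) :
    Cpt (A.comp (ind p E U)) := by
  obtain ⟨s, rfl⟩ := hU.exists_finset_coe
  rw [ind_finset_comp, ContinuousLinearMap.comp_finsetSum]
  exact Cpt.sum _ fun i _ => (h i).comp_right _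

lemma ind_cpt [∀ i, FiniteDimensional ℂ (E i)] {U : Set ℕ} (hU : U.Finite) :
    Cpt (ind p E U) :=
  ind_comp_cpt (A := 1) (fun _ => Cpt.of_fd_cod _) hU

variable [Good p]

lemma tendsto_ind_Iio (x : lp E p) : Tendsto (fun n => ind p E (Set.Iio n) x) atTop (𝓝 x) := by
  have := (lp.hasSum_single (Good.ne_top (p := p)) x).tendsto_sum_nat
  refine this.congr fun n => ?_
  rw [← ind_finset, Finset.coe_range]

lemma tendsto_ind_Ici (x : lp E p) :
    Tendsto (fun n => ‖ind p E (Set.Ici n) x‖) atTop (𝓝 0) := by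
  have := ((tendsto_const_nhds (x := x)).sub (tendsto_ind_Iio x)).norm
  rw [sub_self, norm_zero] at this
  refine this.congr fun n => ?_
  rw [← Set.compl_Iio, ind_compl]; simp

/-- bounded overlap of a family of windows -/
def Ovl {ι : Type*} (V : ι → Set ℕ) (L : ℕ) : Prop :=
  ∀ (i : ℕ) (s : Finset ι), (∀ a ∈ s, i ∈ V a) → s.card ≤ L

lemma loc_col {ι : Type*} {V : ι → Set ℕ} {L : ℕ} (hV : Ovl V L) (x : lp E p) (s : Finset ι) :
    ∑ a ∈ s, ‖ind p E (V a) x‖ ^ p.toReal ≤ L * ‖x‖ ^ p.toReal := by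
  classical
  refine hasSum_le (fun i => ?_)
    (hasSum_sum fun a _ => lp.hasSum_norm pr_pos (ind p E (V a) x))
    ((lp.hasSum_norm pr_pos x).mul_left (L : ℝ))
  have : ∑ a ∈ s, ‖ind p E (V a) x i‖ ^ p.toReal =
      ∑ a ∈ s with i ∈ V a, ‖x i‖ ^ p.toReal := by
    rw [Finset.sum_filter]
    refine Finset.sum_congr rfl fun a _ => ?_
    rw [ind_apply]
    split_ifs
    · rfl
    · simp [(pr_pos (p := p)).ne']
  rw [this, Finset.sum_const, nsmul_eq_mul]
  gcongr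
  exact_mod_cast hV i _ fun a ha => (Finset.mem_filter.1 ha).2

lemma loc_row {ι : Type*} {V : ι → Set ℕ} {L : ℕ} (hL : 1 ≤ L) (hV : Ovl V L)
    (v : ι → lp E p) (hv : ∀ a, ∀ i ∉ V a, v a i = 0) (s : Finset ι) :
    ‖∑ a ∈ s, v a‖ ^ p.toReal ≤ (L : ℝ) ^ p.toReal * ∑ a ∈ s, ‖v a‖ ^ p.toReal := by
  classical
  refine hasSum_le (fun i => ?_) (lp.hasSum_norm pr_pos _)
    ((hasSum_sum fun a _ => lp.hasSum_norm pr_pos (v a)).mul_left _)
  have hp := one_lt_pr (p := p)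
  have h1 : ‖(∑ a ∈ s, v a) i‖ ≤ ∑ a ∈ s with i ∈ V a, ‖v a i‖ := by
    rw [lp.coeFn_sum, Finset.sum_apply, Finset.sum_filter]
    refine (norm_sum_le _ _).trans (Finset.sum_le_sum fun a _ => ?_)
    split_ifs with h
    · rfl
    · rw [hv a i h, norm_zero]
  have hc : ((s.filter fun a => i ∈ V a).card : ℝ) ≤ L := by
    exact_mod_cast hV i _ fun a ha => (Finset.mem_filter.1 ha).2
  have hL' : (1 : ℝ) ≤ L := by exact_mod_cast hL
  calc ‖(∑ a ∈ s, v a) i‖ ^ p.toReal ≤ (∑ a ∈ s with i ∈ V a, ‖v a i‖) ^ p.toReal := by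
        gcongr
    _ ≤ ((s.filter fun a => i ∈ V a).card : ℝ) ^ (p.toReal - 1) *
          ∑ a ∈ s with i ∈ V a, ‖v a i‖ ^ p.toReal :=
        Real.rpow_sum_le_const_mul_sum_rpow_of_nonneg _ hp.le fun _ _ => norm_nonneg _
    _ ≤ (L : ℝ) ^ p.toReal * ∑ a ∈ s, ‖v a i‖ ^ p.toReal := by
        refine mul_le_mul ?_ ?_ (Finset.sum_nonneg fun _ _ => by positivity) (by positivity)
        · calc _ ≤ (L : ℝ) ^ (p.toReal - 1) := by gcongr
            _ ≤ _ := Real.rpow_le_rpow_of_exponent_le hL' (by linarith)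
        · exact Finset.sum_le_sum_of_subset_of_nonneg (Finset.filter_subset _ _)
            fun _ _ _ => by positivity

lemma norm_le_of_fibres (pos : ℕ → ℕ) (y : lp E p) {C : ℝ} (hC : 0 ≤ C)
    (h : ∀ s : Finset ℕ, ∑ k ∈ s, ‖ind p E (pos ⁻¹' {k}) y‖ ^ p.toReal ≤ C ^ p.toReal) :
    ‖y‖ ≤ C := by
  classical
  refine lp.norm_le_of_forall_sum_le pr_pos hC fun s => ?_
  refine le_trans ?_ (h (s.image pos))
  rw [← Finset.sum_fiberwise_of_maps_to (g := pos) (t := s.image pos)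
    fun i hi => Finset.mem_image_of_mem _ hi]
  refine Finset.sum_le_sum fun k _ => ?_
  refine le_trans (le_of_eq ?_) (lp.sum_rpow_le_norm_rpow pr_pos _ (s.filter fun i => pos i = k))
  refine Finset.sum_congr rfl fun i hi => ?_
  rw [ind_apply_mem]
  exact (Finset.mem_filter.1 hi).2

lemma tail_left {K : X →L[ℂ] lp E p} (hK : Cpt K) {ε : ℝ} (hε : 0 < ε) :
    ∃ n, ‖(ind p E (Set.Ici n)).comp K‖ ≤ ε := by
  obtain ⟨C, hC, hKC⟩ := IsCompactOperator.image_closedBall_subset_compact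
    (f := (K : X →ₗ[ℂ] lp E p)) hK 1
  obtain ⟨n, hn⟩ := hC.elim_directed_cover (fun n : ℕ => {y | ‖ind p E (Set.Ici n) y‖ < ε})
    (fun n => isOpen_lt (by fun_prop) continuous_const)
    (fun y _ => by
      obtain ⟨n, hn⟩ := ((tendsto_ind_Ici y).eventually (gt_mem_nhds hε)).exists
      exact Set.mem_iUnion.2 ⟨n, hn⟩)
    (Monotone.directed_le fun m n hmn y hy => by
      refine lt_of_le_of_lt ?_ (show ‖ind p E (Set.Ici m) y‖ < ε from hy)
      have : ind p E (Set.Ici n) y = ind p E (Set.Ici n) (ind p E (Set.Ici m) y) := by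
        rw [ind_ind, Set.inter_eq_left.2 (Set.Ici_subset_Ici.2 hmn)]
      rw [this]
      exact norm_ind_apply_le _ _)
  refine ⟨n, ContinuousLinearMap.opNorm_le_of_unit_norm hε.le fun x hx => ?_⟩
  exact (hn (hKC ⟨x, by simp [hx], rfl⟩)).le

lemma tail_right {K : lp E p →L[ℂ] X} (hK : Cpt K) {ε : ℝ} (hε : 0 < ε) :
    ∃ n, ‖K.comp (ind p E (Set.Ici n))‖ ≤ ε := by
  by_contra! hcon
  have step : ∀ n, ∃ m, ∃ y : lp E p, n ≤ m ∧ ‖y‖ ≤ 1 ∧ (∀ i ∉ Set.Ico n m, y i = 0) ∧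
      ε < ‖K y‖ := by
    intro n
    obtain ⟨x, hx1, hx2⟩ := ContinuousLinearMap.exists_lt_apply_of_lt_opNorm _ (hcon n)
    have ht : Tendsto (fun m => ‖K (ind p E (Set.Iio m) (ind p E (Set.Ici n) x))‖) atTop
        (𝓝 ‖K (ind p E (Set.Ici n) x)‖) :=
      ((K.continuous.tendsto _).comp (tendsto_ind_Iio _)).norm
    obtain ⟨m, hm1, hm2⟩ := ((ht.eventually (lt_mem_nhds hx2)).and (eventually_ge_atTop n)).exists
    refine ⟨m, _, hm2, ?_, ?_, hm1⟩
    · exact (norm_ind_apply_le _ _).trans ((norm_ind_apply_le _ _).trans hx1.le)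
    · intro i hi
      rw [ind_ind, ind_apply_notMem]
      exact fun h => hi ⟨h.2, h.1⟩
  choose m y hm hy1 hy2 hy3 using step
  let N : ℕ → ℕ := fun l => m^[l] 0
  have hN : ∀ l, N (l + 1) = m (N l) := fun l => Function.iterate_succ_apply' _ _ _
  have hNmono : Monotone N := monotone_nat_of_le_succ fun l => by rw [hN]; exact hm _
  obtain ⟨C, hC, hKC⟩ := IsCompactOperator.image_closedBall_subset_compact
    (f := (K : lp E p →ₗ[ℂ] X)) hK 1
  obtain ⟨w, -, φ, hφ, hw⟩ := hC.tendsto_subseq (x := fun l => K (y (N l)))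
    fun l => hKC ⟨_, by simpa using hy1 _, rfl⟩
  have hwε : ε ≤ ‖w‖ := ge_of_tendsto' hw.norm fun l => (hy3 _).le
  obtain ⟨l₀, hl₀⟩ := (Metric.tendsto_atTop.1 hw) (ε / 2) (by linarith)
  have hov : Ovl (fun l => Set.Ico (N (φ l)) (m (N (φ l)))) 1 := by
    intro i s hs
    refine Finset.card_le_one.2 fun a ha b hb => ?_
    by_contra hab
    wlog hlt : a < b generalizing a b
    · exact this b hb a ha (Ne.symm hab) (by omega)
    have h1 := (hs a ha).2
    have h2 := (hs b hb).1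
    have h3 : N (φ a + 1) ≤ N (φ b) := hNmono (hφ hlt)
    rw [hN] at h3
    omega
  have key : ∀ L : ℕ, L * (ε / 2) ≤ ‖K‖ * (L : ℝ) ^ (1 / p.toReal) := by
    intro L
    have h1 := loc_row (p := p) le_rfl hov (fun l => y (N (φ l))) (fun l => hy2 _)
      (Finset.Ico l₀ (l₀ + L))
    have h2 : ∑ a ∈ Finset.Ico l₀ (l₀ + L), ‖y (N (φ a))‖ ^ p.toReal ≤ L := by
      calc _ ≤ ∑ a ∈ Finset.Ico l₀ (l₀ + L), (1 : ℝ) :=
            Finset.sum_le_sum fun a _ => Real.rpow_le_one (norm_nonneg _) (hy1 _) pr_pos.le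
        _ = L := by simp
    have h3 : ‖∑ a ∈ Finset.Ico l₀ (l₀ + L), y (N (φ a))‖ ≤ (L : ℝ) ^ (1 / p.toReal) := by
      rw [one_div, Real.le_rpow_inv_iff_of_pos (norm_nonneg _) (Nat.cast_nonneg _) pr_pos]
      simpa using h1.trans (by simpa using h2)
    have h4 : ‖K (∑ a ∈ Finset.Ico l₀ (l₀ + L), y (N (φ a))) - (L : ℂ) • w‖ ≤ L * (ε / 2) := by
      have : K (∑ a ∈ Finset.Ico l₀ (l₀ + L), y (N (φ a))) - (L : ℂ) • w =
          ∑ a ∈ Finset.Ico l₀ (l₀ + L), (K (y (N (φ a))) - w) := by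
        simp [Finset.sum_sub_distrib, Nat.cast_smul_eq_nsmul]
      rw [this]
      calc _ ≤ ∑ a ∈ Finset.Ico l₀ (l₀ + L), ε / 2 := by
            refine (norm_sum_le _ _).trans (Finset.sum_le_sum fun a ha => ?_)
            have := hl₀ a (Finset.mem_Ico.1 ha).1
            rw [dist_eq_norm] at this
            exact this.le
        _ = _ := by simp
    have h5 : L * ε ≤ ‖(L : ℂ) • w‖ := by
      rw [norm_smul, Complex.norm_natCast]; gcongr
    have h6 := K.le_of_opNorm_le le_rfl (∑ a ∈ Finset.Ico l₀ (l₀ + L), y (N (φ a)))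
    have h7 := norm_sub_norm_le ((L : ℂ) • w) (K (∑ a ∈ Finset.Ico l₀ (l₀ + L), y (N (φ a))))
    rw [norm_sub_rev] at h7
    have h8 : ‖K‖ * ‖∑ a ∈ Finset.Ico l₀ (l₀ + L), y (N (φ a))‖ ≤
        ‖K‖ * (L : ℝ) ^ (1 / p.toReal) := by gcongr
    linarith
  have hexp : 0 < 1 - 1 / p.toReal := by
    have := one_lt_pr (p := p)
    rw [sub_pos, div_lt_one pr_pos]; exact this
  have ht : Tendsto (fun L : ℕ => (L : ℝ) ^ (1 - 1 / p.toReal) * (ε / 2)) atTop atTop :=
    ((tendsto_rpow_atTop hexp).comp tendsto_natCast_atTop_atTop).atTop_mul_const (by linarith)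
  obtain ⟨L, hL1, hL2⟩ := ((ht.eventually_gt_atTop ‖K‖).and (eventually_gt_atTop 0)).exists
  have hLpos : (0 : ℝ) < L := by exact_mod_cast hL2
  have h9 : (L : ℝ) ^ (1 - 1 / p.toReal) * (L : ℝ) ^ (1 / p.toReal) = L := by
    rw [← Real.rpow_add hLpos]; simp
  have h10 := key L
  have h11 : 0 < (L : ℝ) ^ (1 / p.toReal) := Real.rpow_pos_of_pos hLpos _
  nlinarith [mul_lt_mul_of_pos_right hL1 h11]

end Pool.Agent.P.MP_419fe0_an
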