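import Pool.Agent.P.MP_419fe0_an.Lp

/-!
Column and row operators, localised norm bounds and compactness criteria.
-/

set_option linter.unusedSectionVars false

namespace Pool.Agent.P.MP_419fe0_an

open Filter Topology
open scoped ENNReal

variable {p : ℝ≥0∞} [Fact (1 ≤ p)] [Good p]

variable {E F G : ℕ → Type*} [∀ i, NormedAddCommGroup (E i)] [∀ i, NormedSpace ℂ (E i)]
  [∀ i, NormedAddCommGroup (F i)] [∀ i, NormedSpace ℂ (F i)]
  [∀ i, NormedAddCommGroup (G i)] [∀ i, NormedSpace ℂ (G i)]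
  {X : Type*} [NormedAddCommGroup X] [NormedSpace ℂ X]

lemma exists_col (B : ∀ a, X →L[ℂ] F a) {c : ℝ} (hc : 0 ≤ c)
    (h : ∀ (x : X) (s : Finset ℕ), ∑ a ∈ s, ‖B a x‖ ^ p.toReal ≤ (c * ‖x‖) ^ p.toReal) :
    ∃ A : X →L[ℂ] lp F p, (∀ x a, A x a = B a x) ∧ ‖A‖ ≤ c := by
  let A₀ : X →ₗ[ℂ] lp F p :=
    { toFun := fun x => ⟨fun a => B a x, memℓp_gen' (h x)⟩
      map_add' := fun x y => lp.ext (funext fun a => map_add (B a) x y)
      map_smul' := fun c x => lp.ext (funext fun a => map_smul (B a) c x) }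
  have hb : ∀ x, ‖A₀ x‖ ≤ c * ‖x‖ := fun x =>
    lp.norm_le_of_forall_sum_le pr_pos (by positivity) (h x)
  exact ⟨A₀.mkContinuous c hb, fun _ _ => rfl, LinearMap.mkContinuous_norm_le _ hc _⟩

lemma norm_le_of_row (A : lp E p →L[ℂ] X) {c : ℝ} (hc : 0 ≤ c)
    (h : ∀ (y : ∀ a, E a) (s : Finset ℕ), ‖∑ a ∈ s, A (lp.single p a (y a))‖ ^ p.toReal ≤
      c ^ p.toReal * ∑ a ∈ s, ‖y a‖ ^ p.toReal) : ‖A‖ ≤ c := by
  refine ContinuousLinearMap.opNorm_le_bound _ hc fun y => ?_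
  have hs := ((lp.hasSum_single (Good.ne_top (p := p)) y).mapL A).tendsto_sum_nat.norm
  refine le_of_tendsto' hs fun n => ?_
  rw [← Real.rpow_le_rpow_iff (norm_nonneg _) (by positivity) (pr_pos (p := p)),
    Real.mul_rpow hc (norm_nonneg _)]
  refine (h y _).trans ?_
  gcongr
  exact lp.sum_rpow_le_norm_rpow pr_pos y _

lemma exists_row [CompleteSpace X] (B : ∀ a, E a →L[ℂ] X) {c : ℝ} (hc : 0 ≤ c)
    (h : ∀ (y : ∀ a, E a) (s : Finset ℕ), ‖∑ a ∈ s, B a (y a)‖ ^ p.toReal ≤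
      c ^ p.toReal * ∑ a ∈ s, ‖y a‖ ^ p.toReal) :
    ∃ A : lp E p →L[ℂ] X, (∀ a y, A (lp.single p a y) = B a y) ∧ ‖A‖ ≤ c := by
  have hsum : ∀ y : lp E p, Summable fun a => B a (y a) := by
    intro y
    rw [summable_iff_vanishing_norm]
    intro ε hε
    have h1 := (lp.hasSum_norm pr_pos y).summable
    rw [summable_iff_vanishing_norm] at h1
    have hcp : 0 ≤ c ^ p.toReal := by positivity
    obtain ⟨s, hs⟩ := h1 (ε ^ p.toReal / (c ^ p.toReal + 1)) (by positivity)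
    refine ⟨s, fun t ht => ?_⟩
    rw [← Real.rpow_lt_rpow_iff (norm_nonneg _) hε.le (pr_pos (p := p))]
    refine (h y t).trans_lt ?_
    have h2 := (le_abs_self _).trans_lt (hs t ht)
    rw [lt_div_iff₀ (by positivity)] at h2
    have h3 : 0 ≤ ∑ a ∈ t, ‖y a‖ ^ p.toReal := Finset.sum_nonneg fun _ _ => by positivity
    nlinarith
  let A₀ : lp E p →ₗ[ℂ] X :=
    { toFun := fun y => ∑' a, B a (y a)
      map_add' := fun x y => by
        rw [← (hsum x).tsum_add (hsum y)]; simp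
      map_smul' := fun c x => by
        rw [RingHom.id_apply, ← (hsum x).tsum_const_smul]; simp }
  have hb : ∀ y, ‖A₀ y‖ ≤ c * ‖y‖ := fun y => by
    have hs := (hsum y).hasSum.tendsto_sum_nat.norm
    refine le_of_tendsto' hs fun n => ?_
    rw [← Real.rpow_le_rpow_iff (norm_nonneg _) (by positivity) (pr_pos (p := p)),
      Real.mul_rpow hc (norm_nonneg _)]
    refine (h y _).trans ?_
    gcongr
    exact lp.sum_rpow_le_norm_rpow pr_pos y _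
  refine ⟨A₀.mkContinuous c hb, fun a y => ?_, LinearMap.mkContinuous_norm_le _ hc _⟩
  change ∑' b, B b (lp.single p a y b) = B a y
  rw [tsum_eq_single a]
  · rw [lp.single_apply_self]
  · intro b hb
    rw [lp.single_apply_ne _ _ _ hb, map_zero]

lemma col_sum_bound {V : ℕ → Set ℕ} {L : ℕ} (hL : 1 ≤ L) (hV : Ovl V L) {c : ℝ} (hc : 0 ≤ c)
    (x : lp G p) (r : ℕ → ℝ) (hr0 : ∀ a, 0 ≤ r a) (hr : ∀ a, r a ≤ c * ‖ind p G (V a) x‖)
    (s : Finset ℕ) : ∑ a ∈ s, r a ^ p.toReal ≤ (L * c * ‖x‖) ^ p.toReal := by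
  have hp := one_lt_pr (p := p)
  have hL' : (1 : ℝ) ≤ L := by exact_mod_cast hL
  calc _ ≤ ∑ a ∈ s, c ^ p.toReal * ‖ind p G (V a) x‖ ^ p.toReal := by
        refine Finset.sum_le_sum fun a _ => ?_
        rw [← Real.mul_rpow hc (norm_nonneg _)]
        exact Real.rpow_le_rpow (hr0 a) (hr a) (by linarith)
    _ ≤ c ^ p.toReal * (L * ‖x‖ ^ p.toReal) := by
        rw [← Finset.mul_sum]; gcongr; exact loc_col hV x s
    _ ≤ c ^ p.toReal * ((L : ℝ) ^ p.toReal * ‖x‖ ^ p.toReal) := by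
        gcongr
        simpa using Real.rpow_le_rpow_of_exponent_le hL' hp.le
    _ = _ := by
        rw [Real.mul_rpow (by positivity) (norm_nonneg _), Real.mul_rpow (by positivity) hc]; ring

lemma exists_col_loc {V : ℕ → Set ℕ} {L : ℕ} (hL : 1 ≤ L) (hV : Ovl V L)
    (B : ∀ a, lp G p →L[ℂ] F a) {c : ℝ} (hc : 0 ≤ c)
    (h : ∀ a x, ‖B a x‖ ≤ c * ‖ind p G (V a) x‖) :
    ∃ A : lp G p →L[ℂ] lp F p, (∀ x a, A x a = B a x) ∧ ‖A‖ ≤ L * c :=
  exists_col B (by positivity) fun x s =>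
    col_sum_bound hL hV hc x _ (fun _ => norm_nonneg _) (fun a => h a x) s

lemma col_loc_norm {V : ℕ → Set ℕ} {L : ℕ} (hL : 1 ≤ L) (hV : Ovl V L)
    (A : lp G p →L[ℂ] lp F p) {c : ℝ} (hc : 0 ≤ c)
    (h : ∀ a x, ‖A x a‖ ≤ c * ‖ind p G (V a) x‖) : ‖A‖ ≤ L * c :=
  ContinuousLinearMap.opNorm_le_bound _ (by positivity) fun x =>
    lp.norm_le_of_forall_sum_le pr_pos (by positivity)
      (col_sum_bound hL hV hc x _ (fun _ => norm_nonneg _) (fun a => h a x))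

lemma cpt_of_tail_left [∀ i, CompleteSpace (F i)] {A : X →L[ℂ] lp F p}
    (h1 : ∀ a, Cpt ((lp.evalCLM ℂ F p a).comp A))
    (h2 : ∀ ε > 0, ∃ n, ‖(ind p F (Set.Ici n)).comp A‖ ≤ ε) : Cpt A := by
  refine Cpt.of_approx fun ε hε => ?_
  obtain ⟨n, hn⟩ := h2 ε hε
  refine ⟨_, ind_comp_cpt h1 (Set.finite_Iio n), ?_⟩
  convert hn using 2
  rw [← Set.compl_Iio, ind_compl]
  ext1 x; simp

lemma cpt_of_tail_right [CompleteSpace X] {A : lp E p →L[ℂ] X}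
    (h1 : ∀ a, Cpt (A.comp (lp.singleContinuousLinearMap ℂ E p a)))
    (h2 : ∀ ε > 0, ∃ n, ‖A.comp (ind p E (Set.Ici n))‖ ≤ ε) : Cpt A := by
  refine Cpt.of_approx fun ε hε => ?_
  obtain ⟨n, hn⟩ := h2 ε hε
  refine ⟨_, comp_ind_cpt h1 (Set.finite_Iio n), ?_⟩
  convert hn using 2
  rw [← Set.compl_Iio, ind_compl]
  ext1 x; simp

lemma col_loc_cpt [∀ i, CompleteSpace (F i)] {V : ℕ → Set ℕ} {L : ℕ} (hL : 1 ≤ L)
    (hV : Ovl V L) (A : lp G p →L[ℂ] lp F p) {c : ℕ → ℝ} (hc : Tendsto c atTop (𝓝 0))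
    (h : ∀ a x, ‖A x a‖ ≤ c a * ‖ind p G (V a) x‖)
    (h1 : ∀ a, Cpt ((lp.evalCLM ℂ F p a).comp A)) : Cpt A := by
  refine cpt_of_tail_left h1 fun ε hε => ?_
  have hL' : (0 : ℝ) < L := by exact_mod_cast hL
  obtain ⟨n, hn⟩ := eventually_atTop.1 (hc.eventually (gt_mem_nhds (div_pos hε hL')))
  refine ⟨n, (col_loc_norm hL hV _ (div_pos hε hL').le fun a x => ?_).trans
    (le_of_eq (by field_simp))⟩
  rw [ContinuousLinearMap.comp_apply, ind_apply]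
  split_ifs with ha
  · exact (h a x).trans (by gcongr; exact (hn a ha).le)
  · rw [norm_zero]; positivity

lemma row_sum_bound {V : ℕ → Set ℕ} {L : ℕ} (hL : 1 ≤ L) (hV : Ovl V L) {c : ℝ} (hc : 0 ≤ c)
    (v : ℕ → lp G p) (hv : ∀ a, ∀ i ∉ V a, v a i = 0) (y : ∀ a, E a)
    (h : ∀ a, ‖v a‖ ≤ c * ‖y a‖) (s : Finset ℕ) :
    ‖∑ a ∈ s, v a‖ ^ p.toReal ≤ (L * c) ^ p.toReal * ∑ a ∈ s, ‖y a‖ ^ p.toReal := by
  refine (loc_row hL hV v hv s).trans ?_
  rw [Real.mul_rpow (by positivity) hc, mul_assoc, Finset.mul_sum (a := c ^ p.toReal)]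
  gcongr with a
  rw [← Real.mul_rpow hc (norm_nonneg _)]
  exact Real.rpow_le_rpow (norm_nonneg _) (h a) pr_pos.le

lemma exists_row_loc [∀ i, CompleteSpace (G i)] {V : ℕ → Set ℕ} {L : ℕ} (hL : 1 ≤ L)
    (hV : Ovl V L) (B : ∀ a, E a →L[ℂ] lp G p) {c : ℝ} (hc : 0 ≤ c)
    (h : ∀ a y, ‖B a y‖ ≤ c * ‖y‖) (h' : ∀ a y, ∀ i ∉ V a, B a y i = 0) :
    ∃ A : lp E p →L[ℂ] lp G p, (∀ a y, A (lp.single p a y) = B a y) ∧ ‖A‖ ≤ L * c :=
  exists_row B (by positivity) fun y s =>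
    row_sum_bound hL hV hc _ (fun a => h' a (y a)) y (fun a => h a (y a)) s

lemma row_loc_norm {V : ℕ → Set ℕ} {L : ℕ} (hL : 1 ≤ L) (hV : Ovl V L)
    (A : lp E p →L[ℂ] lp G p) {c : ℝ} (hc : 0 ≤ c)
    (h : ∀ a y, ‖A (lp.single p a y)‖ ≤ c * ‖y‖)
    (h' : ∀ a y, ∀ i ∉ V a, A (lp.single p a y) i = 0) : ‖A‖ ≤ L * c :=
  norm_le_of_row A (by positivity) fun y s =>
    row_sum_bound hL hV hc _ (fun a => h' a (y a)) y (fun a => h a (y a)) s

lemma ind_single_mem {U : Set ℕ} {a : ℕ} (ha : a ∈ U) (y : E a) :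
    ind p E U (lp.single p a y) = lp.single p a y :=
  ind_eq_self fun _ hi => lp.single_apply_ne _ _ _ fun h => hi (h ▸ ha)

lemma ind_single_notMem {U : Set ℕ} {a : ℕ} (ha : a ∉ U) (y : E a) :
    ind p E U (lp.single p a y) = 0 := by
  ext i
  by_cases hi : i ∈ U
  · have : i ≠ a := fun h => ha (h ▸ hi)
    rw [ind_apply_mem _ hi, lp.single_apply_ne _ _ _ this]; simp
  · rw [ind_apply_notMem _ hi]; simp

lemma row_loc_cpt [∀ i, CompleteSpace (G i)] {V : ℕ → Set ℕ} {L : ℕ} (hL : 1 ≤ L)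
    (hV : Ovl V L) (A : lp E p →L[ℂ] lp G p) {c : ℕ → ℝ} (hc : Tendsto c atTop (𝓝 0))
    (h : ∀ a y, ‖A (lp.single p a y)‖ ≤ c a * ‖y‖)
    (h' : ∀ a y, ∀ i ∉ V a, A (lp.single p a y) i = 0)
    (h1 : ∀ a, Cpt (A.comp (lp.singleContinuousLinearMap ℂ E p a))) : Cpt A := by
  refine cpt_of_tail_right h1 fun ε hε => ?_
  have hL' : (0 : ℝ) < L := by exact_mod_cast hL
  obtain ⟨n, hn⟩ := eventually_atTop.1 (hc.eventually (gt_mem_nhds (div_pos hε hL')))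
  refine ⟨n, (row_loc_norm hL hV _ (div_pos hε hL').le (fun a y => ?_) (fun a y i hi => ?_)).trans
    (le_of_eq (by field_simp))⟩
  · rw [ContinuousLinearMap.comp_apply]
    by_cases ha : a ∈ Set.Ici n
    · rw [ind_single_mem ha]
      exact (h a y).trans (by gcongr; exact (hn a ha).le)
    · rw [ind_single_notMem ha, map_zero, norm_zero]; positivity
  · rw [ContinuousLinearMap.comp_apply]
    by_cases ha : a ∈ Set.Ici n
    · rw [ind_single_mem ha]; exact h' a y i hi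
    · rw [ind_single_notMem ha, map_zero]; simp

lemma ovl_singleton : Ovl (fun a : ℕ => ({a} : Set ℕ)) 1 := fun _ _ hs =>
  Finset.card_le_one.2 fun a ha b hb => (hs a ha).symm.trans (hs b hb)

lemma ovl_succ : Ovl (fun a : ℕ => ({a + 1} : Set ℕ)) 1 := fun _ _ hs =>
  Finset.card_le_one.2 fun a ha b hb => by
    have := (hs a ha).symm.trans (hs b hb)
    omega

lemma ovl_of_diam {V : ℕ → Set ℕ} {L : ℕ}
    (h : ∀ i a b, i ∈ V a → i ∈ V b → b < a + L) : Ovl V L := by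
  intro i s hs
  rcases s.eq_empty_or_nonempty with rfl | hne
  · simp
  · have : s ⊆ Finset.Ico (s.min' hne) (s.min' hne + L) := fun b hb =>
      Finset.mem_Ico.2 ⟨s.min'_le b hb, h i _ _ (hs _ (s.min'_mem hne)) (hs b hb)⟩
    simpa using Finset.card_le_card this

lemma ovl_pred : Ovl (fun a : ℕ => ({a - 1} : Set ℕ)) 2 :=
  ovl_of_diam fun i a b ha hb => by
    have := ha.symm.trans hb
    omega

lemma diag_cpt [∀ i, CompleteSpace (F i)] {T : ∀ i, E i →L[ℂ] F i} (hb : Bdd T)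
    (h1 : ∀ i, Cpt (T i)) (h2 : Tendsto (fun i => ‖T i‖) atTop (𝓝 0)) : Cpt (diag p T) := by
  refine col_loc_cpt le_rfl ovl_singleton _ h2 (fun a x => ?_) fun a => ?_
  · rw [diag_apply hb, norm_ind_singleton]; exact (T a).le_opNorm _
  · refine ((h1 a).comp_right (lp.evalCLM ℂ E p a)).of_eq ?_
    ext1 x
    exact diag_apply hb x a

lemma exists_up (u : ∀ n, E n →L[ℂ] F (n + 1)) {c : ℝ} (hu : ∀ n, ‖u n‖ ≤ c) :
    ∃ A : lp E p →L[ℂ] lp F p, (∀ x, A x 0 = 0) ∧ ∀ x n, A x (n + 1) = u n (x n) := by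
  have hc : 0 ≤ c := (norm_nonneg _).trans (hu 0)
  obtain ⟨A, hA, -⟩ := exists_col_loc (p := p) (F := F) (G := E) one_le_two ovl_pred
    (fun a => Nat.casesOn (motive := fun a => lp E p →L[ℂ] F a) a 0
      fun n => (u n).comp (lp.evalCLM ℂ E p n)) hc (by
      rintro (_ | n) x
      · simp only [Nat.rec_zero, zero_apply, norm_zero]; positivity
      · rw [norm_ind_singleton]
        exact (u n).le_of_opNorm_le (hu n) _)
  exact ⟨A, fun x => hA x 0, fun x n => hA x (n + 1)⟩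

lemma exists_down (d : ∀ n, E (n + 1) →L[ℂ] F n) {c : ℝ} (hd : ∀ n, ‖d n‖ ≤ c) :
    ∃ A : lp E p →L[ℂ] lp F p, ∀ x n, A x n = d n (x (n + 1)) := by
  have hc : 0 ≤ c := (norm_nonneg _).trans (hd 0)
  obtain ⟨A, hA, -⟩ := exists_col_loc (p := p) (F := F) (G := E) le_rfl ovl_succ
    (fun n => (d n).comp (lp.evalCLM ℂ E p (n + 1))) hc (by
      intro n x
      rw [norm_ind_singleton]
      exact (d n).le_of_opNorm_le (hd n) _)
  exact ⟨A, hA⟩

end Pool.Agent.P.MP_419fe0_an
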