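import Pool.Agent.P.MP_419fe0_an.Lp2

/-!
The sum of countably many copies of `l^p` is `l^p`; retracts of `l^p`; trivial classes and
absorption.
-/

set_option linter.unusedSectionVars false

namespace Pool.Agent.P.MP_419fe0_an

open Filter Topology
open scoped ENNReal

/-- the space `l^p` -/
noncomputable abbrev X0 (p : ℝ≥0∞) := lp (fun _ : ℕ => ℂ) p

/-- the sum of countably many copies of `l^p` -/
noncomputable abbrev XI (p : ℝ≥0∞) [Fact (1 ≤ p)] := lp (fun _ : ℕ => X0 p) p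

variable {p : ℝ≥0∞} [Fact (1 ≤ p)] [Good p]

lemma exists_reindex (σ : ℕ → ℕ) (hσ : Function.Injective σ) :
    ∃ R : X0 p →L[ℂ] X0 p, (∀ y i, R y i = y (σ i)) ∧ ‖R‖ ≤ 1 := by
  obtain ⟨R, h1, h2⟩ := exists_col_loc (p := p) (F := fun _ => ℂ) (G := fun _ => ℂ)
    (V := fun i => {σ i}) le_rfl
    (fun _ _ hs => Finset.card_le_one.2 fun a ha b hb => hσ ((hs a ha).symm.trans (hs b hb)))
    (fun i => lp.evalCLM ℂ _ p (σ i)) zero_le_one
    (fun a x => by rw [norm_ind_singleton, one_mul]; rfl)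
  exact ⟨R, h1, by simpa using h2⟩

lemma exists_fubini : ∃ (Φ : XI p →L[ℂ] X0 p) (Ψ : X0 p →L[ℂ] XI p),
    (∀ x, Ψ (Φ x) = x) ∧ (∀ y, Φ (Ψ y) = y) ∧ ‖Φ‖ ≤ 1 ∧ ‖Ψ‖ ≤ 1 := by
  classical
  obtain ⟨Φ, h1, h2⟩ := exists_col (p := p) (F := fun _ => ℂ) (X := XI p)
    (fun k => (lp.evalCLM ℂ (fun _ : ℕ => ℂ) p k.unpair.2).comp
      (lp.evalCLM ℂ (fun _ : ℕ => X0 p) p k.unpair.1)) zero_le_one (by
      intro x s
      rw [one_mul]
      refine le_trans ?_ (lp.sum_rpow_le_norm_rpow pr_pos x (s.image fun k => k.unpair.1))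
      rw [← Finset.sum_fiberwise_of_maps_to (g := fun k : ℕ => k.unpair.1)
        (t := s.image fun k => k.unpair.1) fun i hi => Finset.mem_image_of_mem _ hi]
      refine Finset.sum_le_sum fun n _ => ?_
      refine le_trans (le_of_eq ?_) (lp.sum_rpow_le_norm_rpow pr_pos (x n)
        ((s.filter fun k => k.unpair.1 = n).image fun k => k.unpair.2))
      rw [Finset.sum_image]
      · refine Finset.sum_congr rfl fun k hk => ?_
        rw [← (Finset.mem_filter.1 hk).2]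
        rfl
      · intro a ha b hb hab
        have h1 := (Finset.mem_filter.1 ha).2
        have h2 := (Finset.mem_filter.1 hb).2
        rw [← Nat.pair_unpair a, ← Nat.pair_unpair b, h1, h2]
        exact congrArg _ hab)
  choose R hR1 hR2 using fun n => exists_reindex (p := p) (Nat.pair n)
    fun a b h => (Nat.pair_eq_pair.1 h).2
  obtain ⟨Ψ, h3, h4⟩ := exists_col_loc (p := p) (F := fun _ => X0 p) (G := fun _ => ℂ)
    (V := fun n => Set.range (Nat.pair n)) le_rfl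
    (fun _ _ hs => Finset.card_le_one.2 fun a ha b hb => by
      obtain ⟨i, hi⟩ := hs a ha
      obtain ⟨j, hj⟩ := hs b hb
      exact (Nat.pair_eq_pair.1 (hi.trans hj.symm)).1)
    R zero_le_one (fun n y => by
      have : R n y = R n (ind p _ (Set.range (Nat.pair n)) y) := by
        ext i
        rw [hR1, hR1, ind_apply_mem _ (Set.mem_range_self i)]
      rw [this]
      exact (R n).le_of_opNorm_le (hR2 n) _)
  refine ⟨Φ, Ψ, fun x => ?_, fun y => ?_, h2, by simpa using h4⟩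
  · ext n i
    rw [h3, hR1, h1, Nat.unpair_pair]
    rfl
  · ext k
    rw [h1]
    change Ψ y k.unpair.1 k.unpair.2 = _
    rw [h3, hR1, Nat.pair_unpair]

/-- `Y` is a retract of `l^p` with constant `c` -/
def Ret (p : ℝ≥0∞) [Fact (1 ≤ p)] (Y : Type*) [NormedAddCommGroup Y] [NormedSpace ℂ Y] (c : ℝ) :
    Prop :=
  ∃ (j : Y →L[ℂ] X0 p) (q : X0 p →L[ℂ] Y), (∀ y, q (j y) = y) ∧ ‖j‖ ≤ c ∧ ‖q‖ ≤ c

/-- `Y` is a retract of `l^p` -/
def IsRet (p : ℝ≥0∞) [Fact (1 ≤ p)] (Y : Type*) [NormedAddCommGroup Y] [NormedSpace ℂ Y] : Prop :=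
  ∃ (j : Y →L[ℂ] X0 p) (q : X0 p →L[ℂ] Y), ∀ y, q (j y) = y

section

variable {Y Z : Type*} [NormedAddCommGroup Y] [NormedSpace ℂ Y] [NormedAddCommGroup Z]
  [NormedSpace ℂ Z]

lemma Ret.isRet {c : ℝ} (h : Ret p Y c) : IsRet p Y := by
  obtain ⟨j, q, h, -⟩ := h
  exact ⟨j, q, h⟩

lemma Ret.lp {E : ℕ → Type*} [∀ i, NormedAddCommGroup (E i)] [∀ i, NormedSpace ℂ (E i)] {c : ℝ}
    (h : ∀ n, Ret p (E n) c) : Ret p (lp E p) c := by
  choose j q h1 h2 h3 using h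
  obtain ⟨Φ, Ψ, e1, -, n1, n2⟩ := exists_fubini (p := p)
  have hc : 0 ≤ c := (norm_nonneg _).trans (h2 0)
  refine ⟨Φ.comp (diag p j), (diag p q).comp Ψ, fun y => ?_, ?_, ?_⟩
  · ext n
    simp [e1, diag_apply ⟨c, h2⟩, diag_apply ⟨c, h3⟩, h1]
  · refine (ContinuousLinearMap.opNorm_comp_le _ _).trans ?_
    simpa using mul_le_mul n1 (norm_diag_le (p := p) h2) (norm_nonneg _) zero_le_one
  · refine (ContinuousLinearMap.opNorm_comp_le _ _).trans ?_
    simpa using mul_le_mul (norm_diag_le (p := p) h3) n2 (norm_nonneg _) hc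

lemma IsRet.self : IsRet p (X0 p) := ⟨1, 1, fun _ => rfl⟩

lemma IsRet.of_retract (h : IsRet p Z) (j : Y →L[ℂ] Z) (q : Z →L[ℂ] Y) (hq : ∀ y, q (j y) = y) :
    IsRet p Y := by
  obtain ⟨j', q', h⟩ := h
  exact ⟨j'.comp j, q.comp q', fun y => by simp [h, hq]⟩

lemma IsRet.xi : IsRet p (XI p) := by
  obtain ⟨Φ, Ψ, e1, -⟩ := exists_fubini (p := p)
  exact ⟨Φ, Ψ, e1⟩

lemma IsRet.prod (h : IsRet p Y) (h' : IsRet p Z) : IsRet p (Y × Z) := by
  obtain ⟨j, q, h⟩ := h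
  obtain ⟨j', q', h'⟩ := h'
  refine IsRet.xi.of_retract
    (((lp.singleContinuousLinearMap ℂ (fun _ : ℕ => X0 p) p 0).comp j).coprod
      ((lp.singleContinuousLinearMap ℂ (fun _ : ℕ => X0 p) p 1).comp j'))
    ((q.comp (lp.evalCLM ℂ (fun _ : ℕ => X0 p) p 0)).prod
      (q'.comp (lp.evalCLM ℂ (fun _ : ℕ => X0 p) p 1))) ?_
  rintro ⟨y, z⟩
  simp [lp.evalCLM, h, h']

end

/-- trivial classes: exact bounded calculus on a retract of `l^p` -/
def Triv (p : ℝ≥0∞) [Fact (1 ≤ p)] (t : Cls) : Prop :=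
  ∃ (Y : Type) (_ : NormedAddCommGroup Y) (_ : NormedSpace ℂ Y) (T S : Y →L[ℂ] Y) (C : ℝ),
    IsRet p Y ∧ XB T S C ∧ t = cls T

lemma Triv.mk {Y : Type} [NormedAddCommGroup Y] [NormedSpace ℂ Y] {T S : Y →L[ℂ] Y} {C : ℝ}
    (h : IsRet p Y) (h' : XB T S C) : Triv p (cls T) :=
  ⟨Y, _, _, T, S, C, h, h', rfl⟩

lemma Triv.one {Y : Type} [NormedAddCommGroup Y] [NormedSpace ℂ Y] (h : IsRet p Y) :
    Triv p (cls (1 : Y →L[ℂ] Y)) :=
  Triv.mk h XB.one

lemma Triv.add {a b : Cls} (ha : Triv p a) (hb : Triv p b) : Triv p (a + b) := by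
  obtain ⟨Y, _, _, T, S, C, h, h', rfl⟩ := ha
  obtain ⟨Y', _, _, T', S', C', k, k', rfl⟩ := hb
  exact Triv.mk (h.prod k) ((h'.mono (le_max_left C C')).prodMap (k'.mono (le_max_right C C')))

lemma XB.diag {T S : X0 p →L[ℂ] X0 p} {C : ℝ} (h : XB T S C) :
    XB (diag p fun _ : ℕ => T) (diag p fun _ : ℕ => S) C := by
  refine ⟨?_, ?_, fun f M hf => ?_⟩
  · rw [diag_mul (Bdd.const T) (Bdd.const S), h.1, diag_one]
  · rw [diag_mul (Bdd.const S) (Bdd.const T), h.2.1, diag_one]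
  · have : ev f (MP_419fe0_an.diag p fun _ : ℕ => T) (MP_419fe0_an.diag p fun _ : ℕ => S) =
        MP_419fe0_an.diag p fun _ : ℕ => ev f T S := by
      ext1 x
      ext1
      ext1 n
      have := ev_intertwine (V := lp.evalCLM ℂ (fun _ : ℕ => X0 p) p n)
        (T := MP_419fe0_an.diag p fun _ : ℕ => T) (S := MP_419fe0_an.diag p fun _ : ℕ => S)
        (T' := T) (S' := S) (by ext1 x; exact diag_apply (Bdd.const T) x n)
        (by ext1 x; exact diag_apply (Bdd.const S) x n) f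
      rw [diag_apply (Bdd.const _)]
      exact congrArg (fun B : XI p →L[ℂ] X0 p => B x) this
    rw [this]
    exact norm_diag_le fun _ => h.2.2 f M hf

/-- an equivariant retract is absorbed by the infinite sum -/
lemma absorb {Y : Type} [NormedAddCommGroup Y] [NormedSpace ℂ Y] (τ : Y →L[ℂ] Y)
    (σ : X0 p →L[ℂ] X0 p) (j : Y →L[ℂ] X0 p) (q : X0 p →L[ℂ] Y) (hq : ∀ y, q (j y) = y)
    (h1 : ∀ y, j (τ y) = σ (j y)) (h2 : ∀ x, q (σ x) = τ (q x)) :
    cls τ + cls (diag p fun _ : ℕ => σ) = cls (diag p fun _ : ℕ => σ) := by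
  obtain ⟨U, hU0, hU⟩ := exists_up (p := p) (E := fun _ => X0 p) (F := fun _ => X0 p)
    (fun _ => j.comp q) fun _ => le_rfl
  obtain ⟨D, hD⟩ := exists_down (p := p) (E := fun _ => X0 p) (F := fun _ => X0 p)
    (fun _ => j.comp q) fun _ => le_rfl
  have hb : Bdd fun _ : ℕ => (1 : X0 p →L[ℂ] X0 p) - j.comp q := Bdd.const _
  rw [cls_add]
  refine cls_eq_of_inverse
    (((lp.singleContinuousLinearMap ℂ (fun _ : ℕ => X0 p) p 0).comp j).coprod
      (diag p (fun _ : ℕ => 1 - j.comp q) + U))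
    ((q.comp (lp.evalCLM ℂ (fun _ : ℕ => X0 p) p 0)).prod
      (diag p (fun _ : ℕ => 1 - j.comp q) + D)) ?_ ?_ (Cpt.of_sub_eq ?_)
  · rintro ⟨y, x⟩
    refine Prod.ext ?_ ?_
    · simp [lp.evalCLM, diag_apply hb, hU0, hq]
    · ext1
      ext1 n
      rcases n with _ | n <;> simp [diag_apply hb, hU0, hU, hD, hq]
  · intro x
    ext1
    ext1 n
    rcases n with _ | n <;> simp [lp.evalCLM, diag_apply hb, hU0, hU, hD, hq]
  · refine ContinuousLinearMap.ext ?_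
    rintro ⟨y, x⟩
    ext1
    ext1 n
    rcases n with _ | n <;>
      simp [diag_apply hb, diag_apply (Bdd.const σ), hU0, hU, h1, h2]

/-- two trivial classes are absorbed by one operator on `l^p` with exact calculus -/
lemma exists_absorbing {a b : Cls} (ha : Triv p a) (hb : Triv p b) :
    ∃ (T S : X0 p →L[ℂ] X0 p) (C : ℝ), XB T S C ∧ a + cls T = cls T ∧ b + cls T = cls T := by
  obtain ⟨Y, _, _, T, S, C, h, h', rfl⟩ := ha
  obtain ⟨Y', _, _, T', S', C', k, k', rfl⟩ := hb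
  obtain ⟨j, q, hq⟩ := h.prod k
  have hx := ((h'.mono (le_max_left C C')).prodMap (k'.mono (le_max_right C C'))).extend hq
  set σ := extend j q (T.prodMap T')
  obtain ⟨Φ, Ψ, e1, e2, -, -⟩ := exists_fubini (p := p)
  have hd := hx.diag.extend e1
  have hc : cls (extend Φ Ψ (diag p fun _ : ℕ => σ)) = cls (diag p fun _ : ℕ => σ) :=
    cls_eq_of_inverse Ψ Φ e2 e1 (Cpt.of_sub_eq (by ext1 x; simp [extend, e1, e2]))
  refine ⟨_, _, _, hd, ?_, ?_⟩
  · rw [hc]
    exact absorb T σ (j.comp (ContinuousLinearMap.inl ℂ Y Y'))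
      ((ContinuousLinearMap.fst ℂ Y Y').comp q) (by simp [hq]) (by simp [σ, extend, hq])
      (by simp [σ, extend, hq])
  · rw [hc]
    exact absorb T' σ (j.comp (ContinuousLinearMap.inr ℂ Y Y'))
      ((ContinuousLinearMap.snd ℂ Y Y').comp q) (by simp [hq]) (by simp [σ, extend, hq])
      (by simp [σ, extend, hq])

end Pool.Agent.P.MP_419fe0_an
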