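import Pool.Agent.P.MP_419fe0_an.Ret
import Pool.Agent.P.MP_419fe0_an.Khin

/-!
The spaces `l^p(l^2_A(G))`: columns, rows and amplification, with Khintchine bounds.
-/

set_option linter.unusedSectionVars false

namespace Pool.Agent.P.MP_419fe0_an

open Filter Topology Finset
open scoped ENNReal

/-- finite Hilbert sum -/
abbrev P2 (A G : Type) := PiLp 2 fun _ : A => G

/-- sequences with a fixed fibre -/
noncomputable abbrev Lc (p : ℝ≥0∞) (G : Type) [NormedAddCommGroup G] := lp (fun _ : ℕ => G) p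

variable {p : ℝ≥0∞} [Fact (1 ≤ p)]

lemma lp_sum_apply {E : ℕ → Type*} [∀ i, NormedAddCommGroup (E i)] {ι : Type*} (s : Finset ι)
    (f : ι → lp E p) (k : ℕ) : (∑ i ∈ s, f i) k = ∑ i ∈ s, f i k := by
  rw [lp.coeFn_sum, Finset.sum_apply]

lemma lp_smul_apply {E : ℕ → Type*} [∀ i, NormedAddCommGroup (E i)] [∀ i, NormedSpace ℂ (E i)]
    (c : ℂ) (f : lp E p) (k : ℕ) : (c • f) k = c • f k := rfl

section cf

variable {G G' G'' : Type} [NormedAddCommGroup G] [NormedSpace ℂ G] [NormedAddCommGroup G']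
  [NormedSpace ℂ G'] [NormedAddCommGroup G''] [NormedSpace ℂ G'']

/-- constant field -/
noncomputable def cf (p : ℝ≥0∞) [Fact (1 ≤ p)] (u : G →L[ℂ] G') : Lc p G →L[ℂ] Lc p G' :=
  diag p fun _ => u

@[simp] lemma cf_apply (u : G →L[ℂ] G') (x : Lc p G) (k : ℕ) : cf p u x k = u (x k) :=
  diag_apply (Bdd.const u) x k

lemma norm_cf_le (u : G →L[ℂ] G') : ‖cf p u‖ ≤ ‖u‖ := norm_diag_le fun _ => le_rfl

lemma cf_cf (u : G' →L[ℂ] G'') (v : G →L[ℂ] G') (x : Lc p G) :
    cf p u (cf p v x) = cf p (u.comp v) x := by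
  ext k; simp

/-- constant fields as an algebra homomorphism -/
noncomputable def cfa (p : ℝ≥0∞) [Fact (1 ≤ p)] (G : Type) [NormedAddCommGroup G]
    [NormedSpace ℂ G] : (G →L[ℂ] G) →ₐ[ℂ] (Lc p G →L[ℂ] Lc p G) where
  toFun := cf p
  map_one' := by ext; simp
  map_mul' u v := by ext; simp
  map_zero' := by ext; simp
  map_add' u v := by ext; simp
  commutes' c := by ext; simp [Algebra.algebraMap_eq_smul_one]

lemma cfa_eq (u : G →L[ℂ] G) : cfa p G u = cf p u := rfl

end cf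

lemma ev_diag {E : ℕ → Type*} [∀ i, NormedAddCommGroup (E i)] [∀ i, NormedSpace ℂ (E i)]
    {T S : ∀ i, E i →L[ℂ] E i} (hT : Bdd T) (hS : Bdd S) (f : ℤ →₀ ℂ) (x : lp E p) (n : ℕ) :
    ev f (diag p T) (diag p S) x n = ev f (T n) (S n) (x n) := by
  have := ev_intertwine (V := lp.evalCLM ℂ E p n) (T := diag p T) (S := diag p S)
    (T' := T n) (S' := S n) (by ext1 x; exact diag_apply hT x n)
    (by ext1 x; exact diag_apply hS x n) f
  exact congrArg (fun B : lp E p →L[ℂ] E n => B x) this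

variable {A : Type} [Fintype A] [DecidableEq A] {G : Type} [NormedAddCommGroup G]
  [InnerProductSpace ℂ G] {X Y : Type*} [NormedAddCommGroup X] [NormedSpace ℂ X]
  [NormedAddCommGroup Y] [NormedSpace ℂ Y]

/-- coordinate of a finite Hilbert sum -/
noncomputable def prj (G : Type) [NormedAddCommGroup G] [InnerProductSpace ℂ G] (a : A) :
    P2 A G →L[ℂ] G := PiLp.proj 2 (fun _ => G) a

/-- inclusion into a finite Hilbert sum -/
noncomputable def sng (G : Type) [NormedAddCommGroup G] [InnerProductSpace ℂ G] (a : A) :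
    G →L[ℂ] P2 A G :=
  LinearMap.mkContinuous
    { toFun := fun x => PiLp.single 2 a x
      map_add' := fun x y => PiLp.single_add 2 a
      map_smul' := fun c x => by
        ext b
        by_cases h : b = a
        · subst h; simp
        · simp [h] } 1 fun x => by simp

@[simp] lemma prj_apply (a : A) (x : P2 A G) : prj G a x = x a := rfl

lemma sng_apply (a b : A) (x : G) : sng G a x b = if b = a then x else 0 := by
  change (PiLp.single 2 a x : P2 A G) b = _
  split_ifs with h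
  · subst h; simp
  · simp [h]

lemma norm_prj_le (a : A) : ‖prj G a‖ ≤ 1 :=
  ContinuousLinearMap.opNorm_le_bound _ zero_le_one fun x => by
    simpa using PiLp.norm_apply_le x a

lemma norm_sng_le (a : A) : ‖sng G a‖ ≤ 1 := LinearMap.mkContinuous_norm_le _ zero_le_one _

/-- component map -/
noncomputable def cmp (p : ℝ≥0∞) [Fact (1 ≤ p)] (G : Type) [NormedAddCommGroup G]
    [InnerProductSpace ℂ G] (a : A) : Lc p (P2 A G) →L[ℂ] Lc p G := cf p (prj G a)

/-- inclusion map -/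
noncomputable def inc (p : ℝ≥0∞) [Fact (1 ≤ p)] (G : Type) [NormedAddCommGroup G]
    [InnerProductSpace ℂ G] (a : A) : Lc p G →L[ℂ] Lc p (P2 A G) := cf p (sng G a)

@[simp] lemma cmp_apply (a : A) (y : Lc p (P2 A G)) (k : ℕ) : cmp p G a y k = y k a :=
  cf_apply _ _ _

lemma inc_apply (a b : A) (x : Lc p G) (k : ℕ) :
    inc p G a x k b = if b = a then x k else 0 := by
  rw [inc, cf_apply, sng_apply]

lemma norm_cmp_le (a : A) : ‖cmp p G a‖ ≤ 1 := (norm_cf_le _).trans (norm_prj_le a)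

lemma norm_inc_le (a : A) : ‖inc p G a‖ ≤ 1 := (norm_cf_le _).trans (norm_sng_le a)

lemma cmp_inc (a b : A) (x : Lc p G) : cmp p G a (inc p G b x) = if a = b then x else 0 := by
  ext k
  rw [cmp_apply, inc_apply]
  split_ifs <;> simp

@[simp] lemma cmp_inc_self (a : A) (x : Lc p G) : cmp p G a (inc p G a x) = x := by
  rw [cmp_inc, if_pos rfl]

lemma ext_cmp {y y' : Lc p (P2 A G)} (h : ∀ a, cmp p G a y = cmp p G a y') : y = y' := by
  ext k a
  rw [← cmp_apply, ← cmp_apply, h]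

/-- column operator -/
noncomputable def col (B : A → X →L[ℂ] Lc p G) : X →L[ℂ] Lc p (P2 A G) :=
  ∑ a, (inc p G a).comp (B a)

/-- row operator -/
noncomputable def row (B : A → Lc p G →L[ℂ] X) : Lc p (P2 A G) →L[ℂ] X :=
  ∑ a, (B a).comp (cmp p G a)

@[simp] lemma cmp_col (B : A → X →L[ℂ] Lc p G) (a : A) (x : X) : cmp p G a (col B x) = B a x := by
  simp [col, cmp_inc]

lemma row_apply (B : A → Lc p G →L[ℂ] X) (y : Lc p (P2 A G)) :
    row B y = ∑ a, B a (cmp p G a y) := by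
  simp [row]

lemma row_col (B : A → Lc p G →L[ℂ] Y) (C : A → X →L[ℂ] Lc p G) :
    (row B).comp (col C) = ∑ a, (B a).comp (C a) := by
  ext1 x; simp [row_apply]

lemma sum_inc_cmp (y : Lc p (P2 A G)) : ∑ a, inc p G a (cmp p G a y) = y :=
  ext_cmp fun a => by simp [cmp_inc]

lemma sum_sg_sum {V : Type*} [AddCommGroup V] [Module ℂ V] (v : A → V) (a : A) :
    ∑ ω : A → Bool, (sg (ω a) : ℂ) • ∑ b, (sg (ω b) : ℂ) • v b =
      (Fintype.card (A → Bool) : ℂ) • v a := by
  simp only [smul_sum, smul_smul]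
  rw [sum_comm]
  have : ∀ b, ∑ ω : A → Bool, ((sg (ω a) : ℂ) * (sg (ω b) : ℂ)) • v b =
      if a = b then (Fintype.card (A → Bool) : ℂ) • v b else 0 := by
    intro b
    rw [← sum_smul]
    have := congrArg (fun r : ℝ => (r : ℂ)) (rad_orth a b)
    push_cast at this
    rw [this]
    split_ifs <;> simp
  simp [this]

variable [Good p] {D : ℝ}

lemma KS.ku (h : KS p.toReal D) (y : Lc p (P2 A G)) :
    ∑ ω : A → Bool, ‖∑ a, (sg (ω a) : ℂ) • cmp p G a y‖ ^ p.toReal ≤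
      Fintype.card (A → Bool) * (D * ‖y‖) ^ p.toReal := by
  have hD := h.one_le
  have h2 := (lp.hasSum_norm pr_pos y).mul_left (Fintype.card (A → Bool) * D ^ p.toReal)
  rw [Real.mul_rpow (by linarith) (norm_nonneg _), ← mul_assoc]
  refine hasSum_le (fun k => ?_)
    (hasSum_sum fun ω _ => lp.hasSum_norm pr_pos (∑ a, (sg (ω a) : ℂ) • cmp p G a y)) h2
  have := h.up A G (y k)
  rw [Real.mul_rpow (by linarith) (norm_nonneg _), ← mul_assoc] at this
  refine le_trans (le_of_eq (sum_congr rfl fun ω _ => ?_)) this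
  simp only [lp_sum_apply, lp_smul_apply, cmp_apply]

lemma KS.kl (h : KS p.toReal D) (ψ : (A → Bool) → Lc p G) (y : Lc p (P2 A G))
    (hy : ∀ a, (Fintype.card (A → Bool) : ℂ) • cmp p G a y = ∑ ω, (sg (ω a) : ℂ) • ψ ω) :
    Fintype.card (A → Bool) * ‖y‖ ^ p.toReal ≤ D ^ p.toReal * ∑ ω, ‖ψ ω‖ ^ p.toReal := by
  refine hasSum_le (fun k => ?_) ((lp.hasSum_norm pr_pos y).mul_left _)
    ((hasSum_sum fun ω _ => lp.hasSum_norm pr_pos (ψ ω)).mul_left _)
  refine h.down A G (fun ω => ψ ω k) (y k) fun a => ?_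
  have := congrArg (fun z : Lc p G => z k) (hy a)
  simpa only [lp_sum_apply, lp_smul_apply, cmp_apply] using this

lemma KS.le_of_kl (h : KS p.toReal D) (ψ : (A → Bool) → Lc p G) (y : Lc p (P2 A G))
    (hy : ∀ a, (Fintype.card (A → Bool) : ℂ) • cmp p G a y = ∑ ω, (sg (ω a) : ℂ) • ψ ω)
    {t : ℝ} (ht : 0 ≤ t)
    (hψ : ∑ ω, ‖ψ ω‖ ^ p.toReal ≤ Fintype.card (A → Bool) * t ^ p.toReal) : ‖y‖ ≤ D * t := by
  have hD := h.one_le
  have hN : (0 : ℝ) < Fintype.card (A → Bool) := by exact_mod_cast Fintype.card_pos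
  have h1 := (h.kl ψ y hy).trans (mul_le_mul_of_nonneg_left hψ (by positivity))
  rw [← Real.rpow_le_rpow_iff (norm_nonneg _) (by positivity) (pr_pos (p := p)),
    Real.mul_rpow (by linarith) ht]
  refine le_of_mul_le_mul_left (h1.trans (le_of_eq (by ring))) hN

lemma KS.norm_col (h : KS p.toReal D) (B : A → X →L[ℂ] Lc p G) {c : ℝ}
    (hB : ∀ ω : A → Bool, ‖∑ a, (sg (ω a) : ℂ) • B a‖ ≤ c) : ‖col B‖ ≤ D * c := by
  have hD := h.one_le
  have hc : 0 ≤ c := le_trans (ContinuousLinearMap.opNorm_nonneg _) (hB fun _ => true)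
  refine ContinuousLinearMap.opNorm_le_bound _ (by positivity) fun x => ?_
  rw [mul_assoc]
  refine h.le_of_kl (fun ω => ∑ a, (sg (ω a) : ℂ) • B a x) _ (fun a => ?_) (by positivity) ?_
  · rw [sum_sg_sum, cmp_col]
  · calc _ ≤ ∑ ω : A → Bool, (c * ‖x‖) ^ p.toReal := by
          refine sum_le_sum fun ω _ => Real.rpow_le_rpow (norm_nonneg _) ?_ pr_pos.le
          simpa only [_root_.sum_apply, smul_apply] using
            ContinuousLinearMap.le_of_opNorm_le _ (hB ω) x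
      _ = _ := by simp

lemma KS.norm_row (h : KS p.toReal D) (B : A → Lc p G →L[ℂ] X) {c : ℝ}
    (hB : ∀ ω : A → Bool, ‖∑ a, (sg (ω a) : ℂ) • B a‖ ≤ c) : ‖row B‖ ≤ D * c := by
  have hD := h.one_le
  have hc : 0 ≤ c := le_trans (ContinuousLinearMap.opNorm_nonneg _) (hB fun _ => true)
  have hN : (0 : ℝ) < Fintype.card (A → Bool) := by exact_mod_cast Fintype.card_pos
  refine ContinuousLinearMap.opNorm_le_bound _ (by positivity) fun y => ?_
  have e : (Fintype.card (A → Bool) : ℂ) • row B y = ∑ ω : A → Bool,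
      (∑ a, (sg (ω a) : ℂ) • B a) (∑ b, (sg (ω b) : ℂ) • cmp p G b y) := by
    simp only [_root_.sum_apply, smul_apply]
    rw [sum_comm, row_apply, smul_sum]
    refine sum_congr rfl fun a _ => ?_
    rw [← map_smul, ← sum_sg_sum (fun b => cmp p G b y) a]
    simp only [map_sum, map_smul]
  have h1 := mean_mono Fintype.card_pos
    (fun ω : A → Bool => ‖∑ b, (sg (ω b) : ℂ) • cmp p G b y‖) (fun _ => norm_nonneg _) one_pos
    (one_lt_pr (p := p)).le (by positivity) (h.ku y)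
  simp only [Real.rpow_one] at h1
  have h2 : Fintype.card (A → Bool) * ‖row B y‖ ≤
      c * ∑ ω : A → Bool, ‖∑ b, (sg (ω b) : ℂ) • cmp p G b y‖ := by
    rw [← Complex.norm_natCast, ← norm_smul, e, mul_sum]
    exact (norm_sum_le _ _).trans (sum_le_sum fun ω _ =>
      ContinuousLinearMap.le_of_opNorm_le _ (hB ω) _)
  refine le_of_mul_le_mul_left (h2.trans ?_) hN
  calc _ ≤ c * (Fintype.card (A → Bool) * (D * ‖y‖)) := by gcongr
    _ = _ := by ring

/-- amplification of an operator on `l^p` -/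
noncomputable def amp (p : ℝ≥0∞) [Fact (1 ≤ p)] (A : Type) [Fintype A] [DecidableEq A] :
    (X0 p →L[ℂ] X0 p) →ₐ[ℂ] (Lc p (P2 A ℂ) →L[ℂ] Lc p (P2 A ℂ)) where
  toFun T := col fun a => T.comp (cmp p ℂ a)
  map_one' := ContinuousLinearMap.ext fun y => ext_cmp fun a => by simp
  map_mul' u v := ContinuousLinearMap.ext fun y => ext_cmp fun a => by simp
  map_zero' := ContinuousLinearMap.ext fun y => ext_cmp fun a => by simp
  map_add' u v := ContinuousLinearMap.ext fun y => ext_cmp fun a => by simp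
  commutes' c := ContinuousLinearMap.ext fun y => ext_cmp fun a => by
    simp [Algebra.algebraMap_eq_smul_one]

@[simp] lemma cmp_amp (T : X0 p →L[ℂ] X0 p) (a : A) (y : Lc p (P2 A ℂ)) :
    cmp p ℂ a (amp p A T y) = T (cmp p ℂ a y) := cmp_col _ a y

lemma amp_inc (T : X0 p →L[ℂ] X0 p) (a : A) (x : X0 p) :
    amp p A T (inc p ℂ a x) = inc p ℂ a (T x) :=
  ext_cmp fun b => by
    rw [cmp_amp, cmp_inc, cmp_inc]
    split_ifs <;> simp

lemma KS.norm_amp (h : KS p.toReal D) (T : X0 p →L[ℂ] X0 p) : ‖amp p A T‖ ≤ D ^ 2 * ‖T‖ := by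
  have hD := h.one_le
  refine ContinuousLinearMap.opNorm_le_bound _ (by positivity) fun y => ?_
  rw [show D ^ 2 * ‖T‖ * ‖y‖ = D * (‖T‖ * (D * ‖y‖)) by ring]
  refine h.le_of_kl (fun ω => T (∑ a, (sg (ω a) : ℂ) • cmp p ℂ a y)) _ (fun a => ?_)
    (by positivity) ?_
  · rw [cmp_amp, ← map_smul, ← sum_sg_sum (fun b => cmp p ℂ b y) a]
    simp only [map_sum, map_smul]
  · calc _ ≤ ∑ ω : A → Bool,
          ‖T‖ ^ p.toReal * ‖∑ a, (sg (ω a) : ℂ) • cmp p ℂ a y‖ ^ p.toReal := by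
          refine sum_le_sum fun ω _ => ?_
          rw [← Real.mul_rpow (norm_nonneg _) (norm_nonneg _)]
          exact Real.rpow_le_rpow (norm_nonneg _) (T.le_opNorm _) pr_pos.le
      _ ≤ ‖T‖ ^ p.toReal * (Fintype.card (A → Bool) * (D * ‖y‖) ^ p.toReal) := by
          rw [← mul_sum]; gcongr; exact h.ku y
      _ = _ := by rw [Real.mul_rpow (norm_nonneg T) (by positivity)]; ring

lemma cf_amp {B : Type} [Fintype B] [DecidableEq B] (u : P2 A ℂ →L[ℂ] P2 B ℂ)
    (T : X0 p →L[ℂ] X0 p) (y : Lc p (P2 A ℂ)) :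
    cf p u (amp p A T y) = amp p B T (cf p u y) := by
  have key : ∀ (b : B) (z : Lc p (P2 A ℂ)),
      cmp p ℂ b (cf p u z) = ∑ a, u (sng ℂ a 1) b • cmp p ℂ a z := by
    intro b z
    ext k
    have : z k = ∑ a, z k a • sng ℂ a 1 := by
      ext c; simp [sng_apply]
    rw [cmp_apply, cf_apply, this]
    simp only [lp_sum_apply, lp_smul_apply, cmp_apply]
    simp [mul_comm]
  refine ext_cmp fun b => ?_
  rw [cmp_amp, key, key]
  simp

lemma cf_mul_amp (u : P2 A ℂ →L[ℂ] P2 A ℂ) (T : X0 p →L[ℂ] X0 p) :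
    cf p u * amp p A T = amp p A T * cf p u :=
  ContinuousLinearMap.ext fun y => cf_amp u T y

lemma amp_ind (U : Set ℕ) : amp p A (ind p _ U) = ind p _ U :=
  ContinuousLinearMap.ext fun y => ext_cmp fun a => by
    rw [cmp_amp]
    exact ind_diag (Bdd.const _) U y

lemma norm_le_of_blocks (B : Lc p (P2 A G) →L[ℂ] Lc p (P2 A G)) {c : ℝ} (hc : 0 ≤ c)
    (h : ∀ y k a, ‖B y k a‖ ≤ c * ‖y k a‖) : ‖B‖ ≤ c := by
  have := col_loc_norm (p := p) le_rfl ovl_singleton B hc fun k y => by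
    rw [norm_ind_singleton]
    refine le_of_sq_le_sq ?_ (by positivity)
    rw [mul_pow, PiLp.norm_sq_eq_of_L2, PiLp.norm_sq_eq_of_L2, mul_sum]
    refine sum_le_sum fun a _ => ?_
    rw [← mul_pow]
    gcongr
    exact h y k a
  simpa using this

lemma KS.ret (h : KS p.toReal D) : Ret p (Lc p (P2 A ℂ)) D := by
  classical
  have hD := h.one_le
  set N := Fintype.card (A → Bool)
  have hN : (0 : ℝ) < N := by exact_mod_cast Fintype.card_pos
  obtain ⟨idx, hidx⟩ : ∃ idx : (A → Bool) → ℕ, Function.Injective idx :=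
    ⟨fun ω => Fintype.equivFin _ ω, fun a b h => (Fintype.equivFin _).injective (Fin.ext h)⟩
  obtain ⟨Φ, Ψ, e1, -, n1, n2⟩ := exists_fubini (p := p)
  set t : ℝ := (N : ℝ) ^ (1 / p.toReal) with ht
  have ht0 : 0 < t := Real.rpow_pos_of_pos hN _
  have htp : t ^ p.toReal = N := by
    rw [ht, ← Real.rpow_mul hN.le, one_div_mul_cancel (pr_pos (p := p)).ne', Real.rpow_one]
  let j : Lc p (P2 A ℂ) →L[ℂ] XI p := ∑ ω : A → Bool,
    (lp.singleContinuousLinearMap ℂ (fun _ : ℕ => X0 p) p (idx ω)).comp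
      ((t⁻¹ : ℂ) • ∑ a, (sg (ω a) : ℂ) • cmp p ℂ a)
  let q : XI p →L[ℂ] Lc p (P2 A ℂ) := col fun a => (N : ℂ)⁻¹ • ∑ ω : A → Bool,
    (sg (ω a) : ℂ) • (t : ℂ) • lp.evalCLM ℂ (fun _ : ℕ => X0 p) p (idx ω)
  have e : ∀ y, j y = ∑ ω : A → Bool, lp.single (E := fun _ : ℕ => X0 p) p (idx ω)
      ((t⁻¹ : ℂ) • ∑ a, (sg (ω a) : ℂ) • cmp p ℂ a y) := by
    intro y
    simp only [j, _root_.sum_apply, ContinuousLinearMap.comp_apply, smul_apply]
    rfl
  have hj : ∀ y ω, j y (idx ω) = (t⁻¹ : ℂ) • ∑ a, (sg (ω a) : ℂ) • cmp p ℂ a y := by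
    intro y ω
    rw [e, lp_sum_apply, sum_eq_single ω]
    · exact lp.single_apply_self _ _ _
    · intro b _ hb
      exact lp.single_apply_ne _ _ _ fun h => hb (hidx h).symm
    · simp
  have hq : ∀ x a, (N : ℂ) • cmp p ℂ a (q x) =
      ∑ ω : A → Bool, (sg (ω a) : ℂ) • (t : ℂ) • x (idx ω) := by
    intro x a
    have : (N : ℂ) ≠ 0 := by exact_mod_cast hN.ne'
    simp only [q, cmp_col, smul_apply, _root_.sum_apply, smul_inv_smul₀ this]
    rfl
  have nj : ‖j‖ ≤ D := by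
    refine ContinuousLinearMap.opNorm_le_bound _ (by linarith) fun y => ?_
    have h1 := loc_row (p := p) (V := fun ω : A → Bool => {idx ω}) le_rfl
      (fun _ _ hs => card_le_one.2 fun a ha b hb => hidx ((hs a ha).symm.trans (hs b hb)))
      (fun ω => lp.single (E := fun _ : ℕ => X0 p) p (idx ω)
        ((t⁻¹ : ℂ) • ∑ a, (sg (ω a) : ℂ) • cmp p ℂ a y))
      (fun ω i hi => lp.single_apply_ne _ _ _ hi) univ
    rw [← Real.rpow_le_rpow_iff (norm_nonneg _) (by positivity) (pr_pos (p := p)), e]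
    refine h1.trans ?_
    have h2 : ∀ ω : A → Bool, ‖lp.single (E := fun _ : ℕ => X0 p) p (idx ω)
        ((t⁻¹ : ℂ) • ∑ a, (sg (ω a) : ℂ) • cmp p ℂ a y)‖ ^ p.toReal =
        (N : ℝ)⁻¹ * ‖∑ a, (sg (ω a) : ℂ) • cmp p ℂ a y‖ ^ p.toReal := by
      intro ω
      rw [lp.norm_single p_pos, norm_smul, norm_inv, Complex.norm_real, Real.norm_of_nonneg ht0.le,
        Real.mul_rpow (by positivity) (norm_nonneg _), Real.inv_rpow ht0.le, htp]
    simp only [h2, ← mul_sum, Nat.cast_one, Real.one_rpow, one_mul]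
    rw [inv_mul_le_iff₀ hN]
    exact h.ku y
  have nq : ‖q‖ ≤ D := by
    refine ContinuousLinearMap.opNorm_le_bound _ (by linarith) fun x => ?_
    refine h.le_of_kl (fun ω => (t : ℂ) • x (idx ω)) _ (hq x) (norm_nonneg _) ?_
    have h2 : ∀ ω : A → Bool, ‖(t : ℂ) • x (idx ω)‖ ^ p.toReal = N * ‖x (idx ω)‖ ^ p.toReal := by
      intro ω
      rw [norm_smul, Complex.norm_real, Real.norm_of_nonneg ht0.le,
        Real.mul_rpow ht0.le (norm_nonneg _), htp]
    simp only [h2, ← mul_sum]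
    gcongr
    refine le_trans (le_of_eq ?_) (lp.sum_rpow_le_norm_rpow pr_pos x (univ.image idx))
    rw [sum_image fun a _ b _ h => hidx h]
  refine ⟨Φ.comp j, q.comp Ψ, fun y => ?_, ?_, ?_⟩
  · simp only [ContinuousLinearMap.comp_apply, e1]
    refine ext_cmp fun a => ?_
    have hN' : (N : ℂ) ≠ 0 := by exact_mod_cast hN.ne'
    have ht' : (t : ℂ) ≠ 0 := by exact_mod_cast ht0.ne'
    refine smul_right_injective _ hN' ?_
    simp only [hq, hj, smul_inv_smul₀ ht']
    exact sum_sg_sum (fun b => cmp p ℂ b y) a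
  · refine (ContinuousLinearMap.opNorm_comp_le _ _).trans ?_
    simpa using mul_le_mul n1 nj (norm_nonneg _) zero_le_one
  · refine (ContinuousLinearMap.opNorm_comp_le _ _).trans ?_
    simpa using mul_le_mul nq n2 (norm_nonneg _) (by linarith)

lemma isRet_euclid : IsRet p (P2 A ℂ) := by
  obtain ⟨D, h⟩ := exists_KS (one_lt_pr (p := p))
  refine (h.ret (A := A)).isRet.of_retract
    (lp.singleContinuousLinearMap ℂ (fun _ : ℕ => P2 A ℂ) p 0)
    (lp.evalCLM ℂ (fun _ : ℕ => P2 A ℂ) p 0) fun y => ?_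
  simp [lp.evalCLM]

end Pool.Agent.P.MP_419fe0_an
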