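import Pool.Agent.P.MP_419fe0_an.Bound

/-!
Invertible operators with a bounded essential calculus are stably trivial.
-/

set_option linter.unusedSectionVars false

namespace Pool.Agent.P.MP_419fe0_an

open Filter Topology Finset
open scoped ENNReal

variable {p : ℝ≥0∞} [Fact (1 ≤ p)] [Good p]

lemma cb_diag {E : ℕ → Type*} [∀ i, NormedAddCommGroup (E i)] [∀ i, NormedSpace ℂ (E i)]
    [∀ i, CompleteSpace (E i)] {R R' : ∀ n, E n →L[ℂ] E n} (hR : Bdd R) (hR' : Bdd R') {C : ℝ}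
    (h1 : ∀ n, CB (R n) (R' n) C)
    (h2 : ∀ f M, Bd f M → ∀ ε > 0, ∀ᶠ n in atTop, ‖ev f (R n) (R' n)‖ ≤ C * M + ε) :
    CB (diag p R) (diag p R') C := by
  intro f M hf ε hε
  obtain ⟨N, hN⟩ := eventually_atTop.1 (h2 f M hf ε hε)
  choose K hK hb using fun n => h1 n f M hf ε hε
  let K' : ∀ n, E n →L[ℂ] E n := fun n => if n < N then K n else 0
  have hb' : ∀ n, ‖ev f (R n) (R' n) + K' n‖ ≤ C * M + ε := fun n => by
    simp only [K']
    split_ifs with h
    · exact hb n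
    · rw [add_zero]; exact hN n (not_lt.1 h)
  have bK : Bdd K' := by
    have := Bdd.sub (S := fun n => ev f (R n) (R' n)) ⟨_, hb'⟩ (hR.ev hR' f)
    simpa using this
  refine ⟨diag p K', diag_cpt bK (fun n => ?_) ?_, ?_⟩
  · simp only [K']
    split_ifs
    · exact hK n
    · exact Cpt.zero
  · refine tendsto_const_nhds.congr' ?_
    filter_upwards [eventually_ge_atTop N] with n hn
    simp [K', not_lt.2 hn]
  · have h0 : 0 ≤ C * M + ε := (norm_nonneg _).trans (hb' 0)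
    refine ContinuousLinearMap.opNorm_le_bound _ h0 fun x => norm_le_of_pointwise _ _ h0 fun k => ?_
    rw [add_apply, lp.coeFn_add, Pi.add_apply, ev_diag hR hR', diag_apply bK]
    exact ContinuousLinearMap.le_of_opNorm_le _ (hb' k) _

variable {pos : ℕ → ℕ} {τ : ℕ → ℕ → ℝ} {ρ l : ℕ → ℝ} {T S : X0 p →L[ℂ] X0 p}

lemma Prof.cpt_Sg (h : Prof pos τ ρ l) (n : ℕ) : Cpt (Sg p pos τ n - 1) := by
  refine ((ind_cpt (p := p) (E := fun _ => Hn n) (h.p2 (4 * n))).comp_right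
    (Sg p pos τ n - 1)).of_eq (ContinuousLinearMap.ext fun x => (ind_eq_self fun k hk => ?_).symm)
  simp [Sg_apply, h.t2 n (pos k) (not_lt.1 hk), Gam_zero]

lemma Prof.cpt_Sg' (h : Prof pos τ ρ l) (n : ℕ) : Cpt (Sg' p pos τ n - 1) :=
  ((h.cpt_Sg n).mul_left (Sg' p pos τ n)).neg.of_eq (by
    rw [mul_sub, Sg'_mul_Sg, mul_one, neg_sub])

lemma cf_tr_io (n : ℕ) (y : Yn p n) : cf p (tr n) (cf p (io n) y) = y := by
  ext1; ext1 k; simp [tr_io]

lemma extend_Xn (T : X0 p →L[ℂ] X0 p) (n : ℕ) :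
    extend (cf p (io n)) (cf p (tr n)) (Xn T n) = Xn T (n + 1) := by
  have e1 : ∀ x, cf p (io n) (inc p ℂ 0 x) = inc p ℂ 0 x := fun x => by
    ext1; ext1 k
    rw [cf_apply, inc, inc, cf_apply, cf_apply]
    exact io_sng n 0 _
  have e2 : ∀ y, cmp p ℂ 0 (cf p (tr n) y) = cmp p ℂ 0 y := fun y => by
    ext k; simp
  ext1 y
  simp [Xn, extend, e1, e2]
  abel

lemma Prof.extend_Sg (h : Prof pos τ ρ l) (n : ℕ) :
    extend (cf p (io n)) (cf p (tr n)) (Sg p pos τ n) =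
      diag p fun k => Gam (n + 1) (τ n (pos k)) := by
  ext1 y
  ext1
  ext1 k
  rw [diag_apply ⟨1, fun _ => norm_Gam _ _⟩, Gam_succ n (h.t5 _ _)]
  simp [extend, Sg_apply]

theorem stab_X0 (h1 : T * S = 1) (h2 : S * T = 1) {C : ℝ} (hC0 : 0 ≤ C) (hC : CB T S C) :
    ∃ t t' : Cls, Triv p t ∧ Triv p t' ∧ cls T + t = t' := by
  obtain ⟨pos, T', hp1, hp2, hT', hK⟩ := exists_tri T
  obtain ⟨τ, ρ, l, h⟩ := exists_prof hp1 hp2
  obtain ⟨D, hD⟩ := exists_KS (one_lt_pr (p := p))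
  have hT : AC pos τ T := by simpa using (h.ac_tri hT').add (h.ac_cpt hK)
  obtain ⟨C', hC', hlim⟩ := h.limsup h1 h2 hC0 hC hT
  let R : ∀ n, Yn p n →L[ℂ] Yn p n := fun n => Xn T n * Sg p pos τ n
  let R' : ∀ n, Yn p n →L[ℂ] Yn p n := fun n => Sg' p pos τ n * Xn S n
  have bR : Bdd R := (bdd_Xn T).mul bdd_Sg
  have bR' : Bdd R' := bdd_Sg'.mul (bdd_Xn S)
  have hcb : CB (diag p R) (diag p R') (C' + (C + 2)) := by
    refine cb_diag bR bR' (fun n => ?_) fun f M hf ε hε => ?_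
    · have a1 := hC.extend (cmp_inc_self (p := p) (G := ℂ) (0 : Fin (n + 1)))
      have a2 : ‖inc p ℂ (0 : Fin (n + 1))‖ * ‖cmp p ℂ (0 : Fin (n + 1))‖ ≤ 1 :=
        mul_le_one₀ (norm_inc_le _) (norm_nonneg _) (norm_cmp_le _)
      refine (a1.mono (by nlinarith)).congr ?_ ?_
      · exact ((h.cpt_Sg n).mul_left (Xn T n)).neg.of_eq (by
          rw [mul_sub, mul_one, neg_sub]; rfl)
      · exact ((h.cpt_Sg' n).mul_right (Xn S n)).neg.of_eq (by
          rw [sub_mul, one_mul, neg_sub]; rfl)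
    · filter_upwards [hlim f M hf ε hε] with n hn
      refine hn.trans ?_
      nlinarith [hf.nonneg]
  have e1 : diag p R * diag p R' = 1 := by
    rw [diag_mul bR bR']
    refine Eq.trans ?_ diag_one
    congr 1
    funext n
    simp only [R, R']
    rw [mul_assoc, ← mul_assoc (Sg p pos τ n), Sg_mul_Sg', one_mul, Xn_mul, h1, Xn_one]
  have e2 : diag p R' * diag p R = 1 := by
    rw [diag_mul bR' bR]
    refine Eq.trans ?_ diag_one
    congr 1
    funext n
    simp only [R, R']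
    rw [mul_assoc, ← mul_assoc (Xn S n), Xn_mul, h2, Xn_one, one_mul, Sg'_mul_Sg]
  have hY : IsRet p (lp (fun n => Yn p n) p) := (Ret.lp fun n => hD.ret).isRet
  obtain ⟨c, t, ht, hct⟩ := inv_ret hY (by positivity) (Cpt.of_sub_eq e1) (Cpt.of_sub_eq e2) hcb
  obtain ⟨U, hU0, hU⟩ := exists_up (p := p) (E := fun n => Yn p n) (F := fun n => Yn p n)
    (fun n => cf p (io n))
    fun n => (norm_cf_le _).trans (norm_io_le n)
  obtain ⟨V, hV⟩ := exists_down (p := p) (E := fun n => Yn p n) (F := fun n => Yn p n)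
    (fun n => cf p (tr n))
    fun n => (norm_cf_le _).trans (norm_tr_le n)
  let W : X0 p × lp (fun n => Yn p n) p →L[ℂ] lp (fun n => Yn p n) p :=
    ((lp.singleContinuousLinearMap ℂ (fun n => Yn p n) p 0).comp (inc p ℂ 0)).coprod U
  let W' : lp (fun n => Yn p n) p →L[ℂ] X0 p × lp (fun n => Yn p n) p :=
    ((cmp p ℂ 0).comp (lp.evalCLM ℂ (fun n => Yn p n) p 0)).prod V
  have hW0 : ∀ x, W x 0 = inc p ℂ 0 x.1 := fun x => by simp [W, hU0]
  have hW : ∀ x n, W x (n + 1) = cf p (io n) (x.2 n) := fun x n => by simp [W, hU]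
  have hW1 : ∀ y, (W' y).1 = cmp p ℂ 0 (y 0) := fun y => rfl
  have hW2 : ∀ y n, (W' y).2 n = cf p (tr n) (y (n + 1)) := fun y n => hV y n
  have hWW : ∀ x, W' (W x) = x := fun x => by
    refine Prod.ext ?_ ?_
    · rw [hW1, hW0, cmp_inc_self]
    · ext1; ext1 n
      rw [hW2, hW, cf_tr_io]
  let Δ : ∀ n, Yn p n →L[ℂ] Yn p n := fun n => Nat.casesOn (motive := fun n => Yn p n →L[ℂ] Yn p n)
    n 0 fun m => R (m + 1) - extend (cf p (io m)) (cf p (tr m)) (R m)
  have hΔ : ∀ m, Δ (m + 1) = Xn T (m + 1) *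
      (Sg p pos τ (m + 1) - extend (cf p (io m)) (cf p (tr m)) (Sg p pos τ m)) := fun m => by
    rw [mul_sub, ← extend_Xn T m, extend_mul (cf_tr_io m), extend_Xn]
  have nΔ : ∀ m, ‖Δ (m + 1)‖ ≤ (‖T‖ + 2) * (4 * l m) := fun m => by
    rw [hΔ, h.extend_Sg, Sg, diag_sub ⟨1, fun _ => norm_Gam _ _⟩ ⟨1, fun _ => norm_Gam _ _⟩]
    exact (norm_mul_le _ _).trans (mul_le_mul (norm_Xn T _) (norm_diag_le fun k =>
      (Gam_lip _ _ _).trans (by gcongr; exact h.t4 _ _)) (norm_nonneg _) (by positivity))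
  have tΔ : Tendsto (fun n => ‖Δ n‖) atTop (𝓝 0) := by
    rw [← tendsto_add_atTop_iff_nat 1]
    exact squeeze_zero (fun _ => norm_nonneg _) nΔ
      (by simpa using (h.l0.const_mul 4).const_mul (‖T‖ + 2))
  have bΔ : Bdd Δ := by
    obtain ⟨K, hK⟩ := tΔ.bddAbove_range
    exact ⟨K, fun n => hK ⟨n, rfl⟩⟩
  have cΔ : Cpt (diag p Δ) := by
    refine diag_cpt bΔ (fun n => ?_) tΔ
    rcases n with _ | m
    · exact Cpt.zero
    · rw [hΔ]
      refine Cpt.mul_left ((h.cpt_Sg (m + 1)).trans (Cpt.symm ?_)) _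
      rw [← extend_one (cf p (io m)) (cf p (tr m))]
      exact extend_congr _ _ (h.cpt_Sg m)
  have key : extend W W' (T.prodMap (diag p R)) = diag p R - diag p Δ := by
    ext1 y
    ext1
    ext1 n
    simp only [extend, add_apply, sub_apply, ContinuousLinearMap.comp_apply, one_apply_eq_self,
      lp.coeFn_add, lp.coeFn_sub, Pi.add_apply, Pi.sub_apply, diag_apply bR, diag_apply bΔ]
    rcases n with _ | m
    · have : Sg p pos τ 0 (y 0) = y 0 := by
        ext1; ext1 k; rw [Sg_apply]; rfl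
      rw [hW0, hW0, ContinuousLinearMap.coe_prodMap', Prod.map_fst, hW1]
      simp [R, Δ, this, Xn, extend]
    · rw [hW, hW, ContinuousLinearMap.coe_prodMap', Prod.map_snd, diag_apply bR, hW2]
      simp [Δ, extend]
  have k1 := cls_extend hWW (T.prodMap (diag p R))
  rw [key,
    cls_congr (T := diag p R - diag p Δ) (S := diag p R) (cΔ.neg.of_eq (by abel)), ← cls_add] at k1
  refine ⟨t + cls (1 : lp (fun n => Yn p n) p →L[ℂ] lp (fun n => Yn p n) p), _, ht.add (Triv.one hY),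
    (Triv.one (IsRet.self.prod hY)).add ht, ?_⟩
  rw [← hct, ← add_assoc _ (cls (diag p R)) c, ← k1]
  ac_rfl

theorem stab_ret {Y : Type} [NormedAddCommGroup Y] [NormedSpace ℂ Y] (hY : IsRet p Y)
    {O O' U U' : Y →L[ℂ] Y} {C : ℝ} (hC0 : 0 ≤ C) (h1 : U * U' = 1) (h2 : U' * U = 1)
    (hU : Cpt (O - U)) (hO : Cpt (O' * O - 1)) (hC : CB O O' C) :
    ∃ t t' : Cls, Triv p t ∧ Triv p t' ∧ cls O + t = t' := by
  obtain ⟨j, q, hq⟩ := hY
  have hU' : Cpt (O' - U') :=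
    ((hO.mul_right U').sub ((hU.mul_left O').mul_right U')).of_eq (by
      simp only [mul_sub, sub_mul, mul_assoc, h1, one_mul, mul_one]; abel)
  obtain ⟨t, t', ht, ht', h⟩ := stab_X0 (T := extend j q U) (S := extend j q U')
    (by rw [extend_mul hq, h1, extend_one]) (by rw [extend_mul hq, h2, extend_one])
    (by positivity) ((hC.congr hU hU').extend hq)
  refine ⟨cls (1 : X0 p →L[ℂ] X0 p) + t, cls (1 : Y →L[ℂ] Y) + t', (Triv.one IsRet.self).add ht,
    (Triv.one ⟨j, q, hq⟩).add ht', ?_⟩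
  rw [cls_congr hU, ← add_assoc, cls_extend hq, add_assoc, h]

end Pool.Agent.P.MP_419fe0_an
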