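import Pool.Agent.P.MP_419fe0_an.Sq
import Pool.Agent.P.MP_419fe0_an.Fejer

/-!
Block tridiagonal forms, commutators with slowly varying fields, and Fejer data for operators.
-/

set_option linter.unusedSectionVars false

namespace Pool.Agent.P.MP_419fe0_an

open Filter Topology Finset
open scoped ENNReal

variable {p : ℝ≥0∞} [Fact (1 ≤ p)] [Good p]

/-- propagation at most one -/
def Tri {E : ℕ → Type*} [∀ i, NormedAddCommGroup (E i)] [∀ i, NormedSpace ℂ (E i)]
    (pos : ℕ → ℕ) (A : lp E p →L[ℂ] lp E p) : Prop :=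
  ∀ k (x : lp E p), (∀ l, pos l ≤ pos k + 1 → pos k ≤ pos l + 1 → x l = 0) → A x k = 0

lemma Tri.amp {pos : ℕ → ℕ} {T : X0 p →L[ℂ] X0 p} (h : Tri pos T) (A : Type) [Fintype A]
    [DecidableEq A] : Tri pos (amp p A T) := by
  intro k y hy
  ext a
  rw [← cmp_apply, cmp_amp]
  exact h k _ fun l h1 h2 => by rw [cmp_apply, hy l h1 h2]; rfl

/-- tail projection -/
noncomputable abbrev Qn (p : ℝ≥0∞) [Fact (1 ≤ p)] (n : ℕ) : X0 p →L[ℂ] X0 p :=
  ind p (fun _ => ℂ) (Set.Ici n)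

lemma tail_eventually {K : X0 p →L[ℂ] X0 p} (hK : Cpt K) {ε : ℝ} (hε : 0 < ε) :
    ∀ᶠ n in atTop, ‖Qn p n * K‖ ≤ ε ∧ ‖K * Qn p n‖ ≤ ε := by
  obtain ⟨n1, h1⟩ := tail_left hK hε
  obtain ⟨n2, h2⟩ := tail_right hK hε
  filter_upwards [eventually_ge_atTop n1, eventually_ge_atTop n2] with n hn1 hn2
  exact ⟨(norm_ind_comp_mono K (Set.Ici_subset_Ici.2 hn1)).trans h1,
    (norm_comp_ind_mono K (Set.Ici_subset_Ici.2 hn2)).trans h2⟩

theorem exists_tri (T : X0 p →L[ℂ] X0 p) : ∃ (pos : ℕ → ℕ) (T' : X0 p →L[ℂ] X0 p),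
    (∀ k, pos k ≤ k) ∧ (∀ i, {k | pos k < i}.Finite) ∧ Tri pos T' ∧ Cpt (T - T') := by
  classical
  have step : ∀ i m : ℕ, ∃ m', m < m' ∧ ‖Qn p m' * (T * ind p _ (Set.Iio m))‖ ≤ (1 / 2) ^ i ∧
      ‖(ind p _ (Set.Iio m) * T) * Qn p m'‖ ≤ (1 / 2) ^ i := by
    intro i m
    have hP : Cpt (ind p (fun _ => ℂ) (Set.Iio m)) := ind_cpt (Set.finite_Iio m)
    obtain ⟨m', h1, h2, h3⟩ := ((eventually_gt_atTop m).and
      ((tail_eventually (hP.mul_left T) (ε := (1 / 2) ^ i) (by positivity)).and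
      (tail_eventually (hP.mul_right T) (ε := (1 / 2) ^ i) (by positivity)))).exists
    exact ⟨m', h1, h2.1, h3.2⟩
  choose f hf1 hf2 hf3 using step
  let n : ℕ → ℕ := fun i => Nat.rec 0 f i
  have hn : ∀ i, n (i + 1) = f i (n i) := fun _ => rfl
  have hmono : StrictMono n := strictMono_nat_of_lt_succ fun i => hf1 i _
  have hex : ∀ k, ∃ i, k < n (i + 1) := fun k => ⟨k, hmono.le_apply⟩
  let pos : ℕ → ℕ := fun k => Nat.find (hex k)
  have hp1 : ∀ k, k < n (pos k + 1) := fun k => Nat.find_spec (hex k)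
  have hp2 : ∀ k, n (pos k) ≤ k := by
    intro k
    rcases h : pos k with _ | j
    · exact Nat.zero_le _
    · exact not_lt.1 (Nat.find_min (hex k) (m := j) (by change j < pos k; omega))
  let E : ℕ → X0 p →L[ℂ] X0 p := fun l => ind p _ {k | pos k = l}
  let Q : ℕ → X0 p →L[ℂ] X0 p := fun l => ind p _ {k | l + 2 ≤ pos k}
  have hE : ∀ l, {k | pos k = l} ⊆ Set.Iio (n (l + 1)) := fun l k hk => by
    have := hp1 k
    rwa [show pos k = l from hk] at this
  have hQ : ∀ l, {k | l + 2 ≤ pos k} ⊆ Set.Ici (n (l + 2)) := fun l k hk =>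
    (hmono.monotone hk).trans (hp2 k)
  have hEc : ∀ l, Cpt (E l) := fun l => ind_cpt ((Set.finite_Iio _).subset (hE l))
  let t : ℕ → X0 p →L[ℂ] X0 p := fun l => Q l * (T * E l) + E l * T * Q l
  have ht : ∀ l, ‖t l‖ ≤ (1 / 2) ^ l := by
    intro l
    have a1 : ‖Q l * (T * E l)‖ ≤ (1 / 2) ^ (l + 1) :=
      (norm_ind_comp_mono _ (hQ l)).trans
        ((norm_comp_ind_mono (Qn p (n (l + 2)) * T) (hE l)).trans (hf2 (l + 1) (n (l + 1))))
    have a2 : ‖E l * T * Q l‖ ≤ (1 / 2) ^ (l + 1) :=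
      (norm_comp_ind_mono _ (hQ l)).trans
        ((norm_ind_comp_mono (T * Qn p (n (l + 2))) (hE l)).trans (hf3 (l + 1) (n (l + 1))))
    refine (norm_add_le _ _).trans ?_
    rw [pow_succ] at a1 a2
    linarith
  have hs : Summable t := Summable.of_norm_bounded summable_geometric_two ht
  have hK : Cpt (∑' l, t l) := by
    refine isClosed_setOfPred_isCompactOperator.mem_of_tendsto hs.hasSum
      (Eventually.of_forall fun s => ?_)
    exact Cpt.sum s fun l _ =>
      (((hEc l).mul_left T).mul_left _).add (((hEc l).mul_right T).mul_right _)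
  refine ⟨pos, T - ∑' l, t l, fun k => hmono.le_apply.trans (hp2 k), fun i => ?_, ?_,
    hK.of_eq (by abel)⟩
  · exact (Set.finite_Iio (n i)).subset fun k hk => (hp1 k).trans_le (hmono.monotone hk)
  · intro k x hx
    let w : ℕ → X0 p := fun l =>
      (if l + 2 ≤ pos k then E l x else 0) + (if l = pos k then Q l x else 0)
    have h1 : ∀ l, t l x k = T (w l) k := by
      intro l
      simp only [t, w, add_apply, mul_apply_eq_comp, map_add, lp.coeFn_add, Pi.add_apply, E, Q,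
        ind_apply, Set.mem_ofPred_eq, eq_comm (a := pos k)]
      congr 1 <;> split_ifs <;> simp
    have h2 : ∑ l ∈ range (pos k + 1), w l = x := by
      ext m
      rw [lp_sum_apply]
      have : ∀ l, w l m = (if l = pos m then (if pos m + 2 ≤ pos k then x m else 0) else 0) +
          (if l = pos k then (if pos k + 2 ≤ pos m then x m else 0) else 0) := by
        intro l
        simp only [w, lp.coeFn_add, Pi.add_apply]
        congr 1
        · by_cases h : l = pos m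
          · subst h; split_ifs <;> simp_all [E, ind_apply]
          · split_ifs <;> simp [E, ind_apply, Ne.symm h]
        · by_cases h : l = pos k
          · subst h; simp [Q, ind_apply]
          · simp [h]
      simp only [this, sum_add_distrib, sum_ite_eq', mem_range]
      have := hx m
      split_ifs <;> first | omega | (rw [this (by omega) (by omega)]; simp) | simp
    have h3 : HasSum (fun l => t l x k) ((∑' l, t l) x k) :=
      hs.hasSum.mapL ((lp.evalCLM ℂ (fun _ : ℕ => ℂ) p k).comp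
        (ContinuousLinearMap.apply ℂ (X0 p) x))
    have h4 : HasSum (fun l => t l x k) (T x k) := by
      have : T x k = ∑ l ∈ range (pos k + 1), t l x k := by
        simp only [h1]
        rw [← lp_sum_apply, ← map_sum, h2]
      rw [this]
      refine hasSum_sum_of_ne_finset_zero fun l hl => ?_
      rw [mem_range] at hl
      rw [h1]
      simp only [w]
      rw [if_neg (by omega), if_neg (by omega)]
      simp
    simp [h3.unique h4]

lemma norm_le_of_pointwise {E F : ℕ → Type*} [∀ i, NormedAddCommGroup (E i)]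
    [∀ i, NormedAddCommGroup (F i)] (u : lp F p) (y : lp E p) {c : ℝ} (hc : 0 ≤ c)
    (h : ∀ k, ‖u k‖ ≤ c * ‖y k‖) : ‖u‖ ≤ c * ‖y‖ := by
  refine lp.norm_le_of_forall_sum_le pr_pos (by positivity) fun s => ?_
  rw [Real.mul_rpow hc (norm_nonneg _)]
  refine le_trans ?_ (mul_le_mul_of_nonneg_left (lp.sum_rpow_le_norm_rpow pr_pos y s)
    (by positivity))
  rw [mul_sum]
  refine sum_le_sum fun k _ => ?_
  rw [← Real.mul_rpow hc (norm_nonneg _)]
  exact Real.rpow_le_rpow (norm_nonneg _) (h k) pr_pos.le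

section comm

variable {G : Type} [NormedAddCommGroup G] [NormedSpace ℂ G]

lemma Tri.comm_le {pos : ℕ → ℕ} {A : Lc p G →L[ℂ] Lc p G} (h : Tri pos A)
    {B : ℕ → G →L[ℂ] G} (hB : Bdd (E := fun _ => G) (F := fun _ => G) B) {c : ℝ}
    (hc : ∀ i, ‖B (i + 1) - B i‖ ≤ c) (hA : ∀ i, cf p (B i) * A = A * cf p (B i)) :
    ‖A * diag p (fun k => B (pos k)) - diag p (fun k => B (pos k)) * A‖ ≤ 3 * (‖A‖ * c) := by
  have hc0 : 0 ≤ c := (norm_nonneg _).trans (hc 0)
  have hb : Bdd (E := fun _ => G) (F := fun _ => G) fun k => B (pos k) :=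
    let ⟨K, hK⟩ := hB; ⟨K, fun k => hK _⟩
  let V : ℕ → Set ℕ := fun i => {l | pos l ≤ i + 1 ∧ i ≤ pos l + 1}
  have hV : Ovl V 3 := ovl_of_diam fun l a b ha hb => by
    have := ha.1; have := hb.2; omega
  refine ContinuousLinearMap.opNorm_le_bound _ (by positivity) fun x => ?_
  refine norm_le_of_fibres pos _ (by positivity) fun s => ?_
  have := col_sum_bound (p := p) (by norm_num) hV (c := ‖A‖ * c) (by positivity) x
    (fun i => ‖ind p _ (pos ⁻¹' {i})
      ((A * diag p (fun k => B (pos k)) - diag p (fun k => B (pos k)) * A) x)‖)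
    (fun _ => norm_nonneg _) (fun i => ?_) s
  · simpa using this
  have e : ind p _ (pos ⁻¹' {i})
      ((A * diag p (fun k => B (pos k)) - diag p (fun k => B (pos k)) * A) x) =
      ind p _ (pos ⁻¹' {i})
        (A (diag p (fun k => B (pos k)) (ind p _ (V i) x) - cf p (B i) (ind p _ (V i) x))) := by
    ext k
    by_cases hk : pos k = i
    · have hk' : k ∈ pos ⁻¹' {i} := hk
      rw [ind_apply_mem _ hk', ind_apply_mem _ hk']
      have e1 : (diag p (fun k => B (pos k)) * A) x k = A (cf p (B i) x) k := by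
        rw [mul_apply_eq_comp, diag_apply hb, hk, ← cf_apply]
        exact congrArg (fun C : Lc p G →L[ℂ] Lc p G => C x k) (hA i)
      have e2 := h k ((diag p (fun k => B (pos k)) x - cf p (B i) x) -
        (diag p (fun k => B (pos k)) (ind p _ (V i) x) - cf p (B i) (ind p _ (V i) x)))
        fun l h1 h2 => by
          have : l ∈ V i := ⟨hk ▸ h1, hk ▸ h2⟩
          simp [diag_apply hb, ind_apply_mem _ this]
      simp only [map_sub, lp.coeFn_sub, Pi.sub_apply, sub_apply] at e2 ⊢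
      rw [e1]
      exact sub_eq_zero.1 e2
    · have hk' : k ∉ pos ⁻¹' {i} := hk
      rw [ind_apply_notMem _ hk', ind_apply_notMem _ hk']
  rw [e, mul_assoc]
  refine (norm_ind_apply_le _ _).trans ((A.le_opNorm _).trans ?_)
  gcongr
  refine norm_le_of_pointwise _ _ hc0 fun k => ?_
  by_cases hk : k ∈ V i
  · have h1 : ‖B (pos k) - B i‖ ≤ c := by
      obtain h | h | h : pos k = i ∨ pos k = i + 1 ∨ i = pos k + 1 := by
        have := hk.1; have := hk.2; omega
      · rw [h, sub_self, norm_zero]; exact hc0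
      · rw [h]; exact hc i
      · rw [h, norm_sub_rev]; exact hc _
    simpa [diag_apply hb] using (B (pos k) - B i).le_of_opNorm_le h1 (ind p _ (V i) x k)
  · simp [diag_apply hb, ind_apply_notMem _ hk]

end comm

lemma Rep.tail {T S : X0 p →L[ℂ] X0 p} {C : ℝ} (hC : CB T S C) {φ : ℂ → ℂ}
    {A : X0 p →L[ℂ] X0 p} (h : Rep T S φ A) {M : ℝ} (hM : ∀ v : ℂ, ‖v‖ = 1 → ‖φ v‖ ≤ M) {ε : ℝ}
    (hε : 0 < ε) : ∀ᶠ n in atTop, ‖Qn p n * A‖ ≤ C * M + ε ∧ ‖A * Qn p n‖ ≤ C * M + ε := by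
  obtain ⟨K, hK, hb⟩ := h.bound hC hM (half_pos hε)
  filter_upwards [tail_eventually hK (half_pos hε)] with n hn
  have hQ : ‖Qn p n‖ ≤ 1 := norm_ind_le _
  have h0 := norm_nonneg (A + K)
  constructor
  · have : Qn p n * A = Qn p n * (A + K) - Qn p n * K := by noncomm_ring
    rw [this]
    refine (norm_sub_le _ _).trans ?_
    nlinarith [norm_mul_le (Qn p n) (A + K), hn.1]
  · have : A * Qn p n = (A + K) * Qn p n - K * Qn p n := by noncomm_ring
    rw [this]
    refine (norm_sub_le _ _).trans ?_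
    nlinarith [norm_mul_le (A + K) (Qn p n), hn.2]

/-- Fejer data for a pair of operators, valid on the tail from `n` on -/
structure FD (T S : X0 p →L[ℂ] X0 p) (c η : ℝ) {M : ℕ} (z : Fin M → ℂ)
    (a : Fin M → X0 p →L[ℂ] X0 p) (n : ℕ) : Prop where
  l : ∀ ω : Fin M → Bool, ‖Qn p n * ∑ j, (sg (ω j) : ℂ) • a j‖ ≤ c
  r : ∀ ω : Fin M → Bool, ‖(∑ j, (sg (ω j) : ℂ) • a j) * Qn p n‖ ≤ c
  r1 : ∀ ω : Fin M → Bool, ‖(∑ j, (sg (ω j) : ℂ) • (z j • a j - a j * T)) * Qn p n‖ ≤ η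
  l1 : ∀ ω : Fin M → Bool, ‖Qn p n * ∑ j, (sg (ω j) : ℂ) • (z j • a j - a j * T)‖ ≤ η
  l2 : ∀ ω : Fin M → Bool, ‖Qn p n * ∑ j, (sg (ω j) : ℂ) • (z j • a j - T * a j)‖ ≤ η
  l3 : ∀ ω : Fin M → Bool, ‖Qn p n * ∑ j, (sg (ω j) : ℂ) • ((z j)⁻¹ • a j - a j * S)‖ ≤ η
  sq : ‖Qn p n * (∑ j, a j * a j - 1)‖ ≤ η

theorem exists_FD {T S : X0 p →L[ℂ] X0 p} {C : ℝ} (hC0 : 0 ≤ C) (h1 : Cpt (T * S - 1))
    (h2 : Cpt (S * T - 1)) (hC : CB T S C) {η : ℝ} (hη : 0 < η) :
    ∃ (M : ℕ) (z : Fin M → ℂ) (g : Fin M → ℤ →₀ ℂ), (∀ j, ‖z j‖ = 1) ∧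
      Cpt (∑ j, ev (g j) T S * ev (g j) T S - 1) ∧
      ∀ᶠ n in atTop, FD T S (C * 2 + 1) η z (fun j => ev (g j) T S) n := by
  obtain ⟨M, z, g, hz, hg⟩ := exists_fejer (δ := η / (2 * (C + 1))) (by positivity)
  have ha : ∀ j, Rep T S (sv (g j)) (ev (g j) T S) := fun j => Rep.ev _
  have hsq : Cpt (∑ j, ev (g j) T S * ev (g j) T S - 1) := by
    refine Cpt.of_approx fun ε hε => ?_
    obtain ⟨K, hK, hb⟩ := ((Rep.sum univ fun j _ => (ha j).mul h1 h2 (ha j)).sub Rep.one).bound hC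
      (M := 0) (fun v hv => by rw [(hg v hv).1]; simp) hε
    exact ⟨-K, hK.neg, by simpa using hb⟩
  have hη' : C * (η / (2 * (C + 1))) + η / 2 ≤ η := by
    have : C * (η / (2 * (C + 1))) ≤ η / 2 := by
      rw [← mul_div_assoc, div_le_div_iff₀ (by positivity) (by positivity)]; nlinarith
    linarith
  have key : ∀ (b : Fin M → X0 p →L[ℂ] X0 p) (ψ : Fin M → ℂ → ℂ) (m ε : ℝ), 0 < ε →
      (∀ j, Rep T S (ψ j) (b j)) → (∀ v : ℂ, ‖v‖ = 1 → ∑ j, ‖ψ j v‖ ≤ m) →
      ∀ᶠ n in atTop, ∀ ω : Fin M → Bool, ‖Qn p n * ∑ j, (sg (ω j) : ℂ) • b j‖ ≤ C * m + ε ∧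
        ‖(∑ j, (sg (ω j) : ℂ) • b j) * Qn p n‖ ≤ C * m + ε := by
    intro b ψ m ε hε hb hψ
    refine eventually_all.2 fun ω => ?_
    refine (Rep.sum univ fun j _ => (hb j).smul (sg (ω j) : ℂ)).tail hC (fun v hv => ?_) hε
    refine (norm_sum_le _ _).trans (le_trans (le_of_eq ?_) (hψ v hv))
    exact sum_congr rfl fun j _ => by rw [norm_mul, norm_sg, one_mul]
  refine ⟨M, z, g, hz, hsq, ?_⟩
  filter_upwards [key _ _ 2 1 one_pos ha fun v hv => (hg v hv).2.1,
    key _ _ _ _ (half_pos hη) (fun j => ((ha j).smul (z j)).sub ((ha j).mul h1 h2 Rep.fst))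
      fun v hv => le_trans (le_of_eq (sum_congr rfl fun j _ => by
        rw [← norm_mul, ← norm_neg]; congr 1; ring)) (hg v hv).2.2,
    key _ _ _ _ (half_pos hη) (fun j => ((ha j).smul (z j)).sub (Rep.fst.mul h1 h2 (ha j)))
      fun v hv => le_trans (le_of_eq (sum_congr rfl fun j _ => by
        rw [← norm_mul, ← norm_neg]; congr 1; ring)) (hg v hv).2.2,
    key _ _ _ _ (half_pos hη) (fun j => ((ha j).smul (z j)⁻¹).sub ((ha j).mul h1 h2 Rep.snd))
      fun v hv => le_trans (le_of_eq (sum_congr rfl fun j _ => by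
        have hv0 : v ≠ 0 := by rintro rfl; simp at hv
        have hz0 : z j ≠ 0 := fun h => by simpa [h] using hz j
        have : (z j)⁻¹ * sv (g j) v - sv (g j) v * v⁻¹ = sv (g j) v * (v - z j) / (v * z j) := by
          field_simp
        rw [this, norm_div, norm_mul, norm_mul, hv, hz]; simp)) (hg v hv).2.2,
    tail_eventually hsq hη] with n a1 a2 a3 a4 a5
  exact ⟨fun ω => (a1 ω).1, fun ω => (a1 ω).2, fun ω => (a2 ω).2.trans hη',
    fun ω => (a2 ω).1.trans hη', fun ω => (a3 ω).1.trans hη', fun ω => (a4 ω).1.trans hη', a5.1⟩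

end Pool.Agent.P.MP_419fe0_an
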